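import Pool.Agent.Lib.MP_b685ef_ag.ASP.Spec
import Pool.Agent.Lib.MP_b685ef_ag.AS.PRODF
import Pool.Agent.Lib.MP_b685ef_ag.AS.Main
import Pool.Agent.Lib.MP_b685ef_ag.AS.DIAG
import Pool.Agent.Lib.MP_b685ef_ag.AS.EDGES
import Pool.Agent.Lib.MP_b685ef_ag.AS.Spec2

section
/-!
# Module CHIP: the reduced blocks, without separability at the level `D`
-/
set_option linter.all false

namespace ASP

open Finset Polynomial ASur

private theorem chip_rev_rev {K : Type} [Field K] {P : K[X]} (h0 : P.coeff 0 ≠ 0) :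
    P.reverse.reverse = P := by
  have hP : P ≠ 0 := by
    rintro rfl
    simp at h0
  have h1 : P.natTrailingDegree = 0 := natTrailingDegree_eq_zero.2 (Or.inr h0)
  have h2 : P.reverse.natDegree = P.natDegree := by
    rw [reverse_natDegree, h1, Nat.sub_zero]
  show reflect P.reverse.natDegree (reflect P.natDegree P) = P
  rw [h2, reflect_reflect]

private theorem chip_sqf {K : Type} [Field K] {Q : K[X]} (hs : Squarefree Q)
    (h0 : Q.coeff 0 ≠ 0) : Squarefree Q.reverse := by
  intro A hA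
  obtain ⟨S, hS⟩ := hA
  have hQ : Q ≠ 0 := by
    rintro rfl
    simp at h0
  have h1 : Q = A.reverse * A.reverse * S.reverse := by
    rw [← chip_rev_rev h0, hS, reverse_mul_of_domain, reverse_mul_of_domain]
  have h2 : IsUnit A.reverse := hs _ ⟨_, h1⟩
  have h3 : A.coeff 0 ≠ 0 := by
    intro h
    have h4 : Q.reverse.coeff 0 = 0 := by
      rw [hS, mul_assoc, mul_coeff_zero, h, zero_mul]
    rw [coeff_zero_reverse] at h4
    exact hQ (leadingCoeff_eq_zero.1 h4)
  have h5 : A.natTrailingDegree = 0 := natTrailingDegree_eq_zero.2 (Or.inr h3)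
  have h6 : A.reverse.natDegree = A.natDegree := by
    rw [reverse_natDegree, h5, Nat.sub_zero]
  have h7 : A.natDegree = 0 := by rw [← h6]; exact natDegree_eq_zero_of_isUnit h2
  rw [eq_C_of_natDegree_eq_zero h7]
  exact isUnit_C.2 (isUnit_iff_ne_zero.2 h3)

private theorem chip_sep_rev {K : Type} [Field K] {P : K[X]} (hs : P.Separable)
    (h0 : P.coeff 0 ≠ 0) : P.reverse.Separable := by
  let f := algebraMap K (AlgebraicClosure K)
  have h1 : (P.map f).Separable := hs.map
  have h2 : (P.map f).coeff 0 ≠ 0 := by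
    rw [coeff_map]
    exact (map_ne_zero f).2 h0
  have h3 : (P.map f).reverse.Separable :=
    PerfectField.separable_iff_squarefree.2 (chip_sqf h1.squarefree h2)
  have h4 : (P.map f).reverse = P.reverse.map f := by
    show reflect (P.map f).natDegree (P.map f) = (reflect P.natDegree P).map f
    rw [natDegree_map, reflect_map]
  rw [h4] at h3
  exact (separable_map f).1 h3

private theorem chip_comp {K : Type} [Field K] {P : K[X]} (hs : P.Separable) {r : K} (hr : r ≠ 0) :
    (P.comp (C r * X)).Separable := by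
  have h1 : IsCoprime (P.comp (C r * X)) (P.derivative.comp (C r * X)) :=
    IsCoprime.map (f := compRingHom (C r * X)) hs
  show IsCoprime _ _
  rw [derivative_comp]
  have h2 : derivative (C r * X : K[X]) = C r := by simp
  rw [h2]
  exact (isCoprime_mul_unit_left_right (isUnit_C.2 (isUnit_iff_ne_zero.2 hr)) _ _).2 h1

private theorem chip_rev_smul {K : Type} [Field K] {ι : Type} [Fintype ι] [DecidableEq ι]
    (M : Matrix ι ι K) (r : K) : (r • M).charpolyRev = M.charpolyRev.comp (C r * X) := by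
  show (1 - (X : K[X]) • (r • M).map C).det = compRingHom (C r * X) (1 - (X : K[X]) • M.map C).det
  rw [RingHom.map_det]
  congr 1
  refine Matrix.ext fun i j => ?_
  simp only [RingHom.mapMatrix_apply, Matrix.map_apply, Matrix.sub_apply, Matrix.smul_apply,
    smul_eq_mul, map_mul, map_sub, coe_compRingHom_apply, X_comp, C_comp]
  by_cases h : i = j
  · subst h
    simp only [Matrix.one_apply_eq, one_comp]
    ring
  · simp only [Matrix.one_apply_ne h, zero_comp]
    ring

private theorem chip_Pmat_smul {K : Type} [Field K] {ι : Type} [Fintype ι] [DecidableEq ι] (s : K)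
    (B M : ℕ → Matrix ι ι K) (h : ∀ i, s • B i = M i) (n : ℕ) :
    s ^ n • Pmat B n = Pmat M n := by
  induction n with
  | zero => simp [Pmat]
  | succ n ih =>
    show s ^ (n + 1) • (B n * Pmat B n) = M n * Pmat M n
    rw [← ih, ← h n, Matrix.smul_mul, Matrix.mul_smul, smul_smul, pow_succ, mul_comm]

private theorem chip_Pmat_frob {k K : Type} [Field k] [Field K] {ι : Type} [Fintype ι]
    [DecidableEq ι] (g : k →+* K) (p : ℕ) (H : Matrix ι ι k) (n : ℕ) :
    Pmat (fun i => H.map fun x => g x ^ (p ^ i)) n = (Fprod p H n).map g := by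
  induction n with
  | zero =>
    show (1 : Matrix ι ι K) = (1 : Matrix ι ι k).map g
    rw [Matrix.map_one g (map_zero g) (map_one g)]
  | succ n ih =>
    show (H.map fun x => g x ^ (p ^ n)) * Pmat _ n = ((H.map fun x => x ^ (p ^ n)) * Fprod p H n).map g
    rw [ih, Matrix.map_mul]
    congr 1
    ext i j
    simp

private theorem chip_det_Pmat {K : Type} [Field K] {ι : Type} [Fintype ι] [DecidableEq ι]
    (B : ℕ → Matrix ι ι K) (n : ℕ) : (Pmat B n).det = ∏ i ∈ range n, (B i).det := by
  induction n with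
  | zero => simp [Pmat]
  | succ n ih =>
    show (B n * Pmat B n).det = _
    rw [Matrix.det_mul, ih, prod_range_succ, mul_comm]

private theorem chip_det_Fprod {K : Type} [Field K] {ι : Type} [Fintype ι] [DecidableEq ι]
    {p : ℕ} [Fact p.Prime] [CharP K p] (M : Matrix ι ι K) (hM : M.det ≠ 0) (n : ℕ) :
    (Fprod p M n).det ≠ 0 := by
  induction n with
  | zero => simp [Fprod]
  | succ n ih =>
    show ((M.map fun x => x ^ (p ^ n)) * Fprod p M n).det ≠ 0
    rw [Matrix.det_mul]
    refine mul_ne_zero ?_ ih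
    have h1 : (M.map fun x => x ^ (p ^ n)) = (iterateFrobenius K p n).mapMatrix M := by
      ext i j
      simp [iterateFrobenius_def]
    rw [h1, ← RingHom.map_det]
    exact (_root_.map_ne_zero _).2 hM

/-- One level `m`: the product of the reduced blocks is `((cm)!)^{-h} ι(N_m)`. -/
private theorem chip_level (hL : StmtLEAD) (hR : StmtREIDX) (p : ℕ) [hp : Fact p.Prime]
    (a b : ℕ) (ha : 2 ≤ a) (hb : 2 ≤ b) (hD : Nat.lcm a b ∣ p - 1) (C' : Type) [NormedField C']
    [IsUltrametricDist C'] (hpC : ‖(p : C')‖ < 1) (ζ ρ : C') (ε : ℝ) (Θ : Polynomial C')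
    (hΘ : IsSplit p ζ ε Θ) (hρ : ρ ^ Nat.lcm a b = ζ - 1) (hρ0 : ρ ≠ 0) (hρ1 : ‖ρ‖ < 1)
    (k : Type) [Field k] (ι : k →+* KK C') (τ : k →*₀ C') (hτ : IsTeich ι τ)
    (f : MvPolynomial (Fin 2) k) (hf : ∀ m ∈ f.support, ew a b m ≤ Nat.lcm a b)
    (h L : ℕ) (m : ℕ) (hm : m ≤ Nat.lcm a b) :
    ((((p - 1) / Nat.lcm a b * m).factorial : ℕ) : KK C') ≠ 0 ∧
    ((((p - 1) / Nat.lcm a b * m).factorial : ℕ) : KK C') ^ h •
      Pmat (fun i => blk (fun u : Fin 2 → Fin L => ew a b (pt u)) m
        (Cmat p a b L ρ (Fpol p τ Θ f i))) h = (Fprod p (Hmat p a b L m f) h).map ι := by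
  have hchar : CharP (KK C') p := charP_KK hpC
  have hp1 : 1 ≤ p := hp.out.one_lt.le
  have hcm : (p - 1) / Nat.lcm a b * m < p := by
    have h1 : (p - 1) / Nat.lcm a b * m ≤ (p - 1) / Nat.lcm a b * Nat.lcm a b :=
      Nat.mul_le_mul_left _ hm
    rw [Nat.div_mul_cancel hD] at h1
    omega
  refine ⟨?_, ?_⟩
  · intro h0
    have h1 := (CharP.cast_eq_zero_iff (KK C') p _).1 h0
    have h2 := (Nat.Prime.dvd_factorial hp.out).1 h1
    omega
  · rw [← chip_Pmat_frob ι p]
    refine chip_Pmat_smul _ _ _ (fun i => ?_) h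
    refine Matrix.ext fun u v => ?_
    have h1 := (hL p a b ha hb hD C' hpC ζ ρ ε Θ hΘ hρ hρ0 hρ1 k ι τ hτ f hf i L u.1 v.1
      (u.2.le.trans hm) (v.2.le.trans hm)).2 m u.2 v.2
    rw [Matrix.smul_apply, smul_eq_mul, mul_comm]
    exact h1

/-- **Module CHIP.** -/
theorem CHIP_thm (hL : StmtLEAD) (hR : StmtREIDX) : StmtCHIP := by
  intro p hp a b ha hb hD C' _ _ _ hpC ζ ρ ε Θ hΘ hρ hρ0 hρ1 k _ ι τ hτ f hf h hh hsep hdetD L hL'
  have hchar : CharP (KK C') p := charP_KK hpC
  have hchark : CharP k p := (RingHom.charP_iff ι ι.injective p).2 hchar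
  have hlev := fun m hm => chip_level hL hR p a b ha hb hD C' hpC ζ ρ ε Θ hΘ hρ hρ0 hρ1 k ι τ hτ
    f hf h L m hm
  -- a block with invertible `N_m`
  have hdet : ∀ m, 1 ≤ m → m ≤ Nat.lcm a b → (Fprod p (Hmat p a b L m f) h).charpoly.coeff 0 ≠ 0 →
      (Pmat (fun i => blk (fun u : Fin 2 → Fin L => ew a b (pt u)) m
        (Cmat p a b L ρ (Fpol p τ Θ f i))) h).det ≠ 0 := by
    intro m hm1 hm hN0
    obtain ⟨hs0, hG⟩ := hlev m hm
    have hM0 : ((Fprod p (Hmat p a b L m f) h).map ι).charpoly.coeff 0 ≠ 0 := by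
      rw [Matrix.charpoly_map, coeff_map]
      exact (map_ne_zero ι).2 hN0
    have h1 : ((Fprod p (Hmat p a b L m f) h).map ι).det ≠ 0 := by
      rw [Matrix.det_eq_sign_charpoly_coeff]
      exact mul_ne_zero (pow_ne_zero _ (by norm_num)) hM0
    rw [← hG, Matrix.det_smul] at h1
    exact right_ne_zero_of_mul h1
  have hN0 : ∀ m, 1 ≤ m → m ≤ Nat.lcm a b →
      (Fprod p (Hmat p a b L m f) h).charpoly.coeff 0 ≠ 0 := by
    intro m hm1 hm
    obtain ⟨_, hcard, hch⟩ := hR p a b ha hb L m hm hL'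
    rw [hch k f h]
    rcases Nat.lt_or_ge m (Nat.lcm a b) with hlt | hge
    · intro h0
      have h1 : IsCoprime (X : k[X])
        (Fprod p (Hmat p a b (Nat.lcm a b) m f) h).charpoly := (hsep m hm1 hlt).isCoprime
      have h2 : (X : k[X]) ∣ (Fprod p (Hmat p a b (Nat.lcm a b) m f) h).charpoly := X_dvd_iff.2 h0
      exact not_isUnit_X (h1.isUnit_of_dvd' dvd_rfl h2)
    · obtain rfl : m = Nat.lcm a b := le_antisymm hm hge
      intro h0
      refine chip_det_Fprod (p := p) (Hmat p a b (Nat.lcm a b) (Nat.lcm a b) f) hdetD h ?_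
      rw [Matrix.det_eq_sign_charpoly_coeff, h0, mul_zero]
  refine ⟨?_, ?_, ?_⟩
  · intro m hm1 hlt
    have hm : m ≤ Nat.lcm a b := hlt.le
    obtain ⟨hs0, hG⟩ := hlev m hm
    obtain ⟨_, hcard, hch⟩ := hR p a b ha hb L m hm hL'
    have hd := hdet m hm1 hm (hN0 m hm1 hm)
    have hN : (X * (Fprod p (Hmat p a b L m f) h).charpoly).Separable := by
      rw [hch k f h]
      exact hsep m hm1 hlt
    have hM1 : ((Fprod p (Hmat p a b L m f) h).map ι).charpoly.Separable := by
      rw [Matrix.charpoly_map]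
      exact hN.of_mul_right.map
    have hM0 : ((Fprod p (Hmat p a b L m f) h).map ι).charpoly.coeff 0 ≠ 0 := by
      rw [Matrix.charpoly_map, coeff_map]
      exact (map_ne_zero ι).2 (hN0 m hm1 hm)
    set s : KK C' := ((((p - 1) / Nat.lcm a b * m).factorial : ℕ) : KK C') with hs
    have hr : (s ^ h)⁻¹ ≠ 0 := inv_ne_zero (pow_ne_zero _ hs0)
    refine ⟨?_, ?_⟩
    · have hG' : Pmat (fun i => blk (fun u : Fin 2 → Fin L => ew a b (pt u)) m
          (Cmat p a b L ρ (Fpol p τ Θ f i))) h =
          (s ^ h)⁻¹ • (Fprod p (Hmat p a b L m f) h).map ι := by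
        rw [← hG, smul_smul, inv_mul_cancel₀ (pow_ne_zero _ hs0), one_smul]
      rw [hG', chip_rev_smul, ← Matrix.reverse_charpoly]
      exact chip_comp (chip_sep_rev hM1 hM0) hr
    · have h1 : (Pmat (fun i => blk (fun u : Fin 2 → Fin L => ew a b (pt u)) m
          (Cmat p a b L ρ (Fpol p τ Θ f i))) h).charpoly.coeff 0 ≠ 0 := by
        intro h0
        apply hd
        rw [Matrix.det_eq_sign_charpoly_coeff, h0, mul_zero]
      rw [← Matrix.reverse_charpoly, reverse_natDegree, Matrix.charpoly_natDegree_eq_dim,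
        natTrailingDegree_eq_zero.2 (Or.inr h1), Nat.sub_zero, ← hcard]
  · intro m hm1 hm
    refine ⟨?_, ?_⟩
    · rw [coeff_zero_eq_eval_zero, Matrix.eval_charpolyRev]
    · intro i hi
      have hd := hdet m hm1 hm (hN0 m hm1 hm)
      rw [chip_det_Pmat] at hd
      exact (prod_ne_zero_iff.1 hd) i (mem_range.2 hi)
  · obtain ⟨hs0, hG⟩ := hlev (Nat.lcm a b) le_rfl
    obtain ⟨_, hcard, hch⟩ := hR p a b ha hb L (Nat.lcm a b) le_rfl hL'
    have hw : (((((p - 1) / Nat.lcm a b * Nat.lcm a b).factorial : ℕ)) : KK C') = -1 := by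
      rw [Nat.div_mul_cancel hD]
      have h1 : (((p - 1).factorial : ℕ) : ZMod p) = -1 := ZMod.wilsons_lemma p
      have h2 : (ZMod.castHom (dvd_refl p) (KK C')) (((p - 1).factorial : ℕ) : ZMod p) = -1 := by
        rw [h1, map_neg, map_one]
      rw [map_natCast] at h2
      exact h2
    rw [hw] at hG
    have hsq : ((-1 : KK C') ^ h) * (-1) ^ h = 1 := by
      rw [← mul_pow]; simp
    have hG' : Pmat (fun i => blk (fun u : Fin 2 → Fin L => ew a b (pt u)) (Nat.lcm a b)
        (Cmat p a b L ρ (Fpol p τ Θ f i))) h =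
        ((-1 : KK C') ^ h) • (Fprod p (Hmat p a b L (Nat.lcm a b) f) h).map ι := by
      rw [← hG, smul_smul, hsq, one_smul]
    rw [hG', chip_rev_smul]
    congr 1
    rw [← Matrix.reverse_charpoly, ← Matrix.reverse_charpoly, Matrix.charpoly_map,
      Matrix.charpoly_map, hch k f h]

end ASP
end

section
/-!
# MP_b685ef_ag, ASP: module COREP (helper87)
-/
set_option linter.all false
set_option autoImplicit false

namespace ASP

open Finset ASur

namespace COREPaux

theorem map_sum_roots {α β γ : Type*} (r : α → Multiset β) (φ : β → γ) (F : Multiset α) :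
    ((F.map r).sum).map φ = (F.map fun P => (r P).map φ).sum := by
  induction F using Multiset.induction_on with
  | empty => simp
  | cons a s ih => simp [ih]

theorem xpow_ne {K : Type*} [Field K] {d : ℕ} (hd : 1 ≤ d) :
    (Polynomial.X ^ d - 1 : Polynomial K) ≠ 0 := by
  have h := Polynomial.monic_X_pow_sub_C (1 : K) (show d ≠ 0 by omega)
  rw [map_one] at h
  exact h.ne_zero

theorem mem_xpow {K : Type*} [Field K] {d : ℕ} (hd : 1 ≤ d) (x : K) :
    x ∈ (Polynomial.X ^ d - 1 : Polynomial K).roots ↔ x ^ d = 1 := by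
  rw [Polynomial.mem_roots (xpow_ne hd)]
  simp [Polynomial.IsRoot, sub_eq_zero]

theorem roots_prod {K α : Type*} [Field K] (F : Multiset α) (d : α → ℕ) (hd : ∀ P ∈ F, 1 ≤ d P) :
    ((F.map fun P => (Polynomial.X ^ d P - 1 : Polynomial K)).prod).roots =
      (F.map fun P => (Polynomial.X ^ d P - 1 : Polynomial K).roots).sum := by
  rw [Polynomial.roots_multiset_prod]
  · rw [Multiset.bind, Multiset.join, Multiset.map_map]
    rfl
  · intro h
    obtain ⟨P, hP, h0⟩ := Multiset.mem_map.1 h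
    exact xpow_ne (hd P hP) h0


theorem nodup_xpow {K : Type*} [Field K] (p : ℕ) [CharP K p] {d : ℕ} (hd : ¬ p ∣ d) :
    (Polynomial.X ^ d - 1 : Polynomial K).roots.Nodup := by
  have h := Polynomial.separable_X_pow_sub_C' p d (1 : K) hd one_ne_zero
  rw [map_one] at h
  exact Polynomial.nodup_roots h

theorem nodup_res {K α : Type*} [Field K] (p : ℕ) [CharP K p] (B : Multiset K) (F : Multiset α)
    (d : α → ℕ) (hd : ∀ P ∈ F, 1 ≤ d P ∧ ¬ p ∣ d P)
    (h : 1 ::ₘ B = (F.map fun P => (Polynomial.X ^ d P - 1 : Polynomial K).roots).sum)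
    (hF : Multiset.card F = 1 ∨ ∃ P₁ P₂, F = {P₁, P₂} ∧ Nat.Coprime (d P₁) (d P₂)) :
    B.Nodup := by
  classical
  rcases hF with hF | ⟨P₁, P₂, rfl, hco⟩
  · obtain ⟨P, rfl⟩ := Multiset.card_eq_one.1 hF
    rw [Multiset.map_singleton, Multiset.sum_singleton] at h
    have h1 := nodup_xpow (K := K) p (hd P (Multiset.mem_singleton_self P)).2
    rw [← h] at h1
    exact (Multiset.nodup_cons.1 h1).2
  · have hd1 := hd P₁ (by simp)
    have hd2 := hd P₂ (by simp)
    have e : (({P₁, P₂} : Multiset α).map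
        fun P => (Polynomial.X ^ d P - 1 : Polynomial K).roots).sum =
        (Polynomial.X ^ d P₁ - 1 : Polynomial K).roots +
        (Polynomial.X ^ d P₂ - 1 : Polynomial K).roots := by
      simp
    rw [e] at h
    rw [Multiset.nodup_iff_count_le_one]
    intro x
    have hc := congrArg (Multiset.count x) h
    rw [Multiset.count_cons, Multiset.count_add] at hc
    have c1 := Multiset.nodup_iff_count_le_one.1 (nodup_xpow (K := K) p hd1.2) x
    have c2 := Multiset.nodup_iff_count_le_one.1 (nodup_xpow (K := K) p hd2.2) x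
    by_cases hx : x = 1
    · rw [if_pos hx] at hc
      omega
    · rw [if_neg hx] at hc
      by_contra hcon
      have m1 : x ∈ (Polynomial.X ^ d P₁ - 1 : Polynomial K).roots := by
        rw [← Multiset.one_le_count_iff_mem]
        omega
      have m2 : x ∈ (Polynomial.X ^ d P₂ - 1 : Polynomial K).roots := by
        rw [← Multiset.one_le_count_iff_mem]
        omega
      rw [mem_xpow hd1.1] at m1
      rw [mem_xpow hd2.1] at m2
      have := pow_gcd_eq_one.2 ⟨m1, m2⟩
      rw [Nat.Coprime.gcd_eq_one hco, pow_one] at this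
      exact hx this

theorem det_fprod {k : Type} [Field k] (p : ℕ) [Fact p.Prime] [CharP k p] {ι : Type} [Fintype ι]
    [DecidableEq ι] (M : Matrix ι ι k) (n : ℕ) (hM : M.det = 0) :
    (Fprod p M (n + 1)).det = 0 := by
  show ((M.map fun x => x ^ (p ^ n)) * Fprod p M n).det = 0
  rw [Matrix.det_mul]
  have h : (M.map fun x => x ^ (p ^ n)) = (iterateFrobenius k p n).mapMatrix M := by
    ext i j
    simp [iterateFrobenius_def]
  rw [h, ← RingHom.map_det, hM, map_zero, zero_mul]

variable {C : Type} [NormedField C] [IsUltrametricDist C] [IsAlgClosed C]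

theorem roots_red {d : ℕ} (hd : 1 ≤ d) :
    ((Polynomial.X ^ d - 1 : Polynomial C).roots).map (fun x => rd x) =
      (Polynomial.X ^ d - 1 : Polynomial (KK C)).roots := by
  classical
  have hm : (Polynomial.X ^ d - 1 : Polynomial C).Monic := by
    have h := Polynomial.monic_X_pow_sub_C (1 : C) (show d ≠ 0 by omega)
    rwa [map_one] at h
  have hR : ∀ z ∈ (Polynomial.X ^ d - 1 : Polynomial C).roots, z ∈ OO C := by
    intro z hz
    rw [mem_xpow hd] at hz
    rw [mem_OO]
    have h1 : ‖z‖ ^ d = 1 := by rw [← norm_pow, hz, norm_one]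
    exact (pow_eq_one_iff_of_nonneg (norm_nonneg z) (by omega)).1 h1 |>.le
  obtain ⟨R, hRdef⟩ : ∃ R : Multiset (OO C),
      R.map (fun z : OO C => (z : C)) = (Polynomial.X ^ d - 1 : Polynomial C).roots := by
    refine ⟨(Polynomial.X ^ d - 1 : Polynomial C).roots.attach.map
      (fun z => ⟨z.1, hR z.1 z.2⟩), ?_⟩
    rw [Multiset.map_map]
    exact Multiset.attach_map_val _
  have hprod := Polynomial.prod_multiset_X_sub_C_of_monic_of_roots_card_eq hm
    IsAlgClosed.card_roots_eq_natDegree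
  have hO : (R.map fun z => (Polynomial.X - Polynomial.C z : Polynomial (OO C))).prod =
      Polynomial.X ^ d - 1 := by
    apply Polynomial.map_injective (OO C).subtype Subtype.val_injective
    rw [Polynomial.map_multiset_prod, Multiset.map_map]
    have h1 : (R.map ((Polynomial.map (OO C).subtype) ∘
        fun z => (Polynomial.X - Polynomial.C z : Polynomial (OO C)))) =
        (Polynomial.X ^ d - 1 : Polynomial C).roots.map fun z => Polynomial.X - Polynomial.C z := by
      rw [← hRdef, Multiset.map_map]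
      apply Multiset.map_congr rfl
      intro z _
      simp
    rw [h1, hprod]
    simp
  have hK := congrArg (Polynomial.map (IsLocalRing.residue (OO C))) hO
  rw [Polynomial.map_multiset_prod, Multiset.map_map] at hK
  have h2 : (R.map ((Polynomial.map (IsLocalRing.residue (OO C))) ∘
        fun z => (Polynomial.X - Polynomial.C z : Polynomial (OO C)))) =
        (R.map (IsLocalRing.residue (OO C))).map fun z => Polynomial.X - Polynomial.C z := by
    rw [Multiset.map_map]
    apply Multiset.map_congr rfl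
    intro z _
    simp
  rw [h2] at hK
  have h3 := congrArg Polynomial.roots hK
  rw [Polynomial.roots_multiset_prod_X_sub_C] at h3
  have h4 : Polynomial.map (IsLocalRing.residue (OO C)) (Polynomial.X ^ d - 1) =
      (Polynomial.X ^ d - 1 : Polynomial (KK C)) := by simp
  rw [h4] at h3
  rw [← h3, ← hRdef, Multiset.map_map]
  apply Multiset.map_congr rfl
  intro z _
  exact rd_coe z

theorem roots_scale [CharZero C] {d : ℕ} (hd : 1 ≤ d) {q : C} (hq : q ≠ 0) :
    (Polynomial.X ^ d - Polynomial.C (q ^ d) : Polynomial C).roots =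
      (Polynomial.X ^ d - 1 : Polynomial C).roots.map (fun z => q * z) := by
  have hd0 : (d : C) ≠ 0 := by exact_mod_cast (show d ≠ 0 by omega)
  have hn1 : (Polynomial.X ^ d - Polynomial.C (q ^ d) : Polynomial C).roots.Nodup :=
    Polynomial.nodup_roots (Polynomial.separable_X_pow_sub_C _ hd0 (pow_ne_zero _ hq))
  have hn2 : (Polynomial.X ^ d - 1 : Polynomial C).roots.Nodup := by
    have h := Polynomial.separable_X_pow_sub_C (1 : C) hd0 one_ne_zero
    rw [map_one] at h
    exact Polynomial.nodup_roots h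
  rw [Multiset.Nodup.ext hn1 (Multiset.Nodup.map (mul_right_injective₀ hq) hn2)]
  intro x
  have h0 : (Polynomial.X ^ d - Polynomial.C (q ^ d) : Polynomial C) ≠ 0 :=
    (Polynomial.monic_X_pow_sub_C _ (show d ≠ 0 by omega)).ne_zero
  rw [Polynomial.mem_roots h0, Multiset.mem_map]
  constructor
  · intro h
    have h1 : x ^ d = q ^ d := by simpa [Polynomial.IsRoot, sub_eq_zero] using h
    refine ⟨q⁻¹ * x, ?_, mul_inv_cancel_left₀ hq x⟩
    rw [mem_xpow hd, mul_pow, h1, ← mul_pow, inv_mul_cancel₀ hq, one_pow]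
  · rintro ⟨z, hz, rfl⟩
    rw [mem_xpow hd] at hz
    simp [Polynomial.IsRoot, mul_pow, hz]

theorem roots_res [CharZero C] {d : ℕ} (hd : 1 ≤ d) {q : C} (hq : q ≠ 0) :
    ((Polynomial.X ^ d - Polynomial.C (q ^ d) : Polynomial C).roots).map (fun x => rd (x / q)) =
      (Polynomial.X ^ d - 1 : Polynomial (KK C)).roots := by
  rw [roots_scale hd hq, Multiset.map_map, ← roots_red hd]
  apply Multiset.map_congr rfl
  intro z _
  simp only [Function.comp]
  rw [mul_div_cancel_left₀ _ hq]

end COREPaux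

open COREPaux in
theorem COREP_thm (hHALFP : StmtHALFP) (hCOUNT : ASur.StmtCOUNT) (hPATHG : StmtPATHG)
    (hPERMC : StmtPERMC) (hHGI : StmtHGI) : StmtCOREP := by
  classical
  intro p _ a b ha hb hD C _ _ _ _ hp j hj k _ _ _ f hf hS hGd hGs F₁ F₂ hirr hprod hF ψ hψ
    β β' hβ0 hT hββ
  haveI : CharP (KK C) p := charP_KK hp
  haveI : CharP k p := charP_of_injective_algebraMap (algebraMap (ZMod p) k).injective p
  haveI : IsAlgClosed (KK C) := ASur.KAC_thm C
  obtain ⟨ι⟩ := ASur.TEMB_thm ASur.KAC_thm p C hp k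
  set q : C := (Fintype.card k : C) with hq
  have hq0 : q ≠ 0 := by
    rw [hq]
    exact_mod_cast Fintype.card_ne_zero
  have hqpos : 0 < ‖q‖ := norm_pos_iff.2 hq0
  have hψ' : ψ⁻¹ ≠ 1 := inv_ne_one.2 hψ
  have hp2 : 2 ≤ p := (Fact.out : p.Prime).two_le
  obtain ⟨D, hDdef⟩ : ∃ D, D = Nat.lcm a b := ⟨_, rfl⟩
  obtain ⟨g, hgdef⟩ : ∃ g, g = Nat.gcd a b := ⟨_, rfl⟩
  have hDpos : 0 < Nat.lcm a b := Nat.lcm_pos (by omega) (by omega)
  have hg1 : 1 ≤ Nat.gcd a b := Nat.gcd_pos_of_pos_left b (by omega)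
  have hgD : Nat.gcd a b ≤ Nat.lcm a b :=
    Nat.le_of_dvd hDpos ((Nat.gcd_dvd_left a b).trans (Nat.dvd_lcm_left a b))
  have hDp : Nat.lcm a b ≤ p - 1 := Nat.le_of_dvd (by omega) hD
  obtain ⟨h, hh⟩ : ∃ h, h = Module.finrank (ZMod p) k := ⟨_, rfl⟩
  have hcard : Fintype.card k = p ^ h := by
    have := Module.card_eq_pow_finrank (K := ZMod p) (V := k)
    rw [hh]
    rwa [ZMod.card] at this
  have hhpos : 1 ≤ h := by rw [hh]; exact Module.finrank_pos
  have hpq : p ≤ Fintype.card k := by
    rw [hcard]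
    calc p = p ^ 1 := (pow_one p).symm
      _ ≤ p ^ h := Nat.pow_le_pow_right (by omega) hhpos
  -- degrees
  have hG0 : GF a b f ≠ 0 := by
    intro h0
    rw [h0, Polynomial.natDegree_zero] at hGd
    omega
  have hdeg : ∀ P ∈ F₁ + F₂, 1 ≤ P.natDegree ∧ ¬ p ∣ P.natDegree := by
    intro P hP
    have h1 : 0 < P.natDegree := (hirr P hP).natDegree_pos
    have h2 : P.natDegree ≤ Nat.gcd a b := by
      rw [← hGd]
      apply Polynomial.natDegree_le_of_dvd _ hG0
      rw [← hprod]
      exact Multiset.dvd_prod hP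
    refine ⟨h1, fun h3 => ?_⟩
    have := Nat.le_of_dvd h1 h3
    omega
  -- the characteristic polynomial
  obtain ⟨N, hN⟩ : ∃ N, N = Fprod p (Hmat p a b (Nat.lcm a b) (Nat.lcm a b) f) h := ⟨_, rfl⟩
  have hchar : (Polynomial.X - 1) * N.charpoly =
      ((F₁ + F₂).map fun P => (Polynomial.X ^ P.natDegree - 1 : Polynomial k)).prod := by
    rw [hN, hHGI p a b hp2 ha hb hD k f h,
      hPATHG p k (Nat.gcd a b) (GF a b f) hg1 (by omega) hGd.le h, ← hcard]
    exact hPERMC k (Nat.gcd a b) (GF a b f) hg1 (by omega) hGd hGs (F₁ + F₂) hirr hprod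
  have hdet : (Hmat p a b (Nat.lcm a b) (Nat.lcm a b) f).det ≠ 0 := by
    intro h0
    have h1 : N.det = 0 := by
      obtain ⟨n, rfl⟩ : ∃ n, h = n + 1 := ⟨h - 1, by omega⟩
      rw [hN]
      exact det_fprod p _ n h0
    have h2 := congrArg (Polynomial.eval 0) hchar
    rw [Matrix.det_eq_sign_charpoly_coeff] at h1
    have h3 : N.charpoly.coeff 0 = 0 := by
      rcases mul_eq_zero.1 h1 with h4 | h4
      · exact absurd h4 (pow_ne_zero _ (by simp))
      · exact h4
    rw [Polynomial.eval_mul, ← Polynomial.coeff_zero_eq_eval_zero N.charpoly, h3, mul_zero,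
      Polynomial.eval_multiset_prod, Multiset.map_map] at h2
    have h4 := h2.symm
    rw [Multiset.prod_eq_zero_iff, Multiset.mem_map] at h4
    obtain ⟨P, hP, h5⟩ := h4
    have h6 := (hdeg P hP).1
    simp only [Function.comp, Polynomial.eval_sub, Polynomial.eval_pow, Polynomial.eval_X,
      Polynomial.eval_one] at h5
    rw [zero_pow (by omega)] at h5
    simp at h5
  -- the two applications of HALFP
  obtain ⟨A1, A2, A3⟩ := hHALFP p a b ha hb hD C hp j hj k f hf hS hdet ι ψ hψ β
    (fun E _ _ _ _ => (hT E).1)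
  obtain ⟨B1, B2, B3⟩ := hHALFP p a b ha hb hD C hp j hj k f hf hS hdet ι ψ⁻¹ hψ'
    (β.map fun x => q ^ 2 * x⁻¹) (fun E _ _ _ _ => by
      rw [← (hT E).2, Multiset.map_map, ← Multiset.sum_map_mul_left]
      congr 1
      refine Multiset.map_congr rfl fun x _ => ?_
      simp only [Function.comp]
      rw [mul_pow, ← pow_mul, ← pow_mul, mul_comm 2])
  rw [← hq] at A1 A2 A3 B1 B2 B3
  rw [← hh, ← hN] at A3
  have hiff : ∀ x : C, x ≠ 0 → (‖q‖ < ‖q ^ 2 * x⁻¹‖ ↔ ‖x‖ < ‖q‖) := by
    intro x hx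
    have hxpos : 0 < ‖x‖ := norm_pos_iff.2 hx
    rw [norm_mul, norm_pow, norm_inv, ← div_eq_mul_inv, lt_div_iff₀ hxpos, sq]
    exact mul_lt_mul_iff_right₀ hqpos
  have C1 : Multiset.card (β.filter fun x => ‖x‖ < ‖q‖) =
      Fintype.card {u : Fin 2 → Fin (Nat.lcm a b) // ew a b (pt u) < Nat.lcm a b} := by
    rw [← B1, Multiset.filter_map, Multiset.card_map]
    congr 1
    refine Multiset.filter_congr fun x hx => ?_
    simp only [Function.comp]
    exact (hiff x (hβ0 x hx)).symm
  have C2 : Multiset.card β = Multiset.card (β.filter fun x => ‖q‖ < ‖x‖) +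
      Multiset.card (β.filter fun x => ‖x‖ = ‖q‖) +
      Multiset.card (β.filter fun x => ‖x‖ < ‖q‖) := by
    rw [← Multiset.card_add, ← Multiset.card_add]
    congr 1
    ext x
    rw [Multiset.count_add, Multiset.count_add, Multiset.count_filter, Multiset.count_filter,
      Multiset.count_filter]
    rcases lt_trichotomy ‖x‖ ‖q‖ with h | h | h
    · rw [if_neg (by linarith), if_neg (by linarith), if_pos h]; omega
    · rw [if_neg (by linarith), if_pos h, if_neg (by linarith)]; omega
    · rw [if_pos h, if_neg h.ne', if_neg (by linarith)]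
      omega
  have C3 : Multiset.card (β.filter fun x => ‖x‖ = ‖q‖) =
      Fintype.card (Um a b (Nat.lcm a b) (Nat.lcm a b)) := by
    rw [← Multiset.card_map (fun x => rd (x / q)), A3, IsAlgClosed.card_roots_eq_natDegree,
      Matrix.charpoly_natDegree_eq_dim]
  refine ⟨?_, ?_⟩
  · rw [C2, A1, C3, C1, ← hCOUNT a b ha hb]
    ring
  -- the roots with residues
  obtain ⟨β'', hβ''⟩ : ∃ β'' : Multiset C, β'' = (F₂.map fun P =>
    (Polynomial.X ^ P.natDegree - Polynomial.C (q ^ P.natDegree) : Polynomial C).roots).sum :=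
      ⟨_, rfl⟩
  rw [← hβ''] at hββ
  have hd2 : ∀ P ∈ F₂, 1 ≤ P.natDegree := fun P hP =>
    (hdeg P (Multiset.mem_add.2 (Or.inr hP))).1
  have hnorm : ∀ x ∈ β'', ‖x‖ = ‖q‖ := by
    intro x hx
    rw [hβ''] at hx
    have : ∀ F : Multiset (Polynomial k), (∀ P ∈ F, 1 ≤ P.natDegree) → x ∈ (F.map fun P =>
        (Polynomial.X ^ P.natDegree - Polynomial.C (q ^ P.natDegree) :
          Polynomial C).roots).sum → ‖x‖ = ‖q‖ := by
      intro F
      induction F using Multiset.induction_on with
      | empty => intro _ h; simp at h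
      | cons P s ih =>
        intro hs h
        rw [Multiset.map_cons, Multiset.sum_cons, Multiset.mem_add] at h
        rcases h with h | h
        · have hP1 := hs P (Multiset.mem_cons_self P s)
          have h0 : (Polynomial.X ^ P.natDegree - Polynomial.C (q ^ P.natDegree) :
              Polynomial C) ≠ 0 :=
            (Polynomial.monic_X_pow_sub_C _ (show P.natDegree ≠ 0 by omega)).ne_zero
          rw [Polynomial.mem_roots h0] at h
          have h1 : x ^ P.natDegree = q ^ P.natDegree := by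
            simpa [Polynomial.IsRoot, sub_eq_zero] using h
          have h2 : ‖x‖ ^ P.natDegree = ‖q‖ ^ P.natDegree := by
            rw [← norm_pow, h1, norm_pow]
          exact (pow_left_inj₀ (norm_nonneg x) (norm_nonneg q) (by omega)).1 h2
        · exact ih (fun P hP => hs P (Multiset.mem_cons_of_mem hP)) h
    exact this F₂ hd2 hx
  have hmap'' : β''.map (fun x => rd (x / q)) =
      (F₂.map fun P => (Polynomial.X ^ P.natDegree - 1 : Polynomial (KK C)).roots).sum := by
    rw [hβ'', map_sum_roots]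
    congr 1
    apply Multiset.map_congr rfl
    intro P hP
    exact roots_res (hd2 P hP) hq0
  obtain ⟨B', hB'⟩ : ∃ B' : Multiset (KK C),
      B' = (β'.filter fun x => ‖x‖ = ‖q‖).map (fun x => rd (x / q)) := ⟨_, rfl⟩
  have hsum : B' + (F₂.map fun P =>
      (Polynomial.X ^ P.natDegree - 1 : Polynomial (KK C)).roots).sum =
        ((N.map ι).charpoly).roots := by
    rw [← A3, hββ, Multiset.filter_add, Multiset.map_add, ← hB', Multiset.filter_eq_self.2 hnorm,
      hmap'']
  have hroots : 1 ::ₘ ((N.map ι).charpoly).roots =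
      (F₁.map fun P => (Polynomial.X ^ P.natDegree - 1 : Polynomial (KK C)).roots).sum +
      (F₂.map fun P => (Polynomial.X ^ P.natDegree - 1 : Polynomial (KK C)).roots).sum := by
    have h1 := congrArg (Polynomial.map ι) hchar
    rw [Polynomial.map_mul, Polynomial.map_sub, Polynomial.map_X, Polynomial.map_one,
      Polynomial.map_multiset_prod, Multiset.map_map, ← Matrix.charpoly_map] at h1
    have h2 : (F₁ + F₂).map ((Polynomial.map ι) ∘
        fun P => (Polynomial.X ^ P.natDegree - 1 : Polynomial k)) =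
        (F₁ + F₂).map fun P => (Polynomial.X ^ P.natDegree - 1 : Polynomial (KK C)) := by
      apply Multiset.map_congr rfl
      intro P _
      simp
    rw [h2] at h1
    have h3 := congrArg Polynomial.roots h1
    have h4 : (Polynomial.X - 1 : Polynomial (KK C)) * (N.map ι).charpoly ≠ 0 := by
      apply mul_ne_zero
      · have := Polynomial.X_sub_C_ne_zero (1 : KK C)
        rwa [map_one] at this
      · exact (Matrix.charpoly_monic _).ne_zero
    rw [Polynomial.roots_mul h4, roots_prod (F₁ + F₂) (fun P => P.natDegree)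
      (fun P hP => (hdeg P hP).1), Multiset.map_add, Multiset.sum_add] at h3
    have h5 : (Polynomial.X - 1 : Polynomial (KK C)).roots = {1} := by
      have := Polynomial.roots_X_sub_C (1 : KK C)
      rwa [map_one] at this
    rw [h5] at h3
    rw [← h3, Multiset.singleton_add]
  have hB'n : B'.Nodup := by
    refine nodup_res p B' F₁ (fun P => P.natDegree)
      (fun P hP => hdeg P (Multiset.mem_add.2 (Or.inl hP))) ?_ hF
    rw [← hsum, ← Multiset.cons_add] at hroots
    exact add_right_cancel hroots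
  rw [Multiset.nodup_iff_count_le_one]
  intro x
  have hle : β'.count x ≤ β.count x := by
    rw [hββ, Multiset.count_add]
    omega
  rcases lt_trichotomy ‖x‖ ‖q‖ with hx | hx | hx
  · by_cases hx0 : x = 0
    · have : β.count x = 0 := by
        rw [Multiset.count_eq_zero_of_notMem]
        intro h
        exact hβ0 x h hx0
      omega
    · have h1 := Multiset.nodup_iff_count_le_one.1 B2 (q ^ 2 * x⁻¹)
      rw [Multiset.count_filter, if_pos ((hiff x hx0).2 hx)] at h1
      refine hle.trans (le_trans ?_ h1)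
      rw [Multiset.count_map, Multiset.count_eq_card_filter_eq]
      refine Multiset.card_le_card (Multiset.monotone_filter_right β ?_)
      rintro y rfl
      rfl
  · have h1 := Multiset.nodup_iff_count_le_one.1 hB'n (rd (x / q))
    refine le_trans ?_ h1
    rw [hB', Multiset.count_map, Multiset.filter_filter, Multiset.count_eq_card_filter_eq]
    refine Multiset.card_le_card (Multiset.monotone_filter_right β' ?_)
    rintro y rfl
    exact ⟨rfl, hx⟩
  · have h1 := Multiset.nodup_iff_count_le_one.1 A2 x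
    rw [Multiset.count_filter, if_pos hx] at h1
    omega

end ASP
end

section
/-!
# MP_b685ef_ag, theorem AS+, module CUBA: semi-invariance of the coefficient of `(xy)^{p-1}`
-/
set_option linter.all false

namespace ASP

open Finset ASur

namespace CUBAaux

variable {K : Type} [Field K]

/-- The coefficients of `(aX + b)^n`. -/
theorem coeff_lin_pow (a b : K) (n r : ℕ) :
    ((Polynomial.C a * Polynomial.X + Polynomial.C b) ^ n).coeff r =
      (n.choose r : K) * a ^ r * b ^ (n - r) := by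
  rw [add_pow, Polynomial.finset_sum_coeff]
  have h : ∀ m ∈ range (n + 1), ((Polynomial.C a * Polynomial.X) ^ m * Polynomial.C b ^ (n - m) *
      (n.choose m : Polynomial K)).coeff r =
      if m = r then (n.choose r : K) * a ^ r * b ^ (n - r) else 0 := by
    intro m hm
    have e : (Polynomial.C a * Polynomial.X) ^ m * Polynomial.C b ^ (n - m) *
        (n.choose m : Polynomial K) =
        Polynomial.C ((n.choose m : K) * a ^ m * b ^ (n - m)) * Polynomial.X ^ m := by
      rw [mul_pow, ← Polynomial.C_pow, ← Polynomial.C_pow, Polynomial.C_mul, Polynomial.C_mul]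
      rw [← Polynomial.C_eq_natCast]
      push_cast
      ring
    rw [e, Polynomial.coeff_C_mul, Polynomial.coeff_X_pow]
    split_ifs with h1 h2 h2
    · rw [h2, mul_one]
    · exact absurd h1.symm h2
    · exact absurd h2.symm h1
    · rw [mul_zero]
  rw [Finset.sum_congr rfl h, Finset.sum_ite_eq']
  split_ifs with h1
  · rfl
  · rw [Finset.mem_range, not_lt] at h1
    rw [Nat.choose_eq_zero_of_lt (by omega)]
    simp

/-- The case `i ≥ p`. -/
theorem coeff_big (p : ℕ) [Fact p.Prime] [CharP K p] (a b c d : K) (i j : ℕ)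
    (hij : i + j = 2 * (p - 1)) (hi : p ≤ i) :
    ((Polynomial.C a * Polynomial.X + Polynomial.C b) ^ i *
      (Polynomial.C c * Polynomial.X + Polynomial.C d) ^ j).coeff (p - 1) = 0 := by
  have hp2 : 2 ≤ p := (Fact.out : p.Prime).two_le
  haveI : ExpChar K p := ExpChar.prime (Fact.out : p.Prime)
  obtain ⟨t, rfl⟩ := Nat.exists_eq_add_of_le hi
  have h1 : (Polynomial.C a * Polynomial.X + Polynomial.C b : Polynomial K) ^ p =
      Polynomial.C (a ^ p) * Polynomial.X ^ p + Polynomial.C (b ^ p) := by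
    rw [add_pow_expChar, mul_pow, ← Polynomial.C_pow, ← Polynomial.C_pow]
  rw [pow_add, h1]
  set R : Polynomial K := (Polynomial.C a * Polynomial.X + Polynomial.C b) ^ t *
    (Polynomial.C c * Polynomial.X + Polynomial.C d) ^ j with hR
  have h2 : (Polynomial.C (a ^ p) * Polynomial.X ^ p + Polynomial.C (b ^ p)) *
      (Polynomial.C a * Polynomial.X + Polynomial.C b) ^ t *
      (Polynomial.C c * Polynomial.X + Polynomial.C d) ^ j =
      Polynomial.C (a ^ p) * (R * Polynomial.X ^ p) + Polynomial.C (b ^ p) * R := by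
    rw [hR]; ring
  rw [h2, Polynomial.coeff_add, Polynomial.coeff_C_mul, Polynomial.coeff_C_mul,
    Polynomial.coeff_mul_X_pow', if_neg (by omega), mul_zero, zero_add]
  have hdeg : R.natDegree < p - 1 := by
    have hl : ∀ x y : K, ∀ n : ℕ, ((Polynomial.C x * Polynomial.X + Polynomial.C y) ^ n).natDegree
        ≤ n := by
      intro x y n
      have := Polynomial.natDegree_pow_le_of_le n
        (Polynomial.natDegree_linear_le (a := x) (b := y))
      simpa using this
    calc R.natDegree ≤ t + j := (Polynomial.natDegree_mul_le).trans (add_le_add (hl _ _ _) (hl _ _ _))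
      _ < p - 1 := by omega
  rw [Polynomial.coeff_eq_zero_of_natDegree_lt hdeg, mul_zero]

/-- The square of `binom(p-1, r)` is `1`. -/
theorem choose_sq (p : ℕ) [hp : Fact p.Prime] [CharP K p] (r : ℕ) (hr : r ≤ p - 1) :
    ((p - 1).choose r : K) * ((p - 1).choose (p - 1 - r) : K) = 1 := by
  rw [Nat.choose_symm hr]
  have key : ∀ r, r ≤ p - 1 → ((p - 1).choose r : K) = (-1) ^ r := by
    intro r
    induction r with
    | zero => intro _; simp
    | succ r ih =>
      intro hr
      have h1 : (p.choose (r + 1) : K) = 0 := by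
        have : p ∣ p.choose (r + 1) :=
          hp.out.dvd_choose_self (by omega) (by have := hp.out.two_le; omega)
        exact (CharP.cast_eq_zero_iff K p _).2 this
      have h2 : p = p - 1 + 1 := by have := hp.out.two_le; omega
      rw [h2, Nat.choose_succ_succ] at h1
      push_cast at h1
      rw [ih (by omega)] at h1
      rw [pow_succ]
      linear_combination h1
  rw [key r hr, ← pow_add, ← two_mul, pow_mul]
  simp

/-- The case `i = p - 1`. -/
theorem coeff_mid (p : ℕ) [hp : Fact p.Prime] [CharP K p] (a b c d : K) :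
    ((Polynomial.C a * Polynomial.X + Polynomial.C b) ^ (p - 1) *
      (Polynomial.C c * Polynomial.X + Polynomial.C d) ^ (p - 1)).coeff (p - 1) =
      (a * d - b * c) ^ (p - 1) := by
  have hp2 : 2 ≤ p := hp.out.two_le
  haveI : ExpChar K p := ExpChar.prime hp.out
  have h1 : ((Polynomial.C a * Polynomial.X + Polynomial.C b) ^ (p - 1) *
      (Polynomial.C c * Polynomial.X + Polynomial.C d) ^ (p - 1)).coeff (p - 1) =
      ∑ r ∈ range p, (a * d) ^ r * (b * c) ^ (p - 1 - r) := by
    rw [Polynomial.coeff_mul, Finset.Nat.sum_antidiagonal_eq_sum_range_succ_mk]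
    have hpp : (p - 1).succ = p := by omega
    rw [hpp]
    apply Finset.sum_congr rfl
    intro r hr
    have hr' : r ≤ p - 1 := by
      have := Finset.mem_range.1 hr; omega
    simp only
    rw [coeff_lin_pow, coeff_lin_pow]
    have h2 : p - 1 - (p - 1 - r) = r := by omega
    rw [h2]
    have h3 := choose_sq (K := K) p r hr'
    calc ((p - 1).choose r : K) * a ^ r * b ^ (p - 1 - r) *
        (((p - 1).choose (p - 1 - r) : K) * c ^ (p - 1 - r) * d ^ r) =
        (((p - 1).choose r : K) * ((p - 1).choose (p - 1 - r) : K)) *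
          ((a * d) ^ r * (b * c) ^ (p - 1 - r)) := by
          rw [mul_pow, mul_pow]; ring
      _ = _ := by rw [h3, one_mul]
  rw [h1]
  by_cases hd : a * d - b * c = 0
  · rw [hd, zero_pow (by omega)]
    have h2 : a * d = b * c := sub_eq_zero.1 hd
    rw [h2]
    have h3 : ∀ r ∈ range p, (b * c) ^ r * (b * c) ^ (p - 1 - r) = (b * c) ^ (p - 1) := by
      intro r hr
      have := Finset.mem_range.1 hr
      rw [← pow_add]
      congr 1
      omega
    rw [Finset.sum_congr rfl h3, Finset.sum_const, Finset.card_range, nsmul_eq_mul,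
      CharP.cast_eq_zero, zero_mul]
  · apply mul_right_cancel₀ hd
    rw [(Commute.all (a * d) (b * c)).geom_sum₂_mul p, ← pow_succ]
    have hpp : p - 1 + 1 = p := by omega
    rw [hpp, sub_pow_expChar]

/-- All cases. -/
theorem coeff_all (p : ℕ) [hp : Fact p.Prime] [CharP K p] (a b c d : K) (i j : ℕ)
    (hij : i + j = 2 * (p - 1)) :
    ((Polynomial.C a * Polynomial.X + Polynomial.C b) ^ i *
      (Polynomial.C c * Polynomial.X + Polynomial.C d) ^ j).coeff (p - 1) =
      if i = p - 1 then (a * d - b * c) ^ (p - 1) else 0 := by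
  split_ifs with h
  · have hj : j = p - 1 := by omega
    rw [h, hj, coeff_mid]
  · rcases Nat.lt_or_ge i p with h1 | h1
    · rw [mul_comm]
      exact coeff_big p c d a b j i (by omega) (by omega)
    · exact coeff_big p a b c d i j hij h1

end CUBAaux

open CUBAaux in
theorem CUBA_thm : StmtCUBA := by
  intro p hp K _ _ F hF a b c d
  have hp2 : 2 ≤ p := hp.out.two_le
  set L : Fin 2 → MvPolynomial (Fin 2) K := ![MvPolynomial.C a * MvPolynomial.X 0 +
    MvPolynomial.C b * MvPolynomial.X 1, MvPolynomial.C c * MvPolynomial.X 0 +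
    MvPolynomial.C d * MvPolynomial.X 1] with hL
  have hLh : ∀ i, (L i).IsHomogeneous 1 := by
    have h1 : ∀ (x : K) (i : Fin 2),
        (MvPolynomial.C x * MvPolynomial.X i : MvPolynomial (Fin 2) K).IsHomogeneous 1 := by
      intro x i
      have := (MvPolynomial.isHomogeneous_C (Fin 2) x).mul (MvPolynomial.isHomogeneous_X K i)
      rwa [zero_add] at this
    intro i
    fin_cases i
    · exact (h1 a 0).add (h1 b 1)
    · exact (h1 c 0).add (h1 d 1)
  have hG : (MvPolynomial.aeval L F).IsHomogeneous (2 * (p - 1)) := by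
    have := hF.aeval L hLh
    simpa using this
  -- dehomogenize
  have hde : ∀ G : MvPolynomial (Fin 2) K, G.IsHomogeneous (2 * (p - 1)) →
      cf G ![p - 1, p - 1] =
        (MvPolynomial.aeval ![(Polynomial.X : Polynomial K), 1] G).coeff (p - 1) := by
    intro G hG
    have h1 := Polynomial.homogenize_eq_of_isHomogeneous (p :=
      MvPolynomial.aeval ![(Polynomial.X : Polynomial K), 1] G) hG rfl
    have h2 : cf G ![p - 1, p - 1] = cf ((MvPolynomial.aeval ![(Polynomial.X : Polynomial K), 1]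
        G).homogenize (2 * (p - 1))) ![p - 1, p - 1] := by rw [h1]
    rw [h2, cf, Polynomial.coeff_homogenize]
    have h3 : p - 1 + (p - 1) = 2 * (p - 1) := by omega
    simp [h3]
  rw [hde _ hG]
  have hcomp : MvPolynomial.aeval ![(Polynomial.X : Polynomial K), 1] (MvPolynomial.aeval L F) =
      MvPolynomial.aeval ![Polynomial.C a * Polynomial.X + Polynomial.C b,
        Polynomial.C c * Polynomial.X + Polynomial.C d] F := by
    rw [← AlgHom.comp_apply]
    congr 1
    apply MvPolynomial.algHom_ext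
    intro i
    rw [AlgHom.comp_apply, MvPolynomial.aeval_X, MvPolynomial.aeval_X]
    fin_cases i
    · simp [hL, MvPolynomial.algebraMap_eq]
    · simp [hL, MvPolynomial.algebraMap_eq]
  rw [hcomp]
  have hsum : MvPolynomial.aeval ![Polynomial.C a * Polynomial.X + Polynomial.C b,
      Polynomial.C c * Polynomial.X + Polynomial.C d] F =
      ∑ m ∈ F.support, Polynomial.C (F.coeff m) *
        ((Polynomial.C a * Polynomial.X + Polynomial.C b) ^ (m 0) *
          (Polynomial.C c * Polynomial.X + Polynomial.C d) ^ (m 1)) := by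
    conv_lhs => rw [F.as_sum, map_sum]
    apply Finset.sum_congr rfl
    intro m _
    rw [MvPolynomial.aeval_monomial, Finsupp.prod_fintype _ _ (by intro i; simp),
      Fin.prod_univ_two]
    simp
  rw [hsum, Polynomial.finset_sum_coeff]
  have hterm : ∀ m ∈ F.support, (Polynomial.C (F.coeff m) *
        ((Polynomial.C a * Polynomial.X + Polynomial.C b) ^ (m 0) *
          (Polynomial.C c * Polynomial.X + Polynomial.C d) ^ (m 1))).coeff (p - 1) =
      if m = Finsupp.equivFunOnFinite.symm ![p - 1, p - 1] then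
        F.coeff m * (a * d - b * c) ^ (p - 1) else 0 := by
    intro m hm
    have hdeg := hF (MvPolynomial.mem_support_iff.1 hm)
    rw [Finsupp.weight_eq_sum, Fin.sum_univ_two] at hdeg
    simp at hdeg
    rw [Polynomial.coeff_C_mul, coeff_all p a b c d _ _ hdeg]
    have hiff : m = Finsupp.equivFunOnFinite.symm ![p - 1, p - 1] ↔ m 0 = p - 1 := by
      constructor
      · intro h
        rw [h]; simp
      · intro h
        ext i
        fin_cases i
        · simpa using h
        · simp; omega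
    by_cases h : m 0 = p - 1
    · rw [if_pos h, if_pos (hiff.2 h)]
    · rw [if_neg h, if_neg (fun h' => h (hiff.1 h')), mul_zero]
  rw [Finset.sum_congr rfl hterm, Finset.sum_ite_eq']
  split_ifs with h
  · rw [cf]; ring
  · rw [MvPolynomial.notMem_support_iff] at h
    rw [cf, h, mul_zero]

end ASP
end

section
/-!
# ASP, module CUBH: `H_2 ≠ 0` for squarefree cubics
-/
set_option linter.all false

namespace ASP

open Finset ASur

namespace CUBHM

/-- A squarefree cubic in characteristic `p > 3` is separable. -/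
theorem sep {k : Type} [Field k] (p : ℕ) [hp : Fact p.Prime] [CharP k p] (h3 : 3 < p)
    (G : Polynomial k) (hd : G.natDegree = 3) (hs : Squarefree G) : G.Separable := by
  have hG0 : G ≠ 0 := by
    rintro rfl
    simp at hd
  rw [Polynomial.separable_def]
  refine isCoprime_of_irreducible_dvd (fun h => hG0 h.1) ?_
  rintro P hP ⟨H, rfl⟩ h2
  rw [Polynomial.derivative_mul] at h2
  have h4 : P ∣ Polynomial.derivative P * H := (dvd_add_left (dvd_mul_right P _)).1 h2
  rcases hP.prime.dvd_or_dvd h4 with h5 | h5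
  · have hPd : P.natDegree ≤ 3 := by
      rw [← hd]
      exact Polynomial.natDegree_le_of_dvd (dvd_mul_right P H) hG0
    have hP1 : 1 ≤ P.natDegree :=
      Polynomial.natDegree_pos_iff_degree_pos.2 (Polynomial.degree_pos_of_irreducible hP)
    have hder : Polynomial.derivative P ≠ 0 := by
      intro h0
      have h6 : (Polynomial.derivative P).coeff (P.natDegree - 1) = 0 := by rw [h0]; simp
      rw [Polynomial.coeff_derivative] at h6
      have h7 : P.natDegree - 1 + 1 = P.natDegree := by omega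
      rw [h7] at h6
      rcases mul_eq_zero.1 h6 with h8 | h8
      · exact hP.ne_zero (Polynomial.leadingCoeff_eq_zero.1 h8)
      · have h9 : ((P.natDegree : ℕ) : k) = 0 := by
          have : ((P.natDegree - 1 : ℕ) : k) + 1 = ((P.natDegree : ℕ) : k) := by
            rw [← Nat.cast_succ]
            congr 1
          rw [← this]
          exact h8
        rw [CharP.cast_eq_zero_iff k p] at h9
        have := Nat.le_of_dvd hP1 h9
        omega
    have h10 := Polynomial.natDegree_le_of_dvd h5 hder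
    have h11 := Polynomial.natDegree_derivative_lt (p := P) (by omega)
    omega
  · obtain ⟨H', rfl⟩ := h5
    have : P * P ∣ P * (P * H') := ⟨H', by ring⟩
    exact hP.not_isUnit (hs P this)

/-- The coefficient of `(XY)^(3q)` in `(XY(X+Y))^(2q)`. -/
theorem cf_core {K : Type} [Field K] (q : ℕ) :
    cf (((MvPolynomial.X 0 * MvPolynomial.X 1 * (MvPolynomial.X 0 + MvPolynomial.X 1)) ^ (q * 2) :
      MvPolynomial (Fin 2) K)) ![3 * q, 3 * q] = ((q * 2).choose q : K) := by
  have h1 : ((MvPolynomial.X 0 * MvPolynomial.X 1 * (MvPolynomial.X 0 + MvPolynomial.X 1)) ^ (q * 2) :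
      MvPolynomial (Fin 2) K) = ∑ j ∈ range (q * 2 + 1),
        MvPolynomial.monomial (Finsupp.equivFunOnFinite.symm ![q * 2 + j, q * 2 + (q * 2 - j)])
          (((q * 2).choose j : ℕ) : K) := by
    rw [mul_pow, add_pow, Finset.mul_sum]
    refine Finset.sum_congr rfl fun j hj => ?_
    rw [MvPolynomial.monomial_eq, Finsupp.prod_fintype _ _ (by simp)]
    simp only [Fin.prod_univ_two, Finsupp.coe_equivFunOnFinite_symm, Matrix.cons_val_zero,
      Matrix.cons_val_one]
    rw [map_natCast]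
    ring
  rw [h1, cf, MvPolynomial.coeff_sum, Finset.sum_eq_single q]
  · rw [MvPolynomial.coeff_monomial, if_pos]
    have h2 : q * 2 + q = 3 * q := by ring
    have h3 : q * 2 + (q * 2 - q) = 3 * q := by omega
    rw [h2, h3]
  · intro j hj hjq
    rw [MvPolynomial.coeff_monomial, if_neg]
    intro h
    have h2 := congrArg (fun w => w 0) (Finsupp.equivFunOnFinite.symm.injective h)
    simp at h2
    omega
  · intro h
    simp at h
    omega

theorem cf_map {R S : Type} [CommSemiring R] [CommSemiring S] (φ : R →+* S)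
    (F : MvPolynomial (Fin 2) R) (w : Fin 2 → ℕ) :
    cf (MvPolynomial.map φ F) w = φ (cf F w) := by
  rw [cf, cf, MvPolynomial.coeff_map]

theorem cf_C_mul {R : Type} [CommSemiring R] (c : R)
    (F : MvPolynomial (Fin 2) R) (w : Fin 2 → ℕ) :
    cf (MvPolynomial.C c * F) w = c * cf F w := by
  rw [cf, cf, MvPolynomial.coeff_C_mul]

/-- `lead` as a binary cubic form. -/
theorem lead_eq {k : Type} [Field k] (f : MvPolynomial (Fin 2) k) :
    lead 3 3 f = ∑ i ∈ range 4, MvPolynomial.C (cf f ![i, 3 - i]) *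
      MvPolynomial.X 0 ^ i * MvPolynomial.X 1 ^ (3 - i) := by
  have h1 : ∀ i : ℕ, (MvPolynomial.C (cf f ![i, 3 - i]) *
      MvPolynomial.X 0 ^ i * MvPolynomial.X 1 ^ (3 - i) : MvPolynomial (Fin 2) k) =
      MvPolynomial.monomial (Finsupp.equivFunOnFinite.symm ![i, 3 - i]) (cf f ![i, 3 - i]) := by
    intro i
    rw [MvPolynomial.monomial_eq, Finsupp.prod_fintype _ _ (by simp)]
    simp only [Fin.prod_univ_two, Finsupp.coe_equivFunOnFinite_symm, Matrix.cons_val_zero,
      Matrix.cons_val_one]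
    ring
  classical
  rw [lead, Finset.sum_congr rfl fun i _ => h1 i]
  ext d
  rw [MvPolynomial.coeff_weightedHomogeneousComponent, MvPolynomial.coeff_sum]
  have hl : Nat.lcm 3 3 / 3 = 1 := by decide
  have hl' : Nat.lcm 3 3 = 3 := by decide
  have hw : Finsupp.weight ![Nat.lcm 3 3 / 3, Nat.lcm 3 3 / 3] d = d 0 + d 1 := by
    rw [hl, Finsupp.weight_apply, Finsupp.sum_fintype _ _ (by simp)]
    simp [Fin.sum_univ_two]
  rw [hw, hl']
  have hd : d = Finsupp.equivFunOnFinite.symm ![d 0, d 1] := by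
    ext s
    fin_cases s <;> simp
  split_ifs with h
  · rw [Finset.sum_eq_single (d 0)]
    · have h2 : 3 - d 0 = d 1 := by omega
      rw [MvPolynomial.coeff_monomial, h2, if_pos hd.symm, cf, ← hd]
    · intro j hj hjd
      rw [MvPolynomial.coeff_monomial, if_neg]
      intro h3
      apply hjd
      rw [← h3]
      simp
    · intro h3
      simp at h3
      omega
  · rw [Finset.sum_eq_zero]
    intro j hj
    rw [MvPolynomial.coeff_monomial, if_neg]
    intro h3
    apply h
    rw [← h3]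
    simp at hj
    simp
    omega

theorem GF_eq {k : Type} [Field k] (f : MvPolynomial (Fin 2) k) :
    GF 3 3 f = (Cubic.mk (cf f ![3, 0]) (cf f ![2, 1]) (cf f ![1, 2]) (cf f ![0, 3])).toPoly := by
  have h1 : Nat.gcd 3 3 = 3 := by decide
  have h2 : 3 / 3 = 1 := by decide
  rw [GF, h1]
  simp only [h2, Finset.sum_range_succ, Finset.sum_range_zero, Cubic.toPoly, one_mul,
    ← Polynomial.C_mul_X_pow_eq_monomial]
  simp
  ring

theorem coeff_ne {K : Type} [Field K] (p : ℕ) [hp : Fact p.Prime] [CharP K p]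
    (hA : StmtCUBA) (q : ℕ) (hq : p - 1 = 3 * q) (F : MvPolynomial (Fin 2) K) (c x y z : K)
    (hc : c ≠ 0) (hxy : x ≠ y) (hxz : x ≠ z) (hyz : y ≠ z)
    (hF : F = MvPolynomial.C c * (MvPolynomial.X 0 - MvPolynomial.C x * MvPolynomial.X 1) *
      (MvPolynomial.X 0 - MvPolynomial.C y * MvPolynomial.X 1) *
      (MvPolynomial.X 0 - MvPolynomial.C z * MvPolynomial.X 1)) :
    cf (F ^ (q * 2)) ![p - 1, p - 1] ≠ 0 := by
  have hp2 := hp.out.two_le
  have hxy' : x - y ≠ 0 := sub_ne_zero.2 hxy
  set α : K := (z - y) / (x - y) with hα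
  set β : K := (x - z) / (x - y) with hβ
  have hα0 : α ≠ 0 := div_ne_zero (sub_ne_zero.2 hyz.symm) hxy'
  have hβ0 : β ≠ 0 := div_ne_zero (sub_ne_zero.2 hxz) hxy'
  have h1 : α + β = 1 := by
    rw [hα, hβ]
    field_simp
    ring
  have h2 : α * x + β * y = z := by
    rw [hα, hβ]
    field_simp
    ring
  set E : MvPolynomial (Fin 2) K :=
    MvPolynomial.X 0 * MvPolynomial.X 1 * (MvPolynomial.X 0 + MvPolynomial.X 1) with hE
  have hEh : (E ^ (q * 2)).IsHomogeneous (2 * (p - 1)) := by
    have h3 : E.IsHomogeneous 3 := by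
      rw [hE]
      exact ((MvPolynomial.isHomogeneous_X K 0).mul (MvPolynomial.isHomogeneous_X K 1)).mul
        ((MvPolynomial.isHomogeneous_X K 0).add (MvPolynomial.isHomogeneous_X K 1))
    have h4 := h3.pow (q * 2)
    have h5 : 3 * (q * 2) = 2 * (p - 1) := by rw [hq]; ring
    rwa [h5] at h4
  have hcub := hA p K (E ^ (q * 2)) hEh α (-(α * x)) β (-(β * y))
  have hsub : F ^ (q * 2) = MvPolynomial.C ((c / (α * β)) ^ (q * 2)) *
      MvPolynomial.aeval ![MvPolynomial.C α * MvPolynomial.X 0 + MvPolynomial.C (-(α * x)) *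
        MvPolynomial.X 1, MvPolynomial.C β * MvPolynomial.X 0 + MvPolynomial.C (-(β * y)) *
        MvPolynomial.X 1] (E ^ (q * 2)) := by
    rw [map_pow, map_pow, ← mul_pow]
    congr 1
    rw [hE, map_mul, map_mul, map_add]
    simp only [MvPolynomial.aeval_X, Matrix.cons_val_zero, Matrix.cons_val_one]
    have h3 : c = c / (α * β) * (α * β) := by field_simp
    have hz : (MvPolynomial.C z : MvPolynomial (Fin 2) K) =
        MvPolynomial.C α * MvPolynomial.C x + MvPolynomial.C β * MvPolynomial.C y := by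
      rw [← MvPolynomial.C_mul, ← MvPolynomial.C_mul, ← MvPolynomial.C_add, h2]
    have h1' : (1 : MvPolynomial (Fin 2) K) = MvPolynomial.C α + MvPolynomial.C β := by
      rw [← MvPolynomial.C_add, h1, MvPolynomial.C_1]
    have hcC : (MvPolynomial.C c : MvPolynomial (Fin 2) K) =
        MvPolynomial.C (c / (α * β)) * (MvPolynomial.C α * MvPolynomial.C β) := by
      rw [← MvPolynomial.C_mul, ← MvPolynomial.C_mul, ← h3]
    have h4 : (MvPolynomial.X 0 - MvPolynomial.C z * MvPolynomial.X 1 : MvPolynomial (Fin 2) K) =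
        (MvPolynomial.C α + MvPolynomial.C β) * MvPolynomial.X 0 -
          MvPolynomial.C z * MvPolynomial.X 1 := by rw [← h1', one_mul]
    rw [hF, h4, hz, hcC]
    simp only [MvPolynomial.C_neg, MvPolynomial.C_mul]
    ring
  rw [hsub, cf_C_mul, hcub, hE, hq, cf_core]
  have hdet : α * -(β * y) - -(α * x) * β = α * β * (x - y) := by ring
  rw [hdet]
  refine mul_ne_zero (pow_ne_zero _ (div_ne_zero hc (mul_ne_zero hα0 hβ0)))
    (mul_ne_zero (pow_ne_zero _ (mul_ne_zero (mul_ne_zero hα0 hβ0) hxy')) ?_)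
  intro h0
  rw [CharP.cast_eq_zero_iff K p] at h0
  have h5 : p ∣ (q * 2).factorial := by
    have h6 := Nat.choose_mul_factorial_mul_factorial (n := q * 2) (k := q) (by omega)
    rw [← h6, mul_assoc]
    exact Dvd.dvd.mul_right h0 _
  rw [hp.out.dvd_factorial] at h5
  omega

end CUBHM

theorem cubh_thm (hA : StmtCUBA) : StmtCUBH := by
  intro p hp h3 k _ _ f hd hs m hm1 hm3
  haveI : CharP k p := charP_of_injective_algebraMap (algebraMap (ZMod p) k).injective p
  have hp2 := hp.out.two_le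
  obtain ⟨q, hq⟩ := h3
  have hl' : Nat.lcm 3 3 = 3 := by decide
  have hl1 : Nat.lcm 3 3 / 3 = 1 := by decide
  have hew : ∀ w : Fin 2 → ℕ, ew 3 3 w = w 0 + w 1 := by
    intro w
    rw [ew, hl1]
    ring
  obtain rfl | rfl : m = 1 ∨ m = 2 := by omega
  · haveI : IsEmpty (Um 3 3 3 1) := ⟨fun u => by
      have h := u.2
      rw [hew] at h
      simp only [pt] at h
      omega⟩
    rw [Matrix.det_isEmpty]
    exact one_ne_zero
  · have hu : ∀ u : Um 3 3 3 2, u.1 = fun _ => 0 := by
      intro u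
      have h := u.2
      rw [hew] at h
      simp only [pt] at h
      funext s
      apply Fin.ext
      fin_cases s
      · simp
        omega
      · simp
        omega
    haveI : Unique (Um 3 3 3 2) :=
      { default := ⟨fun _ => 0, by rw [hew]; simp [pt]⟩
        uniq := fun u => Subtype.ext (hu u) }
    rw [Matrix.det_unique]
    have hent : Hmat p 3 3 3 2 f default default =
        cf (lead 3 3 f ^ (q * 2)) ![p - 1, p - 1] := by
      rw [Hmat, Matrix.of_apply, hl']
      have h4 : (p - 1) / 3 = q := by omega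
      rw [h4]
      congr 1
      funext s
      have h5 : (default : Um 3 3 3 2).1 s = 0 := congrFun (hu default) s
      simp only [pt, h5]
      fin_cases s <;> simp
    rw [hent]
    have h3p : 3 < p := by
      have := hp.out
      rcases Nat.lt_or_ge 3 p with h | h
      · exact h
      · interval_cases p <;> omega
    set P : Cubic k := Cubic.mk (cf f ![3, 0]) (cf f ![2, 1]) (cf f ![1, 2]) (cf f ![0, 3]) with hP
    have hGP : GF 3 3 f = P.toPoly := CUBHM.GF_eq f
    have hsep := CUBHM.sep p h3p _ hd hs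
    rw [hGP] at hd hsep
    have ha : P.a ≠ 0 := by
      intro h0
      have := Cubic.natDegree_of_a_eq_zero' (b := P.b) (c := P.c) (d := P.d)
      have h6 : P.toPoly.coeff 3 = 0 := by rw [Cubic.coeff_eq_a, h0]
      have h7 : P.toPoly.leadingCoeff = 0 := by
        rw [Polynomial.leadingCoeff, hd, h6]
      rw [Polynomial.leadingCoeff_eq_zero] at h7
      rw [h7] at hd
      simp at hd
    let K := AlgebraicClosure k
    haveI : CharP K p := charP_of_injective_algebraMap (algebraMap k K).injective p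
    let φ : k →+* K := algebraMap k K
    obtain ⟨x, y, z, hr⟩ := (Cubic.splits_iff_roots_eq_three (φ := φ) ha).1
      (IsAlgClosed.splits _)
    have hnd : (Cubic.map φ P).roots.Nodup := by
      rw [Cubic.roots, Cubic.map_toPoly]
      exact Polynomial.nodup_roots (hsep.map)
    rw [hr] at hnd
    simp at hnd
    have hb := Cubic.b_eq_three_roots ha hr
    have hcc := Cubic.c_eq_three_roots ha hr
    have hdd := Cubic.d_eq_three_roots ha hr
    intro h0
    have h8 : cf ((MvPolynomial.map φ (lead 3 3 f)) ^ (q * 2)) ![p - 1, p - 1] = 0 := by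
      rw [← map_pow, CUBHM.cf_map, h0, map_zero]
    refine CUBHM.coeff_ne p hA q hq (MvPolynomial.map φ (lead 3 3 f)) (φ P.a) x y z
      ((map_ne_zero φ).2 ha) ?_ ?_ ?_ ?_ h8
    · tauto
    · tauto
    · tauto
    · rw [CUBHM.lead_eq, map_sum]
      simp only [Finset.sum_range_succ, Finset.sum_range_zero, map_mul, map_pow, MvPolynomial.map_C,
        MvPolynomial.map_X]
      have e3 : φ (cf f ![3, 3 - 3]) = φ P.a := rfl
      have e2 : φ (cf f ![2, 3 - 2]) = φ P.b := rfl
      have e1 : φ (cf f ![1, 3 - 1]) = φ P.c := rfl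
      have e0 : φ (cf f ![0, 3 - 0]) = φ P.d := rfl
      rw [e3, e2, e1, e0, hb, hcc, hdd]
      simp only [MvPolynomial.C_mul, MvPolynomial.C_neg, MvPolynomial.C_add]
      ring

end ASP
end

section
/-!
# MP_b685ef_ag, theorem AS+: condition (L) for cubics, from CUBH
-/
set_option linter.all false

namespace ASP

open Finset ASur

/-- A matrix of size at most one with nonzero determinant. -/
theorem cubic_small (k : Type) [Field k] (ι : Type) [Fintype ι] [DecidableEq ι] [Subsingleton ι]
    (M : Matrix ι ι k) (hM : M.det ≠ 0) : (Polynomial.X * M.charpoly).Separable := by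
  rcases isEmpty_or_nonempty ι with he | ⟨⟨i⟩⟩
  · have : M.charpoly = 1 := by
      rw [Matrix.charpoly, Matrix.det_isEmpty]
    rw [this, mul_one]
    exact Polynomial.separable_X
  · haveI : Unique ι := uniqueOfSubsingleton i
    have h1 : M.charpoly = Polynomial.X - Polynomial.C (M i i) := by
      rw [Matrix.charpoly, Matrix.det_unique]
      have : (default : ι) = i := Subsingleton.elim _ _
      rw [this]
      simp [Matrix.charmatrix]
    have h2 : M i i ≠ 0 := by
      rw [Matrix.det_unique] at hM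
      have : (default : ι) = i := Subsingleton.elim _ _
      rwa [this] at hM
    rw [h1]
    have h3 : IsCoprime (Polynomial.X : Polynomial k) (Polynomial.X - Polynomial.C (M i i)) := by
      have := Polynomial.isCoprime_X_sub_C_of_isUnit_sub (a := (0 : k)) (b := M i i)
        (by rw [zero_sub]; exact (neg_ne_zero.2 h2).isUnit)
      simpa using this
    exact Polynomial.separable_X.mul (Polynomial.separable_X_sub_C) h3

/-- The determinant of `Fprod`. -/
theorem cubic_fprod (p : ℕ) [Fact p.Prime] (k : Type) [Field k] [CharP k p] (ι : Type) [Fintype ι]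
    [DecidableEq ι] (M : Matrix ι ι k) (hM : M.det ≠ 0) (n : ℕ) : (Fprod p M n).det ≠ 0 := by
  induction n with
  | zero => simp [Fprod]
  | succ n ih =>
    rw [Fprod, Matrix.det_mul]
    refine mul_ne_zero ?_ ih
    have h1 : (M.map fun x => x ^ (p ^ n)) = M.map (iterateFrobenius k p n) := by
      ext i j
      simp [iterateFrobenius_def]
    rw [h1, ← RingHom.mapMatrix_apply, ← RingHom.map_det, iterateFrobenius_def]
    exact pow_ne_zero _ hM

/-- For `a = b = 3` the sets `U_1`, `U_2` have at most one element. -/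
theorem cubic_sub (m : ℕ) (hm : m < 3) : Subsingleton (Um 3 3 (Nat.lcm 3 3) m) := by
  constructor
  intro u v
  have hu := u.2
  have hv := v.2
  have hl : Nat.lcm 3 3 = 3 := by decide
  have e : ∀ w : Fin 2 → Fin (Nat.lcm 3 3), ew 3 3 (pt w) = (w 0 : ℕ) + 1 + ((w 1 : ℕ) + 1) := by
    intro w
    have h1 : Nat.lcm 3 3 / 3 = 1 := by decide
    simp only [ew, pt, h1, one_mul]
  rw [e] at hu hv
  apply Subtype.ext
  funext s
  apply Fin.ext
  fin_cases s
  · show (u.1 0 : ℕ) = v.1 0
    omega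
  · show (u.1 1 : ℕ) = v.1 1
    omega

/-- **CUBIC.** (L) for cubics. -/
theorem cubic_aux (hC : StmtCUBH) (p : ℕ) [hpF : Fact p.Prime] (hD : Nat.lcm 3 3 ∣ p - 1)
    (k : Type) [Field k] [Fintype k] [Algebra (ZMod p) k] (f : MvPolynomial (Fin 2) k)
    (hG : (GF 3 3 f).natDegree = Nat.gcd 3 3) (hGs : Squarefree (GF 3 3 f))
    (m : ℕ) (hm : 1 ≤ m) (hmD : m < Nat.lcm 3 3) :
    (Polynomial.X *
      (Fprod p (Hmat p 3 3 (Nat.lcm 3 3) m f) (Module.finrank (ZMod p) k)).charpoly).Separable := by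
  haveI : CharP k p := charP_of_injective_algebraMap (algebraMap (ZMod p) k).injective p
  have hl : Nat.lcm 3 3 = 3 := by decide
  have hg : Nat.gcd 3 3 = 3 := by decide
  haveI := cubic_sub m (by rw [hl] at hmD; exact hmD)
  apply cubic_small
  apply cubic_fprod
  have h1 := hC p (by rw [← hl]; exact hD) k f (by rw [hG, hg]) hGs m hm (by rw [← hl]; exact hmD)
  exact h1

end ASP
end

section
/-!
# MP_b685ef_ag, theorem AS+: diagonal leading forms with irreducible `α X^g + β`
-/
set_option linter.all false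

namespace ASP

open Finset ASur

/-- If `α X^g + β` is irreducible over the finite field `k`, `g ∣ q - 1`, then
`(-(β / α))^{(q-1)/g}` has order `g`. -/
theorem diagp_order (k : Type) [Field k] [Fintype k] (g : ℕ) (hg : 1 ≤ g)
    (hgq : g ∣ Fintype.card k - 1) (α β : k) (hα : α ≠ 0) (hβ : β ≠ 0)
    (hirr : Irreducible (Polynomial.C α * Polynomial.X ^ g + Polynomial.C β)) :
    orderOf ((-(β / α)) ^ ((Fintype.card k - 1) / g)) = g := by
  classical
  set s : k := -(β / α) with hs
  have hs0 : s ≠ 0 := by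
    rw [hs]; exact neg_ne_zero.2 (div_ne_zero hβ hα)
  have hq : 1 < Fintype.card k := Fintype.one_lt_card
  set n := Fintype.card k - 1 with hn
  have hnpos : 0 < n := by omega
  have hpow1 : (s ^ (n / g)) ^ g = 1 := by
    rw [← pow_mul, Nat.div_mul_cancel hgq, hn]
    exact FiniteField.pow_card_sub_one_eq_one s hs0
  set e := orderOf (s ^ (n / g)) with he
  have heg : e ∣ g := orderOf_dvd_of_pow_eq_one hpow1
  have hepos : 0 < e := Nat.pos_of_dvd_of_pos heg hg
  by_contra hne
  have helt : e < g := lt_of_le_of_ne (Nat.le_of_dvd hg heg) hne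
  obtain ⟨c, hc⟩ := heg
  have hc2 : 2 ≤ c := by
    by_contra hcc
    have : c ≤ 1 := by omega
    have : g ≤ e := by rw [hc]; nlinarith
    omega
  -- s is a c-th power
  have hse : s ^ (n / g * e) = 1 := by
    rw [pow_mul, he]; exact pow_orderOf_eq_one _
  obtain ⟨ζ, hζ⟩ := IsCyclic.exists_generator (α := kˣ)
  obtain ⟨j, hj⟩ := (Submonoid.mem_powers_iff _ _).1 ((mem_powers_iff_mem_zpowers).2
    (hζ (Units.mk0 s hs0)))
  have hordζ : orderOf ζ = n := by
    rw [orderOf_eq_card_of_forall_mem_zpowers hζ, Nat.card_eq_fintype_card, Fintype.card_units]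
  have hdvd : n ∣ j * (n / g * e) := by
    have h1 : ζ ^ (j * (n / g * e)) = 1 := by
      rw [pow_mul, hj]
      apply Units.ext
      rw [Units.val_pow_eq_pow_val, Units.val_mk0, Units.val_one]
      exact hse
    have h2 := orderOf_dvd_of_pow_eq_one h1
    rwa [hordζ] at h2
  have hncm : n = (n / g * e) * c := by
    rw [mul_assoc, ← hc, Nat.div_mul_cancel hgq]
  have hpos2 : 0 < n / g * e := by
    apply Nat.pos_of_ne_zero
    intro h0
    rw [h0, zero_mul] at hncm
    omega
  have hcj : c ∣ j := by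
    have h1 : (n / g * e) * c ∣ (n / g * e) * j := by
      rw [← hncm, mul_comm]; exact hdvd
    exact Nat.dvd_of_mul_dvd_mul_left hpos2 h1
  obtain ⟨t, ht⟩ := hcj
  set r : k := ((ζ ^ t : kˣ) : k) with hr
  have hrc : r ^ c = s := by
    have : (ζ ^ t) ^ c = Units.mk0 s hs0 := by
      rw [← pow_mul, mul_comm, ← ht, hj]
    have h2 := congrArg (fun u : kˣ => (u : k)) this
    simpa [hr] using h2
  -- factorization
  have hfac : Polynomial.C α * Polynomial.X ^ g + Polynomial.C β =
      (Polynomial.X ^ e - Polynomial.C r) * (Polynomial.C α *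
        ∑ i ∈ range c, (Polynomial.X ^ e) ^ i * (Polynomial.C r) ^ (c - 1 - i)) := by
    have h1 := (Commute.all ((Polynomial.X : Polynomial k) ^ e) (Polynomial.C r)).geom_sum₂_mul c
    have h2 : Polynomial.C β = - (Polynomial.C α * (Polynomial.C r) ^ c) := by
      rw [← Polynomial.C_pow, hrc, ← Polynomial.C_mul, ← Polynomial.C_neg, hs]
      congr 1
      field_simp
    rw [h2, hc, pow_mul]
    linear_combination (-Polynomial.C α) * h1
  rcases hirr.isUnit_or_isUnit hfac with hu | hu
  · have h3 := Polynomial.natDegree_eq_zero_of_isUnit hu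
    rw [Polynomial.natDegree_X_pow_sub_C] at h3
    omega
  · have h3 := Polynomial.natDegree_eq_zero_of_isUnit hu
    have h4 : (Polynomial.C α * Polynomial.X ^ g + Polynomial.C β : Polynomial k).natDegree = e := by
      rw [hfac, Polynomial.natDegree_mul, Polynomial.natDegree_X_pow_sub_C, h3, add_zero]
      · exact Polynomial.X_pow_sub_C_ne_zero hepos r
      · exact hu.ne_zero
    have h5 : (Polynomial.C α * Polynomial.X ^ g + Polynomial.C β : Polynomial k).natDegree = g := by
      rw [Polynomial.natDegree_add_C, Polynomial.natDegree_C_mul_X_pow g α hα]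
    omega

/-- `(-1)^{(p^h-1)/g} = 1` in characteristic `p` if `g ∣ p - 1 ∣ h`. -/
theorem diagp_neg (p : ℕ) (hp : p.Prime) (g : ℕ) (hg : 1 ≤ g) (hgp : g ∣ p - 1) (h : ℕ)
    (hph : p - 1 ∣ h) (k : Type) [Field k] (hchar : CharP k p) :
    ((-1 : k)) ^ ((p ^ h - 1) / g) = 1 := by
  rcases hp.eq_two_or_odd' with h2 | hodd
  · subst h2
    have : (-1 : k) = 1 := by
      haveI := hchar
      exact CharTwo.neg_eq 1
    rw [this, one_pow]
  · obtain ⟨t, ht⟩ := hph
    have heven : Even ((p ^ h - 1) / g) := by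
      have hp1e : Even (p - 1) := by
        obtain ⟨r, hr⟩ := hodd
        exact ⟨r, by omega⟩
      obtain ⟨r, hr⟩ := hp1e
      have hh2 : h = 2 * (r * t) := by rw [ht, hr]; ring
      have hsq : (p - 1) * 2 ∣ p ^ h - 1 := by
        have h1 : p ^ 2 - 1 ∣ p ^ h - 1 := by
          rw [hh2, pow_mul]
          simpa using Nat.sub_dvd_pow_sub_pow (p ^ 2) 1 (r * t)
        have h3 : (p - 1) * 2 ∣ p ^ 2 - 1 := by
          obtain ⟨w, hw'⟩ := hodd
          have : p ^ 2 - 1 = (p - 1) * (p + 1) := by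
            have h4 : p ^ 2 = (p - 1) * (p + 1) + 1 := by
              rw [hw']; simp only [Nat.add_sub_cancel]; ring
            omega
          rw [this]
          apply Nat.mul_dvd_mul_left
          exact ⟨w + 1, by rw [hw']; ring⟩
        exact h3.trans h1
      have h5 : g * 2 ∣ p ^ h - 1 := (Nat.mul_dvd_mul_right hgp 2).trans hsq
      obtain ⟨w, hw'⟩ := h5
      have h6 : (p ^ h - 1) / g = 2 * w := by
        rw [hw', mul_assoc]; exact Nat.mul_div_cancel_left _ hg
      rw [h6]; exact even_two_mul w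
    exact heven.neg_one_pow

/-- If `p - 1 ∣ h` and `α X^g + β` is irreducible, the values `gdiag` are distinct on `U_m`. -/
theorem diagp_inj (p : ℕ) [hpF : Fact p.Prime] (a b : ℕ) (ha : 2 ≤ a) (hb : 2 ≤ b)
    (hD : Nat.lcm a b ∣ p - 1) (k : Type) [Field k] [Fintype k] [Algebra (ZMod p) k] (α β : k)
    (hα : α ≠ 0) (hβ : β ≠ 0) (h : ℕ) (hcard : Fintype.card k = p ^ h) (hph : p - 1 ∣ h)
    (hirr : Irreducible (Polynomial.C α * Polynomial.X ^ (Nat.gcd a b) + Polynomial.C β))
    (m : ℕ) (hm : 1 ≤ m) (hmD : m ≤ Nat.lcm a b) (u v : Um a b (Nat.lcm a b) m)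
    (huv : gdiag p a b h α β u.1 = gdiag p a b h α β v.1) : u = v := by
  have hp : p.Prime := hpF.out
  have hchar : CharP k p := charP_of_injective_algebraMap (algebraMap (ZMod p) k).injective p
  have hDpos : 0 < Nat.lcm a b := Nat.lcm_pos (by omega) (by omega)
  have hwa : 1 ≤ Nat.lcm a b / a :=
    Nat.div_pos (Nat.le_of_dvd hDpos (Nat.dvd_lcm_left a b)) (by omega)
  have hwb : 1 ≤ Nat.lcm a b / b :=
    Nat.div_pos (Nat.le_of_dvd hDpos (Nat.dvd_lcm_right a b)) (by omega)
  have ha' : Nat.lcm a b / a * a = Nat.lcm a b := Nat.div_mul_cancel (Nat.dvd_lcm_left a b)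
  have hb' : Nat.lcm a b / b * b = Nat.lcm a b := Nat.div_mul_cancel (Nat.dvd_lcm_right a b)
  have hp1 : 0 < p - 1 := by have := hp.two_le; omega
  have hDp : Nat.lcm a b ≤ p - 1 := Nat.le_of_dvd hp1 hD
  have hgpos : 0 < Nat.gcd a b := Nat.gcd_pos_of_pos_left _ (by omega)
  have hgD : Nat.gcd a b ∣ Nat.lcm a b := (Nat.gcd_dvd_left a b).trans (Nat.dvd_lcm_left a b)
  have hp1h : p - 1 ∣ p ^ h - 1 := by
    simpa using Nat.sub_dvd_pow_sub_pow p 1 h
  have hDq : Nat.lcm a b ∣ p ^ h - 1 := hD.trans hp1h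
  have haq : a ∣ p ^ h - 1 := (Nat.dvd_lcm_left a b).trans hDq
  have hbq : b ∣ p ^ h - 1 := (Nat.dvd_lcm_right a b).trans hDq
  have hgq : Nat.gcd a b ∣ p ^ h - 1 := hgD.trans hDq
  have hgq' : Nat.gcd a b ∣ Fintype.card k - 1 := by rw [hcard]; exact hgq
  -- the coordinate bound
  have hlt : ∀ w : Um a b (Nat.lcm a b) m, pt w.1 0 < a := by
    intro w
    have h1 := w.2
    unfold ew at h1
    have h2 : 1 ≤ pt w.1 1 := by unfold pt; omega
    by_contra hcon
    push Not at hcon
    have h3 : Nat.lcm a b / a * a ≤ Nat.lcm a b / a * pt w.1 0 := Nat.mul_le_mul_left _ hcon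
    have h4 : 1 ≤ Nat.lcm a b / b * pt w.1 1 := Nat.mul_pos hwb h2
    omega
  have hw : ∀ w : Um a b (Nat.lcm a b) m, gdiag p a b h α β w.1 =
      (α ^ ((p ^ h - 1) / a)) ^ pt w.1 0 * (β ^ ((p ^ h - 1) / b)) ^ pt w.1 1 := by
    intro w
    unfold gdiag
    have hc1 : (p - 1) / Nat.lcm a b * ew a b (pt w.1) ≤ p - 1 := by
      rw [w.2]
      calc (p - 1) / Nat.lcm a b * m ≤ (p - 1) / Nat.lcm a b * Nat.lcm a b :=
            Nat.mul_le_mul_left _ hmD
        _ = p - 1 := Nat.div_mul_cancel hD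
    have hc2 : (p - 1) / a * pt w.1 0 ≤ (p - 1) / Nat.lcm a b * ew a b (pt w.1) := by
      unfold ew
      have : (p - 1) / a = (p - 1) / Nat.lcm a b * (Nat.lcm a b / a) := by
        apply Nat.div_eq_of_eq_mul_left (by omega)
        rw [mul_assoc, ha', Nat.div_mul_cancel hD]
      rw [this]
      nlinarith [Nat.zero_le ((p - 1) / Nat.lcm a b * (Nat.lcm a b / b * pt w.1 1))]
    have hne : ((((p - 1) / Nat.lcm a b * ew a b (pt w.1)).choose ((p - 1) / a * pt w.1 0) : ℕ) :
        ZMod p) ≠ 0 := by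
      rw [Ne, ZMod.natCast_eq_zero_iff]
      intro hdvd
      have h5 : p ∣ ((p - 1) / Nat.lcm a b * ew a b (pt w.1)).factorial := by
        rw [← Nat.choose_mul_factorial_mul_factorial hc2]
        exact Dvd.dvd.mul_right (Dvd.dvd.mul_right hdvd _) _
      have h6 := (hp.dvd_factorial).1 h5
      omega
    have hone : ((((p - 1) / Nat.lcm a b * ew a b (pt w.1)).choose ((p - 1) / a * pt w.1 0) : ℕ) :
        k) ^ h = 1 := by
      obtain ⟨t, ht⟩ := hph
      have h7 := ZMod.pow_card_sub_one_eq_one hne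
      have h8 := congrArg (algebraMap (ZMod p) k) h7
      rw [map_pow, map_natCast, map_one] at h8
      rw [ht, pow_mul, h8, one_pow]
    rw [hone, one_mul]
  rw [hw u, hw v] at huv
  -- the order of (-(β/α))^((q-1)/g)
  have hord := diagp_order k (Nat.gcd a b) hgpos hgq' α β hα hβ hirr
  rw [hcard] at hord
  set ω : k := (-(β / α)) ^ ((p ^ h - 1) / Nat.gcd a b) with hω
  -- weights
  set a' := a / Nat.gcd a b with ha'def
  set b' := b / Nat.gcd a b with hb'def
  have hag : a' * Nat.gcd a b = a := Nat.div_mul_cancel (Nat.gcd_dvd_left a b)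
  have hbg : b' * Nat.gcd a b = b := Nat.div_mul_cancel (Nat.gcd_dvd_right a b)
  have hcop : Nat.Coprime a' b' := Nat.coprime_div_gcd_div_gcd hgpos
  have hDa : Nat.lcm a b / a = b' := by
    have h1 : Nat.gcd a b * Nat.lcm a b = a * b := Nat.gcd_mul_lcm a b
    have h2 : Nat.lcm a b = b' * a := by
      have : Nat.gcd a b * Nat.lcm a b = Nat.gcd a b * (b' * a) := by
        rw [h1]
        calc a * b = a * (b' * Nat.gcd a b) := by rw [hbg]
          _ = Nat.gcd a b * (b' * a) := by ring
      exact Nat.eq_of_mul_eq_mul_left hgpos this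
    rw [h2]; exact Nat.mul_div_cancel _ (by omega)
  have hDb : Nat.lcm a b / b = a' := by
    have h1 : Nat.gcd a b * Nat.lcm a b = a * b := Nat.gcd_mul_lcm a b
    have h2 : Nat.lcm a b = a' * b := by
      have : Nat.gcd a b * Nat.lcm a b = Nat.gcd a b * (a' * b) := by
        rw [h1]
        calc a * b = (a' * Nat.gcd a b) * b := by rw [hag]
          _ = Nat.gcd a b * (a' * b) := by ring
      exact Nat.eq_of_mul_eq_mul_left hgpos this
    rw [h2]; exact Nat.mul_div_cancel _ (by omega)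
  have ha'pos : 0 < a' := by
    rcases Nat.eq_zero_or_pos a' with h0 | h0
    · rw [h0] at hag; omega
    · exact h0
  have hb'pos : 0 < b' := by
    rcases Nat.eq_zero_or_pos b' with h0 | h0
    · rw [h0] at hbg; omega
    · exact h0
  have hwt : ∀ w : Um a b (Nat.lcm a b) m, b' * pt w.1 0 + a' * pt w.1 1 = m := by
    intro w
    have h1 := w.2
    unfold ew at h1
    calc b' * pt w.1 0 + a' * pt w.1 1 =
        Nat.lcm a b / a * pt w.1 0 + Nat.lcm a b / b * pt w.1 1 := by rw [hDa, hDb]
      _ = m := h1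
  have hu := hwt u
  have hv := hwt v
  -- wlog
  have key : ∀ x y : Um a b (Nat.lcm a b) m, pt x.1 0 < pt y.1 0 →
      (α ^ ((p ^ h - 1) / a)) ^ pt x.1 0 * (β ^ ((p ^ h - 1) / b)) ^ pt x.1 1 =
      (α ^ ((p ^ h - 1) / a)) ^ pt y.1 0 * (β ^ ((p ^ h - 1) / b)) ^ pt y.1 1 → False := by
    intro x y hxy hE
    have hx := hwt x
    have hy := hwt y
    have hyx1 : pt y.1 1 < pt x.1 1 := by
      by_contra hcon
      push Not at hcon
      have h1 : b' * pt x.1 0 < b' * pt y.1 0 := Nat.mul_lt_mul_of_pos_left hxy hb'pos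
      have h2 : a' * pt x.1 1 ≤ a' * pt y.1 1 := Nat.mul_le_mul_left _ hcon
      omega
    obtain ⟨s0, hs0⟩ := Nat.exists_eq_add_of_lt hxy
    obtain ⟨s1, hs1⟩ := Nat.exists_eq_add_of_lt hyx1
    have hrel : b' * (s0 + 1) = a' * (s1 + 1) := by
      have h1 := hx.trans hy.symm
      rw [hs0, hs1] at h1
      simp only [Nat.mul_add, mul_one] at h1 ⊢
      omega
    have hdv : a' ∣ s0 + 1 := by
      have : a' ∣ b' * (s0 + 1) := ⟨s1 + 1, hrel⟩
      exact hcop.dvd_of_dvd_mul_left this
    obtain ⟨j, hj⟩ := hdv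
    have hj1 : s1 + 1 = b' * j := by
      have : a' * (s1 + 1) = a' * (b' * j) := by
        rw [← hrel, hj]; ring
      exact Nat.eq_of_mul_eq_mul_left ha'pos this
    have hjpos : 0 < j := by
      rcases Nat.eq_zero_or_pos j with h0 | h0
      · rw [h0] at hj; omega
      · exact h0
    have hjlt : j < Nat.gcd a b := by
      have h1 := hlt y
      have h2 : a' * j < a' * Nat.gcd a b := by
        rw [← hj, hag]; omega
      exact Nat.lt_of_mul_lt_mul_left h2
    have hA : (α ^ ((p ^ h - 1) / a)) ^ (s0 + 1) = (α ^ ((p ^ h - 1) / Nat.gcd a b)) ^ j := by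
      rw [hj, ← pow_mul, ← pow_mul]
      congr 1
      rw [← mul_assoc]
      congr 1
      apply Nat.eq_of_mul_eq_mul_right hgpos
      rw [mul_assoc, hag, Nat.div_mul_cancel haq, Nat.div_mul_cancel hgq]
    have hB : (β ^ ((p ^ h - 1) / b)) ^ (s1 + 1) = (β ^ ((p ^ h - 1) / Nat.gcd a b)) ^ j := by
      rw [hj1, ← pow_mul, ← pow_mul]
      congr 1
      rw [← mul_assoc]
      congr 1
      apply Nat.eq_of_mul_eq_mul_right hgpos
      rw [mul_assoc, hbg, Nat.div_mul_cancel hbq, Nat.div_mul_cancel hgq]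
    have hE2 : (α ^ ((p ^ h - 1) / Nat.gcd a b)) ^ j = (β ^ ((p ^ h - 1) / Nat.gcd a b)) ^ j := by
      rw [← hA, ← hB]
      have e1 : pt y.1 0 = pt x.1 0 + (s0 + 1) := by omega
      have e2 : pt x.1 1 = pt y.1 1 + (s1 + 1) := by omega
      rw [e1, e2, pow_add, pow_add] at hE
      have n1 : (α ^ ((p ^ h - 1) / a)) ^ pt x.1 0 ≠ 0 := pow_ne_zero _ (pow_ne_zero _ hα)
      have n2 : (β ^ ((p ^ h - 1) / b)) ^ pt y.1 1 ≠ 0 := pow_ne_zero _ (pow_ne_zero _ hβ)
      apply mul_left_cancel₀ (mul_ne_zero n1 n2)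
      linear_combination -hE
    have hneg : ((-1 : k)) ^ ((p ^ h - 1) / Nat.gcd a b) = 1 :=
      diagp_neg p hp _ hgpos (hgD.trans hD) h hph k hchar
    have hωj : ω ^ j = 1 := by
      rw [hω, neg_pow, hneg, one_mul, div_pow, div_pow, ← hE2]
      exact div_self (pow_ne_zero _ (pow_ne_zero _ hα))
    have := orderOf_dvd_of_pow_eq_one hωj
    rw [hord] at this
    have := Nat.le_of_dvd hjpos this
    omega
  have h0 : pt u.1 0 = pt v.1 0 := by
    rcases lt_trichotomy (pt u.1 0) (pt v.1 0) with h1 | h1 | h1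
    · exact (key u v h1 huv).elim
    · exact h1
    · exact (key v u h1 huv.symm).elim
  rw [h0] at hu
  have h1 : pt u.1 1 = pt v.1 1 := by
    have : a' * pt u.1 1 = a' * pt v.1 1 := by omega
    exact Nat.eq_of_mul_eq_mul_left ha'pos this
  apply Subtype.ext
  funext s
  apply Fin.ext
  fin_cases s
  · simpa [pt] using h0
  · simpa [pt] using h1

/-- `G = α X^g + β` for the leading part `α x^a + β y^b`. -/
theorem diagp_GF (a b : ℕ) (ha : 2 ≤ a) (hb : 2 ≤ b) (k : Type) [Field k]
    (f : MvPolynomial (Fin 2) k) (α β : k)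
    (hl : lead a b f = MvPolynomial.monomial (Finsupp.single 0 a) α +
      MvPolynomial.monomial (Finsupp.single 1 b) β) :
    GF a b f = Polynomial.C α * Polynomial.X ^ (Nat.gcd a b) + Polynomial.C β := by
  have hgpos : 0 < Nat.gcd a b := Nat.gcd_pos_of_pos_left _ (by omega)
  set g := Nat.gcd a b with hg
  have hDpos : 0 < Nat.lcm a b := Nat.lcm_pos (by omega) (by omega)
  have ha' : Nat.lcm a b / a * a = Nat.lcm a b := Nat.div_mul_cancel (Nat.dvd_lcm_left a b)
  have hb' : Nat.lcm a b / b * b = Nat.lcm a b := Nat.div_mul_cancel (Nat.dvd_lcm_right a b)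
  have hag : a / g * g = a := Nat.div_mul_cancel (Nat.gcd_dvd_left a b)
  have hbg : b / g * g = b := Nat.div_mul_cancel (Nat.gcd_dvd_right a b)
  have hcf : ∀ i, i ≤ g → cf f ![a / g * i, b / g * (g - i)] =
      (if i = g then α else 0) + (if i = 0 then β else 0) := by
    intro i hi
    have hgj : g = i + (g - i) := by omega
    set j := g - i with hj
    have hD1 : Nat.lcm a b / a * (a / g * i) + Nat.lcm a b / b * (b / g * j) = Nat.lcm a b := by
      apply Nat.eq_of_mul_eq_mul_right hgpos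
      have e1 : (Nat.lcm a b / a * (a / g * i)) * g = Nat.lcm a b * i := by
        calc (Nat.lcm a b / a * (a / g * i)) * g = (Nat.lcm a b / a * (a / g * g)) * i := by ring
          _ = _ := by rw [hag, ha']
      have e2 : (Nat.lcm a b / b * (b / g * j)) * g = Nat.lcm a b * j := by
        calc (Nat.lcm a b / b * (b / g * j)) * g = (Nat.lcm a b / b * (b / g * g)) * j := by ring
          _ = _ := by rw [hbg, hb']
      rw [add_mul, e1, e2, ← mul_add]
      exact congrArg _ hgj.symm
    have h1 : cf f ![a / g * i, b / g * j] = cf (lead a b f) ![a / g * i, b / g * j] := by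
      rw [cf, cf, lead, MvPolynomial.coeff_weightedHomogeneousComponent, if_pos]
      rw [Finsupp.weight_eq_sum, Fin.sum_univ_two]
      simp
      rw [mul_comm (a / g * i), mul_comm (b / g * j)]
      exact hD1
    rw [h1, hl, cf, MvPolynomial.coeff_add, MvPolynomial.coeff_monomial,
      MvPolynomial.coeff_monomial]
    congr 1
    · congr 1
      apply propext
      constructor
      · intro h
        have h0 := DFunLike.congr_fun h 0
        simp at h0
        have h2 : a / g * g = a / g * i := by rw [hag]; exact h0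
        have h3 : 0 < a / g := by
          rcases Nat.eq_zero_or_pos (a / g) with h4 | h4
          · rw [h4] at hag; omega
          · exact h4
        exact (Nat.eq_of_mul_eq_mul_left h3 h2).symm
      · intro h
        have hj0 : j = 0 := by omega
        ext s
        fin_cases s
        · simp [h, hag]
        · simp [hj0]
    · congr 1
      apply propext
      constructor
      · intro h
        have h0 := DFunLike.congr_fun h 1
        simp at h0
        have h2 : b / g * g = b / g * j := by rw [hbg]; exact h0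
        have h3 : 0 < b / g := by
          rcases Nat.eq_zero_or_pos (b / g) with h4 | h4
          · rw [h4] at hbg; omega
          · exact h4
        have := Nat.eq_of_mul_eq_mul_left h3 h2
        omega
      · intro h
        have hj0 : j = g := by omega
        ext s
        fin_cases s
        · simp [h]
        · simp [hj0, hbg]
  rw [GF, ← hg]
  have h2 : ∀ i ∈ range (g + 1), Polynomial.monomial i (cf f ![a / g * i, b / g * (g - i)]) =
      (if i = g then Polynomial.monomial g α else 0) +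
        (if i = 0 then Polynomial.monomial 0 β else 0) := by
    intro i hi
    rw [hcf i (by simpa [Nat.lt_succ_iff] using hi), map_add]
    congr 1
    · split_ifs with h
      · rw [h]
      · simp
    · split_ifs with h
      · rw [h]
      · simp
  rw [Finset.sum_congr rfl h2, Finset.sum_add_distrib, Finset.sum_ite_eq', Finset.sum_ite_eq']
  simp [Polynomial.C_mul_X_pow_eq_monomial]

/-- **DIAGP.** For `f₁ = α x^a + β y^b`, `α β ≠ 0`, with `gcd(a,b) = 1`, or with `p - 1 ∣ h` and
`G` irreducible, all `N_m`, `1 ≤ m ≤ D`, are invertible with distinct eigenvalues. -/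
theorem diagp_thm (p : ℕ) [hpF : Fact p.Prime] (a b : ℕ) (ha : 2 ≤ a) (hb : 2 ≤ b)
    (hD : Nat.lcm a b ∣ p - 1) (k : Type) [Field k] [Fintype k] [Algebra (ZMod p) k]
    (f : MvPolynomial (Fin 2) k) (α β : k) (hα : α ≠ 0) (hβ : β ≠ 0)
    (hl : lead a b f = MvPolynomial.monomial (Finsupp.single 0 a) α +
      MvPolynomial.monomial (Finsupp.single 1 b) β)
    (h : Nat.Coprime a b ∨
      (p - 1 ∣ Module.finrank (ZMod p) k ∧ Irreducible (GF a b f)))
    (m : ℕ) (hm : 1 ≤ m) (hmD : m ≤ Nat.lcm a b) :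
    (Polynomial.X *
      (Fprod p (Hmat p a b (Nat.lcm a b) m f) (Module.finrank (ZMod p) k)).charpoly).Separable := by
  have hcard : Fintype.card k = p ^ Module.finrank (ZMod p) k := by
    have := Module.card_eq_pow_finrank (K := ZMod p) (V := k)
    rwa [ZMod.card] at this
  rcases h with hc | ⟨h1, h2⟩
  · have h01 : (Finsupp.single (0 : Fin 2) a : Fin 2 →₀ ℕ) ≠ Finsupp.single 1 b := by
      intro h
      have := DFunLike.congr_fun h 0
      simp at this
      omega
    have hco : ∀ d : Fin 2 →₀ ℕ, ew a b d = Nat.lcm a b →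
        f.coeff d = (lead a b f).coeff d := by
      intro d hd
      rw [lead, MvPolynomial.coeff_weightedHomogeneousComponent, if_pos]
      rw [Finsupp.weight_eq_sum, Fin.sum_univ_two]
      simp only [ew] at hd
      simp
      linarith
    have ha' : Nat.lcm a b / a * a = Nat.lcm a b := Nat.div_mul_cancel (Nat.dvd_lcm_left a b)
    have hb' : Nat.lcm a b / b * b = Nat.lcm a b := Nat.div_mul_cancel (Nat.dvd_lcm_right a b)
    have c1 : f.coeff (Finsupp.single 0 a) ≠ 0 := by
      rw [hco _ (by simp [ew, ha']), hl]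
      rw [MvPolynomial.coeff_add, MvPolynomial.coeff_monomial, MvPolynomial.coeff_monomial,
        if_pos rfl, if_neg h01.symm, add_zero]
      exact hα
    have c2 : f.coeff (Finsupp.single 1 b) ≠ 0 := by
      rw [hco _ (by simp [ew, hb']), hl]
      rw [MvPolynomial.coeff_add, MvPolynomial.coeff_monomial, MvPolynomial.coeff_monomial,
        if_pos rfl, if_neg h01, zero_add]
      exact hβ
    exact ASur.cop_thm p a b ha hb hc hD k f c1 c2 _ m hm hmD
  · rw [diagp_GF a b ha hb k f α β hl] at h2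
    exact ASur.diag_thm p a b ha hb hD k f α β hα hβ hl _ m hm hmD fun u v huv =>
      diagp_inj p a b ha hb hD k α β hα hβ _ hcard h1 h2 m hm hmD u v huv

end ASP
end

section
/-!
# ASP, module EDGP (helper47): adaptation of `AS/EDGES.lean` (helper3)
-/
set_option linter.all false

namespace ASP

open Finset ASur

private theorem pmat_norm {C : Type} [NormedField C] [IsUltrametricDist C] {ι : Type} [Fintype ι]
    [DecidableEq ι] (A : ℕ → Matrix ι ι C) (hA : ∀ i u v, ‖A i u v‖ ≤ 1) (n : ℕ) :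
    ∀ u v, ‖Pmat A n u v‖ ≤ 1 := by
  induction n with
  | zero =>
    intro u v
    simp only [Pmat, Matrix.one_apply]
    split_ifs <;> simp
  | succ n ih =>
    intro u v
    simp only [Pmat, Matrix.mul_apply]
    refine norm_sum_le_one _ fun w _ => ?_
    rw [norm_mul]
    exact mul_le_one₀ (hA _ _ _) (norm_nonneg _) (ih _ _)

private theorem cf_zero {σ R : Type} [Finite σ] [CommSemiring R] (F : MvPolynomial σ R) :
    cf F (fun _ => 0) = F.coeff 0 := by
  unfold cf
  congr 1
  ext s
  simp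

private theorem ew_zero (a b : ℕ) : ew a b (fun _ => 0) = 0 := by
  simp [ew]

private theorem psi_norm {p : ℕ} [Fact p.Prime] {C : Type} [NormedField C]
    (ψ : AddChar (ZMod p) C) (x : ZMod p) : ‖ψ x‖ = 1 := by
  have h1 : (ψ x) ^ p = 1 := by
    rw [← AddChar.map_nsmul_eq_pow]
    have : p • x = 0 := by simp
    rw [this, AddChar.map_zero_eq_one]
  have h2 : ‖ψ x‖ ^ p = 1 := by rw [← norm_pow, h1, norm_one]
  exact (pow_eq_one_iff_of_nonneg (norm_nonneg _) (Fact.out : p.Prime).ne_zero).1 h2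

private theorem psi_prim {p : ℕ} [Fact p.Prime] {C : Type} [Field C]
    (ψ : AddChar (ZMod p) C) (hψ : ψ ≠ 1) : IsPrimitiveRoot (ψ 1) p := by
  have h1 : (ψ 1) ^ p = 1 := by
    rw [← AddChar.map_nsmul_eq_pow]
    have : p • (1 : ZMod p) = 0 := by simp
    rw [this, AddChar.map_zero_eq_one]
  have hne : ψ 1 ≠ 1 := by
    intro h
    apply hψ
    ext x
    have : x = (x.val) • (1 : ZMod p) := by
      rw [nsmul_eq_mul, mul_one, ZMod.natCast_val, ZMod.cast_id]
    rw [this, AddChar.map_nsmul_eq_pow, h, one_pow, AddChar.one_apply]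
  exact IsPrimitiveRoot.mk_of_lt _ (Fact.out : p.Prime).pos h1 (by
    intro l hl0 hlp hl
    have hd := orderOf_dvd_of_pow_eq_one h1
    rcases (Nat.dvd_prime (Fact.out : p.Prime)).1 hd with h | h
    · exact hne (orderOf_eq_one_iff.1 h)
    · have := orderOf_dvd_of_pow_eq_one hl
      rw [h] at this
      exact absurd (Nat.le_of_dvd hl0 this) (by omega))

private theorem usmall_lin {C : Type} [NormedField C] [IsUltrametricDist C] (x ϖ : C)
    (hϖ : ϖ ≠ 0) (hx : ‖x‖ < ‖ϖ‖) :
    USmall (((1 - Polynomial.C x * Polynomial.X : Polynomial C)) : PowerSeries C) ϖ := by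
  have hpos : 0 < ‖ϖ‖ := norm_pos_iff.2 hϖ
  constructor
  · rw [← PowerSeries.coeff_zero_eq_constantCoeff_apply, Polynomial.coeff_coe]
    simp
  · intro n hn
    rw [Polynomial.coeff_coe]
    rcases eq_or_ne n 1 with rfl | h1
    · have : (1 - Polynomial.C x * Polynomial.X : Polynomial C).coeff 1 = -x := by
        simp [Polynomial.coeff_one]
      rw [this, pow_one, norm_div, norm_neg]
      exact (div_lt_one hpos).2 hx
    · have : (1 - Polynomial.C x * Polynomial.X : Polynomial C).coeff n = 0 := by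
        obtain ⟨k, rfl⟩ : ∃ k, n = k + 2 := ⟨n - 2, by omega⟩
        simp [Polynomial.coeff_one, Polynomial.coeff_X]
      rw [this]
      simp

private theorem edge_core (hTHETA : StmtTHETA) (hTRF : StmtTRF) (hDEG : StmtDEG)
    (hFIVE : StmtFIVE)
    (hWGT : StmtWGT) (hCHI : StmtCHIP) (hLEAD : StmtLEAD) (hREIDX : StmtREIDX)
    (hEDGEM : StmtEDGEM) (hSMALL : StmtSMALL) (hAFAC : StmtAFAC) (hEDIV : StmtEDIV)
    (hECL : StmtECL) (hTEX : StmtTEX) (hZETA : StmtZETA)
    (hEXT : StmtEXT) (p : ℕ) [hp : Fact p.Prime] (a b : ℕ) (ha : 2 ≤ a) (hb : 2 ≤ b)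
    (hdvd : Nat.lcm a b ∣ p - 1)
    (C : Type) [NormedField C] [IsUltrametricDist C] [CharZero C] [IsAlgClosed C]
    (hpC : ‖(p : C)‖ < 1) (j : ℤ_[p] →+* C) (hj : ∀ x, ‖j x‖ ≤ 1)
    (k : Type) [Field k] [Fintype k] [Algebra (ZMod p) k] (f : MvPolynomial (Fin 2) k)
    (hsupp : ∀ m ∈ f.support, ew a b m ≤ Nat.lcm a b)
    (hsep : ∀ m, 1 ≤ m → m < Nat.lcm a b → (Polynomial.X *
      (Fprod p (Hmat p a b (Nat.lcm a b) m f) (Module.finrank (ZMod p) k)).charpoly).Separable)
    (hdet : (Hmat p a b (Nat.lcm a b) (Nat.lcm a b) f).det ≠ 0)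
    (ι : k →+* KK C) (ψ : AddChar (ZMod p) C) (hψ : ψ ≠ 1) (β : Multiset C)
    (hβ : ∀ (E : Type) [Field E] [Fintype E] [Algebra (ZMod p) E] [Algebra k E],
      (β.map fun x => x ^ Module.finrank k E).sum = Sf ψ f E)
    (ρ : C) (hρ : ρ ^ Nat.lcm a b = ψ 1 - 1) (m : ℕ) (hm1 : 1 ≤ m) (hmD : m ≤ Nat.lcm a b)
    (m0 : ℕ) :
    ∃ χ : Polynomial (KK C), χ.coeff 0 = 1 ∧
      (m < Nat.lcm a b → χ.Separable ∧ χ.natDegree = Fintype.card (Um a b (Nat.lcm a b) m)) ∧
      (m = Nat.lcm a b → χ = ((((Fprod p (Hmat p a b (Nat.lcm a b) (Nat.lcm a b) f)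
        (Module.finrank (ZMod p) k)).map ι).charpolyRev).comp
        (Polynomial.C ((-1) ^ (Module.finrank (ZMod p) k)) * Polynomial.X))) ∧
      Edge (revP β : PowerSeries C) (ρ ^ ((p - 1) * m * Module.finrank (ZMod p) k))
        (Fintype.card {u : Fin 2 → Fin (Nat.lcm a b) // ew a b (pt u) < m}) χ m0 := by
  have hp2 : 2 ≤ p := hp.out.two_le
  set D := Nat.lcm a b with hD
  have hDpos : 0 < D := Nat.lcm_pos (by omega) (by omega)
  set h := Module.finrank (ZMod p) k with hh
  have hh1 : 1 ≤ h := Module.finrank_pos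
  have hprim := psi_prim ψ hψ
  obtain ⟨hz0, hz1, hz2, -⟩ := hZETA p C hpC (ψ 1) hprim
  have hρ0 : ρ ≠ 0 := by
    rintro rfl
    rw [zero_pow hDpos.ne'] at hρ
    exact hz0 hρ.symm
  have hρ1 : ‖ρ‖ < 1 := by
    by_contra hc
    have : 1 ≤ ‖ρ‖ ^ D := one_le_pow₀ (not_lt.1 hc)
    rw [← norm_pow, hρ] at this
    linarith
  have hρpos : 0 < ‖ρ‖ := norm_pos_iff.2 hρ0
  set ϖ : C := ρ ^ ((p - 1) * m * h) with hϖ
  have hϖ0 : ϖ ≠ 0 := pow_ne_zero _ hρ0
  have hϖpos : 0 < ‖ϖ‖ := norm_pos_iff.2 hϖ0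
  have hϖ1 : ‖ϖ‖ ≤ 1 := by
    rw [hϖ, norm_pow]; exact pow_le_one₀ (norm_nonneg _) hρ1.le
  -- epsilon
  have hfac : (m0.factorial : C) ≠ 0 := by exact_mod_cast Nat.factorial_ne_zero m0
  have hfacpos : 0 < ‖(m0.factorial : C)‖ := norm_pos_iff.2 hfac
  set ε : ℝ := ‖ϖ‖ ^ m0 * ‖(m0.factorial : C)‖ / 2 with hε
  have hεpos : 0 < ε := by positivity
  obtain ⟨Θ, hΘ⟩ := hTHETA p C hpC j hj (ψ 1) hprim ε hεpos
  obtain ⟨τ, hτ⟩ := hTEX p C hpC k ι
  obtain ⟨L, hDL, hdeg⟩ := hDEG p hp2 C k τ Θ f D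
  set F := Fpol p (τ : k → C) Θ f with hF
  set q : C := (Fintype.card k : C) with hq
  have hcard : Fintype.card k = p ^ h := by
    rw [Module.card_eq_pow_finrank (K := ZMod p), ZMod.card]
  have hqn : ‖q‖ = ‖(p : C)‖ ^ h := by
    rw [hq, hcard]; push_cast; rw [norm_pow]
  have hq1 : ‖q‖ < 1 := by
    rw [hqn]; exact pow_lt_one₀ (norm_nonneg _) hpC (by omega)
  have hqϖ : ‖q‖ ≤ ‖ϖ‖ := by
    rw [hqn, ← hz2, ← hρ, norm_pow, hϖ, norm_pow, ← pow_mul, ← pow_mul]
    refine pow_le_pow_of_le_one hρpos.le hρ1.le ?_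
    calc (p - 1) * m * h ≤ (p - 1) * D * h := by gcongr
      _ = D * ((p - 1) * h) := by ring
  have hq2ϖ : ‖q ^ 2‖ ≤ ‖ϖ‖ := by
    rw [pow_two, norm_mul]
    exact (mul_le_of_le_one_left (norm_nonneg _) hq1.le).trans hqϖ
  -- weights
  have hW : ∀ i w, ‖cf (F i) w‖ ≤ ‖ρ‖ ^ ew a b w :=
    fun i w => hWGT p a b ha hb C (ψ 1) ρ ε Θ hΘ hρ hρ0 hρ1 k ι τ hτ f hsupp i w
  have hA := fun i => hAFAC C p a b L ρ (F i) (by omega) ha hb hρ0 hρ1 (hW i)
  set B := Pmat (fun i => Amat p L (F i)) h with hB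
  set B0 := Pmat (fun i => Amat p L (ax 0 (F i))) h with hB0
  set B1 := Pmat (fun i => Amat p L (ax 1 (F i))) h with hB1
  set γ : C := ∏ i ∈ range h, (F i).coeff 0 with hγ
  have hγ1 : ‖γ‖ ≤ 1 := by
    refine norm_prod_le_one _ fun i _ => ?_
    have := hW i (fun _ => 0)
    rwa [cf_zero, ew_zero, pow_zero] at this
  have hBn : ∀ u v, ‖B u v‖ ≤ 1 := pmat_norm _ (fun i u v => (hA i).1.2.2 u v) h
  have hB0n : ∀ u v, ‖B0 u v‖ ≤ 1 := pmat_norm _ (fun i u v => ((hA i).2 0).1 u v) h
  have hB1n : ∀ u v, ‖B1 u v‖ ≤ 1 := pmat_norm _ (fun i u v => ((hA i).2 1).1 u v) h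
  have hs1 : ∀ j, 1 ≤ j → ‖(β.map fun x => x ^ j).sum‖ ≤ 1 := by
    intro j hj
    obtain ⟨E, i1, i2, i3, i4, hE⟩ := hEXT p k j hj
    rw [← hE, hβ E]
    unfold Sf
    exact norm_sum_le_one _ fun x _ => (psi_norm ψ _).le
  have hs2 : ∀ j, 1 ≤ j → ‖(β.map fun x => x ^ j).sum - ((q ^ j - 1) ^ 2 * Matrix.trace (B ^ j) +
      q ^ j * (q ^ j - 1) * (Matrix.trace (B0 ^ j) + Matrix.trace (B1 ^ j)) +
      (q ^ j) ^ 2 * γ ^ j)‖ ≤ ε := by
    intro j hj
    obtain ⟨E, i1, i2, i3, i4, hE⟩ := hEXT p k j hj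
    have := hTRF p C hpC ψ ε Θ hεpos hΘ k ι τ hτ f L hdeg E
    rw [← hE, hβ E]
    exact this
  have h5 := hFIVE C (Fin 2 → Fin L) (Fin 1 → Fin L) q γ B B0 B1 β ε hεpos.le hq1.le hγ1 hBn
    hB0n hB1n hs1 hs2
  -- chi
  obtain ⟨hχA, hχB, hχC⟩ := hCHI p a b ha hb hdvd C hpC (ψ 1) ρ ε Θ hΘ hρ hρ0 hρ1 k ι τ hτ f
    hsupp h hh1 hsep hdet L hDL
  have he1 : ∀ u : Fin 2 → Fin L, 1 ≤ ew a b (pt u) := by
    intro u
    have h1 : 1 ≤ Nat.lcm a b / a :=
      Nat.div_pos (Nat.le_of_dvd hDpos (Nat.dvd_lcm_left a b)) (by omega)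
    unfold ew
    have h2 : 1 ≤ pt u 0 := by simp [pt]
    calc 1 = 1 * 1 := rfl
      _ ≤ (Nat.lcm a b / a) * pt u 0 := Nat.mul_le_mul h1 h2
      _ ≤ _ := Nat.le_add_right _ _
  have hedge := hEDGEM C (Fin 2 → Fin L) (fun u => ew a b (pt u)) p h m ρ
    (fun i => Amat p L (F i)) (fun i => Cmat p a b L ρ (F i)) hp2 hh1 hρ0 hρ1 he1
    (fun i u v => (hA i).1.1 u v) (fun i u v => (hA i).1.2.1 u v)
    (by
      intro i hi u v hu hv huv
      exact (hLEAD p a b ha hb hdvd C hpC (ψ 1) ρ ε Θ hΘ hρ hρ0 hρ1 k ι τ hτ f hsupp i L u v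
        (hu.trans hmD) (hv.trans hmD)).1 huv)
    (by
      intro i hi m' hm'
      rcases Nat.eq_zero_or_pos m' with rfl | hpos
      · haveI : IsEmpty {u : Fin 2 → Fin L // ew a b (pt u) = 0} :=
          ⟨fun u => by have := he1 u.1; have := u.2; omega⟩
        rw [Matrix.det_isEmpty]
        exact one_ne_zero
      · exact (hχB m' hpos (by omega)).2 i hi)
    m0
  -- small factors
  have hsm : ∀ x : C, ‖x‖ ≤ ‖ϖ‖ → USmall ((x • B).charpolyRev : PowerSeries C) ϖ := by
    intro x hx
    exact hSMALL C (Fin 2 → Fin L) (fun u => ew a b (pt u)) p h ρ x ϖ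
      (fun i => Amat p L (F i)) (fun i => Cmat p a b L ρ (F i)) hp2 hh1 hρ0 hρ1 he1
      (fun i u v => (hA i).1.1 u v) (fun i u v => (hA i).1.2.1 u v) hϖ0 hx
  have hsmax : ∀ (s : Fin 2) (x : C), ‖x‖ ≤ ‖ϖ‖ →
      USmall ((x • Pmat (fun i => Amat p L (ax s (F i))) h).charpolyRev : PowerSeries C) ϖ := by
    intro s x hx
    choose Cm hCm1 hCm2 using fun i => ((hA i).2 s).2
    refine hSMALL C (Fin 1 → Fin L) (fun u => ew a b (fun t => if t = s then pt u 0 else 0)) p h ρ
      x ϖ (fun i => Amat p L (ax s (F i))) Cm hp2 hh1 hρ0 hρ1 ?_ hCm1 hCm2 hϖ0 hx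
    intro u
    have h1 : 1 ≤ Nat.lcm a b / a :=
      Nat.div_pos (Nat.le_of_dvd hDpos (Nat.dvd_lcm_left a b)) (by omega)
    have h1' : 1 ≤ Nat.lcm a b / b :=
      Nat.div_pos (Nat.le_of_dvd hDpos (Nat.dvd_lcm_right a b)) (by omega)
    have h2 : 1 ≤ pt u 0 := by simp [pt]
    unfold ew
    fin_cases s
    · simp only [Fin.zero_eta, if_true]
      calc 1 = 1 * 1 := rfl
        _ ≤ (Nat.lcm a b / a) * pt u 0 := Nat.mul_le_mul h1 h2
        _ ≤ _ := Nat.le_add_right _ _
    · simp only [Fin.mk_one, if_true]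
      calc 1 = 1 * 1 := rfl
        _ ≤ (Nat.lcm a b / b) * pt u 0 := Nat.mul_le_mul h1' h2
        _ ≤ _ := Nat.le_add_left _ _
  have hmul : ∀ P Q : PowerSeries C, USmall P ϖ → USmall Q ϖ → USmall (P * Q) ϖ :=
    fun P Q hP hQ => (hEDIV C 1 P Q ϖ hϖ0 hP).2 hQ
  have hD1 : USmall ((DD1 q B B0 B1 : Polynomial C) : PowerSeries C) ϖ := by
    unfold DD1
    rw [pow_two]
    simp only [Polynomial.coe_mul]
    exact hmul _ _ (hmul _ _ (hmul _ _ (hsm q hqϖ) (hsm q hqϖ)) (hsmax 0 q hqϖ)) (hsmax 1 q hqϖ)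
  have hD3 : USmall ((DD3 q γ B B0 B1 : Polynomial C) : PowerSeries C) ϖ := by
    unfold DD3
    simp only [Polynomial.coe_mul]
    refine hmul _ _ (hmul _ _ (hmul _ _ (hsm _ hq2ϖ) (hsmax 0 _ hq2ϖ)) (hsmax 1 _ hq2ϖ)) ?_
    refine usmall_lin _ _ hϖ0 ?_
    rw [norm_mul, pow_two, norm_mul]
    by_cases hq0 : ‖q‖ = 0
    · rw [hq0]; simpa using hϖpos
    · have hqp : 0 < ‖q‖ := lt_of_le_of_ne (norm_nonneg _) (Ne.symm hq0)
      calc ‖q‖ * ‖q‖ * ‖γ‖ ≤ ‖q‖ * ‖q‖ * 1 := by gcongr
        _ = ‖q‖ * ‖q‖ := mul_one _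
        _ < 1 * ‖q‖ := by gcongr
        _ = ‖q‖ := one_mul _
        _ ≤ ‖ϖ‖ := hqϖ
  -- transfer
  have hedge2 : Edge (((B.charpolyRev * DD3 q γ B B0 B1 : Polynomial C)) : PowerSeries C) ϖ
      (Fintype.card {u : Fin 2 → Fin L // ew a b (pt u) < m})
      (Pmat (fun i => blk (fun u : Fin 2 → Fin L => ew a b (pt u)) m
        (Cmat p a b L ρ (F i))) h).charpolyRev m0 := by
    rw [Polynomial.coe_mul]
    exact ((hEDIV C _ _ 1 ϖ hϖ0 hD3).1 _ _ _).2 hedge
  have hclose : ∀ n, n ≤ m0 →
      ‖PowerSeries.coeff n (((revP β * DD1 q B B0 B1 : Polynomial C)) : PowerSeries C) -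
        PowerSeries.coeff n (((B.charpolyRev * DD3 q γ B B0 B1 : Polynomial C)) : PowerSeries C)‖
        < ‖ϖ‖ ^ m0 := by
    intro n hn
    rw [Polynomial.coeff_coe, Polynomial.coeff_coe]
    refine (h5 n).trans_lt ?_
    have hn0 : (n.factorial : C) ≠ 0 := by exact_mod_cast Nat.factorial_ne_zero n
    have hnpos : 0 < ‖(n.factorial : C)‖ := norm_pos_iff.2 hn0
    have hle : ‖(m0.factorial : C)‖ ≤ ‖(n.factorial : C)‖ := by
      obtain ⟨c, hc⟩ := Nat.factorial_dvd_factorial hn
      rw [hc]; push_cast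
      rw [norm_mul]
      exact mul_le_of_le_one_right (norm_nonneg _) (norm_natCast_le c)
    rw [div_lt_iff₀ hnpos, hε]
    have : 0 < ‖ϖ‖ ^ m0 := by positivity
    nlinarith
  have hedge3 := hECL C _ _ ϖ _ _ m0 hϖ0 hϖ1 hclose hedge2
  rw [Polynomial.coe_mul] at hedge3
  have hedge4 := ((hEDIV C _ _ 1 ϖ hϖ0 hD1).1 _ _ _).1 hedge3
  refine ⟨_, (hχB m hm1 hmD).1, fun hlt => hχA m hm1 hlt, ?_, ?_⟩
  · intro hmeq
    subst hmeq
    exact hχC
  rw [← (hREIDX p a b ha hb L m hmD hDL).1]
  exact hedge4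

theorem EDGP_thm (hTHETA : StmtTHETA) (hTRF : StmtTRF) (hDEG : StmtDEG) (hFIVE : StmtFIVE)
    (hWGT : StmtWGT) (hCHIP : StmtCHIP) (hLEAD : StmtLEAD) (hREIDX : StmtREIDX)
    (hEDGEM : StmtEDGEM) (hSMALL : StmtSMALL) (hAFAC : StmtAFAC) (hEDIV : StmtEDIV)
    (hECL : StmtECL) (hTEX : StmtTEX) (hZETA : StmtZETA)
    (hEXT : StmtEXT) (hPLAM : AST.StmtPLAM) (hESCAL : AST.StmtESCAL) : StmtEDGP := by
  intro p hp a b ha hb hdvd C _ _ _ _ hpC j hj k _ _ _ f hsupp hsep hdet ι ψ hψ β hβ
  have hcore := fun ρ hρ m hm1 hmD m0 => edge_core hTHETA hTRF hDEG hFIVE hWGT hCHIP hLEAD hREIDX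
    hEDGEM hSMALL hAFAC hEDIV hECL hTEX hZETA hEXT p a b ha hb hdvd C hpC j hj k f hsupp hsep hdet
    ι ψ hψ β hβ ρ hρ m hm1 hmD m0
  refine ⟨?_, ?_⟩
  · intro ρ hρ m hm1 hmD m0
    obtain ⟨χ, h1, h2, -, h4⟩ := hcore ρ hρ m hm1 hmD.le m0
    exact ⟨χ, (h2 hmD).1, h1, (h2 hmD).2, h4⟩
  · intro m0
    have hDpos : 0 < Nat.lcm a b := Nat.lcm_pos (by omega) (by omega)
    obtain ⟨ρ, hρ⟩ := IsAlgClosed.exists_pow_nat_eq (ψ 1 - 1) hDpos
    obtain ⟨χ, -, -, h3, h4⟩ := hcore ρ hρ (Nat.lcm a b) hDpos le_rfl m0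
    have h3 := h3 rfl
    have hprim := psi_prim ψ hψ
    obtain ⟨hz0, hz1, hz2, -⟩ := hZETA p C hpC (ψ 1) hprim
    obtain ⟨hl1, hl2⟩ := hPLAM p C hpC (ψ 1) hprim
    set h := Module.finrank (ZMod p) k with hh
    set η : C := ((p : C) / (ψ 1 - 1) ^ (p - 1)) ^ h with hη
    have hη1 : ‖η‖ = 1 := by rw [hη, norm_pow, hl1, one_pow]
    have hrdη : rd η = (-1) ^ h := by
      rw [hη, rd_pow hl1.le, hl2]
    have hρeq : ρ ^ ((p - 1) * Nat.lcm a b * h) = ((ψ 1 - 1) ^ (p - 1)) ^ h := by
      rw [← hρ, ← pow_mul, ← pow_mul]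
      congr 1
      ring
    have hlam : ((ψ 1 - 1) ^ (p - 1)) ^ h ≠ 0 := pow_ne_zero _ (pow_ne_zero _ hz0)
    have hcard : (Fintype.card k : C) = (p : C) ^ h := by
      rw [Module.card_eq_pow_finrank (K := ZMod p), ZMod.card]
      push_cast
      rfl
    have hw : 1 * ρ ^ ((p - 1) * Nat.lcm a b * h) * η = (Fintype.card k : C) := by
      rw [hρeq, hη, hcard, div_pow, one_mul, mul_div_cancel₀ _ hlam]
    have hρ0 : ρ ^ ((p - 1) * Nat.lcm a b * h) ≠ 0 := by rw [hρeq]; exact hlam
    have h5 := (hESCAL C (revP β : PowerSeries C) m0).2 1 _ η _ χ one_ne_zero hρ0 hη1 h4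
    rw [hw, hrdη, PowerSeries.rescale_one] at h5
    have h6 : χ.comp (Polynomial.C ((-1) ^ h : KK C)⁻¹ * Polynomial.X) =
        (((Fprod p (Hmat p a b (Nat.lcm a b) (Nat.lcm a b) f) h).map ι).charpolyRev) := by
      rw [h3, Polynomial.comp_assoc]
      have h7 : (Polynomial.C ((-1) ^ h : KK C) * Polynomial.X).comp
          (Polynomial.C ((-1) ^ h : KK C)⁻¹ * Polynomial.X) = Polynomial.X := by
        rw [Polynomial.mul_comp, Polynomial.C_comp, Polynomial.X_comp, ← mul_assoc,
          ← Polynomial.C_mul, mul_inv_cancel₀ (pow_ne_zero _ (neg_ne_zero.2 one_ne_zero)),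
          Polynomial.C_1, one_mul]
      rw [h7, Polynomial.comp_X]
    rw [h6] at h5
    exact h5

end ASP
end

section
/-!
# MP_b685ef_ag, theorem AS+, module FINALP

The theorem over an arbitrary algebraically closed field of characteristic zero.
-/
set_option linter.all false

namespace ASP

open Finset ASur

universe u v

theorem finalp_alg {p : ℕ} [Fact p.Prime] {K : Type*} [Field K] [CharZero K]
    (ψ : AddChar (ZMod p) K) (x : ZMod p) : IsAlgebraic ℚ (ψ x) := by
  have h1 : (ψ x) ^ p = 1 := by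
    rw [← AddChar.map_nsmul_eq_pow]
    simp
  have : IsIntegral ℚ (ψ x) := by
    refine IsIntegral.of_pow (Fact.out : p.Prime).pos ?_
    rw [h1]
    exact isIntegral_one
  exact this.isAlgebraic

theorem finalp_alg_Sf {p : ℕ} [Fact p.Prime] {K : Type*} [Field K] [CharZero K]
    (ψ : AddChar (ZMod p) K) {k : Type} [Field k] (f : MvPolynomial (Fin 2) k)
    (E : Type) [Field E] [Fintype E] [Algebra (ZMod p) E] [Algebra k E] :
    IsAlgebraic ℚ (Sf ψ f E) := by
  unfold Sf
  refine IsIntegral.isAlgebraic ?_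
  refine IsIntegral.sum _ fun x _ => ?_
  exact (finalp_alg ψ _).isIntegral

/-- The roots of a monic polynomial over a subfield which contains them are carried over. -/
theorem finalp_roots {K C : Type*} [Field K] [IsAlgClosed K] [Field C] (A : Subfield K)
    (g : A →+* C) (P : Polynomial A) (hP : P.Monic)
    (hr : ∀ x ∈ (P.map A.subtype).roots, x ∈ A) :
    ∃ R : Multiset A, R.map (fun x : A => (x : K)) = (P.map A.subtype).roots ∧
      R.map g = (P.map g).roots := by
  obtain ⟨R, hR⟩ : ∃ R : Multiset A, R.map (fun x : A => (x : K)) = (P.map A.subtype).roots := by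
    refine ⟨(P.map A.subtype).roots.attach.map fun x => ⟨x.1, hr x.1 x.2⟩, ?_⟩
    simp only [Multiset.map_map, Function.comp]
    exact Multiset.attach_map_val _
  refine ⟨R, hR, ?_⟩
  have h1 : P.map A.subtype = ((R.map fun x : A => Polynomial.X - Polynomial.C x).prod).map
      A.subtype := by
    rw [(IsAlgClosed.splits (P.map A.subtype)).eq_prod_roots_of_monic (hP.map _), ← hR,
      Multiset.map_map, Polynomial.map_multiset_prod, Multiset.map_map]
    congr 1
    refine Multiset.map_congr rfl fun x _ => ?_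
    simp
  have h2 : P = (R.map fun x : A => Polynomial.X - Polynomial.C x).prod :=
    Polynomial.map_injective A.subtype A.subtype.injective h1
  have h3 : P.map g = ((R.map g).map fun x : C => Polynomial.X - Polynomial.C x).prod := by
    rw [h2, Polynomial.map_multiset_prod, Multiset.map_map, Multiset.map_map]
    congr 1
    refine Multiset.map_congr rfl fun x _ => ?_
    simp
  rw [h3, Polynomial.roots_multiset_prod_X_sub_C]

/-- The theorem over an algebraically closed field `K`, for multisets. -/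
theorem finalp_multiset (hCORE : StmtCOREP) (hK2C : StmtK2C.{u}) (hEXT : StmtEXT)
    (p : ℕ) [Fact p.Prime] (a b : ℕ) (ha : 2 ≤ a) (hb : 2 ≤ b) (hD : Nat.lcm a b ∣ p - 1)
    (k : Type) [Field k] [Fintype k] [Algebra (ZMod p) k] (f : MvPolynomial (Fin 2) k)
    (hf : ∀ m ∈ f.support, ew a b m ≤ Nat.lcm a b)
    (hS : ∀ m, 1 ≤ m → m < Nat.lcm a b → (Polynomial.X *
      (Fprod p (Hmat p a b (Nat.lcm a b) m f) (Module.finrank (ZMod p) k)).charpoly).Separable)
    (hdeg : (GF a b f).natDegree = Nat.gcd a b) (hsq : Squarefree (GF a b f))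
    (F₁ F₂ : Multiset (Polynomial k)) (hirr : ∀ P ∈ F₁ + F₂, Irreducible P)
    (hprod : (F₁ + F₂).prod = GF a b f)
    (hF₁ : Multiset.card F₁ = 1 ∨
      ∃ P₁ P₂ : Polynomial k, F₁ = {P₁, P₂} ∧ Nat.Coprime P₁.natDegree P₂.natDegree)
    (K : Type u) [Field K] [IsAlgClosed K] [CharZero K] (ψ : AddChar (ZMod p) K) (hψ : ψ ≠ 1)
    (β β' : Multiset K) (hβ0 : ∀ x ∈ β, x ≠ 0)
    (hT : ∀ (E : Type) [Field E] [Fintype E] [Algebra (ZMod p) E] [Algebra k E],
      (β.map fun x => x ^ Module.finrank k E).sum = Sf ψ f E ∧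
      ((Fintype.card k : K) ^ Module.finrank k E) ^ 2 *
        (β.map fun x => (x⁻¹) ^ Module.finrank k E).sum = Sf ψ⁻¹ f E)
    (hββ : β = β' + (F₂.map fun P => (Polynomial.X ^ P.natDegree -
      Polynomial.C ((Fintype.card k : K) ^ P.natDegree)).roots).sum) :
    Multiset.card β = (a - 1) * (b - 1) ∧ β'.Nodup := by
  let C := PadicAlgCl p
  obtain ⟨A, g, hA, hβA⟩ := hK2C K C β (by
    intro j hj
    obtain ⟨E, _, _, _, _, hE⟩ := hEXT p k j hj
    have := (hT E).1
    rw [hE] at this
    rw [this]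
    exact finalp_alg_Sf ψ f E)
  have hmem : ∀ x : ZMod p, ψ x ∈ A := fun x => hA _ (finalp_alg ψ x)
  -- the characters over C
  let tr : AddChar (ZMod p) K → AddChar (ZMod p) C := fun χ =>
    { toFun := fun x => g ⟨χ x, hA _ (finalp_alg χ x)⟩
      map_zero_eq_one' := by
        rw [← map_one g]
        congr 1
        apply Subtype.ext
        simp
      map_add_eq_mul' := by
        intro x y
        rw [← map_mul g]
        congr 1
        apply Subtype.ext
        simp [AddChar.map_add_eq_mul] }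
  have htr : ∀ χ : AddChar (ZMod p) K, ∀ x, (tr χ) x = g ⟨χ x, hA _ (finalp_alg χ x)⟩ :=
    fun _ _ => rfl
  have hginj : Function.Injective g := g.injective
  have hψ' : tr ψ ≠ 1 := by
    intro h
    apply hψ
    ext x
    have h1 : (tr ψ) x = 1 := by rw [h]; rfl
    rw [htr, ← map_one g] at h1
    have := congrArg Subtype.val (hginj h1)
    simpa using this
  have htinv : tr ψ⁻¹ = (tr ψ)⁻¹ := by
    ext x
    rw [AddChar.inv_apply, htr, htr]
    congr 1
  -- the multiset over A
  obtain ⟨βA', hβA'⟩ : ∃ βA' : Multiset A, βA'.map (fun x : A => (x : K)) = β' := by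
    have hm : ∀ x ∈ β', x ∈ A := fun x hx => hβA x (by
      rw [hββ]
      exact Multiset.mem_add.2 (Or.inl hx))
    refine ⟨β'.attach.map fun x => ⟨x.1, hm x.1 x.2⟩, ?_⟩
    simp only [Multiset.map_map, Function.comp]
    exact Multiset.attach_map_val β'
  -- the roots of unity part
  have hR : ∀ P : Polynomial k, P.natDegree ≠ 0 → ∃ R : Multiset A,
      R.map (fun x : A => (x : K)) = (Polynomial.X ^ P.natDegree -
        Polynomial.C ((Fintype.card k : K) ^ P.natDegree)).roots ∧
      R.map g = (Polynomial.X ^ P.natDegree -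
        Polynomial.C ((Fintype.card k : C) ^ P.natDegree)).roots := by
    intro P hP
    have hmon : (Polynomial.X ^ P.natDegree -
        Polynomial.C ((Fintype.card k : A) ^ P.natDegree)).Monic :=
      Polynomial.monic_X_pow_sub_C _ hP
    have e1 : (Polynomial.X ^ P.natDegree -
        Polynomial.C ((Fintype.card k : A) ^ P.natDegree)).map A.subtype =
        Polynomial.X ^ P.natDegree - Polynomial.C ((Fintype.card k : K) ^ P.natDegree) := by
      rw [Polynomial.map_sub, Polynomial.map_pow, Polynomial.map_X, Polynomial.map_C, map_pow,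
        map_natCast]
    have e2 : (Polynomial.X ^ P.natDegree -
        Polynomial.C ((Fintype.card k : A) ^ P.natDegree)).map g =
        Polynomial.X ^ P.natDegree - Polynomial.C ((Fintype.card k : C) ^ P.natDegree) := by
      rw [Polynomial.map_sub, Polynomial.map_pow, Polynomial.map_X, Polynomial.map_C, map_pow,
        map_natCast]
    obtain ⟨R, h1, h2⟩ := finalp_roots A g _ hmon (by
      intro x hx
      rw [e1] at hx
      apply hA
      have hx' := (Polynomial.mem_roots'.1 hx).2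
      rw [Polynomial.IsRoot.def] at hx'
      have hx'' : x ^ P.natDegree = (Fintype.card k : K) ^ P.natDegree := by
        rw [Polynomial.eval_sub, Polynomial.eval_pow, Polynomial.eval_X, Polynomial.eval_C] at hx'
        exact sub_eq_zero.1 hx'
      have : IsIntegral ℚ x := by
        refine IsIntegral.of_pow (Nat.pos_of_ne_zero hP) ?_
        rw [hx'', ← Nat.cast_pow]
        have := isIntegral_algebraMap (R := ℚ) (A := K)
          (x := (((Fintype.card k) ^ P.natDegree : ℕ) : ℚ))
        rwa [map_natCast] at this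
      exact this.isAlgebraic)
    exact ⟨R, by rw [h1, e1], by rw [h2, e2]⟩
  have hF₂0 : ∀ P ∈ F₂, P.natDegree ≠ 0 := by
    intro P hP h0
    have hi := hirr P (Multiset.mem_add.2 (Or.inr hP))
    exact absurd h0 (Nat.pos_iff_ne_zero.1 hi.natDegree_pos)
  obtain ⟨RA, hRA1, hRA2⟩ : ∃ RA : Multiset A, RA.map (fun x : A => (x : K)) =
      (F₂.map fun P => (Polynomial.X ^ P.natDegree -
        Polynomial.C ((Fintype.card k : K) ^ P.natDegree)).roots).sum ∧
      RA.map g = (F₂.map fun P => (Polynomial.X ^ P.natDegree -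
        Polynomial.C ((Fintype.card k : C) ^ P.natDegree)).roots).sum := by
    revert hF₂0
    clear hββ hirr hprod
    induction F₂ using Multiset.induction_on with
    | empty => intro _; exact ⟨0, by simp, by simp⟩
    | cons P F ih =>
      intro h0
      obtain ⟨R, h1, h2⟩ := ih fun Q hQ => h0 Q (Multiset.mem_cons_of_mem hQ)
      obtain ⟨S, s1, s2⟩ := hR P (h0 P (Multiset.mem_cons_self P F))
      refine ⟨S + R, ?_, ?_⟩
      · rw [Multiset.map_add, Multiset.map_cons, Multiset.sum_cons, h1, s1]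
      · rw [Multiset.map_add, Multiset.map_cons, Multiset.sum_cons, h2, s2]
  set βA : Multiset A := βA' + RA with hβAdef
  have hβAK : βA.map (fun x : A => (x : K)) = β := by
    rw [hβAdef, Multiset.map_add, hβA', hRA1, hββ]
  have hSf : ∀ (χ : AddChar (ZMod p) K) (E : Type) [Field E] [Fintype E] [Algebra (ZMod p) E]
      [Algebra k E], ∃ s : A, (s : K) = Sf χ f E ∧ g s = Sf (tr χ) f E := by
    intro χ E _ _ _ _
    refine ⟨∑ x : Fin 2 → E, ⟨χ (Algebra.trace (ZMod p) E (MvPolynomial.aeval x f)),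
      hA _ (finalp_alg χ _)⟩, ?_, ?_⟩
    · unfold Sf
      push_cast
      rfl
    · unfold Sf
      rw [map_sum]
      rfl
  have hp : ‖(p : C)‖ < 1 := by
    have h1 : ((algebraMap ℚ_[p] (PadicAlgCl p)) (p : ℚ_[p])) = (p : PadicAlgCl p) := by simp
    have h2 := PadicAlgCl.norm_extends p (p : ℚ_[p])
    have h3 : ‖(p : PadicAlgCl p)‖ = ‖(p : ℚ_[p])‖ := by rw [← h2]; congr 1
    show ‖(p : PadicAlgCl p)‖ < 1
    rw [h3]
    exact Padic.norm_p_lt_one
  let j : ℤ_[p] →+* C := (algebraMap ℚ_[p] (PadicAlgCl p)).comp PadicInt.Coe.ringHom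
  have hj : ∀ x, ‖j x‖ ≤ 1 := by
    intro x
    have h2 := PadicAlgCl.norm_extends p (x : ℚ_[p])
    exact h2.trans_le x.norm_le_one
  have hA0 : ∀ x ∈ βA, x ≠ 0 := by
    intro x hx h0
    have : (x : K) ∈ β := by
      rw [← hβAK]
      exact Multiset.mem_map_of_mem _ hx
    exact hβ0 _ this (by rw [h0]; rfl)
  obtain ⟨R1, R2⟩ := hCORE p a b ha hb hD C hp j hj k f hf hS hdeg hsq F₁ F₂ hirr hprod hF₁
    (tr ψ) hψ' (βA.map g) (βA'.map g)
    (by
      intro y hy
      obtain ⟨x, hx, rfl⟩ := Multiset.mem_map.1 hy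
      exact (map_ne_zero g).2 (hA0 x hx))
    (by
      intro E _ _ _ _
      obtain ⟨t1, t2⟩ := hT E
      obtain ⟨s, hs1, hs2⟩ := hSf ψ E
      obtain ⟨s', hs1', hs2'⟩ := hSf ψ⁻¹ E
      have hsumA : ∀ m : Multiset A, ((m.sum : A) : K) = (m.map fun x : A => (x : K)).sum :=
        fun m => map_multiset_sum (A.subtype) m
      have e1 : (βA.map fun x => x ^ Module.finrank k E).sum = s := by
        apply Subtype.ext
        rw [hs1, ← t1, ← hβAK, Multiset.map_map, hsumA, Multiset.map_map]
        rfl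
      have e2 : ((Fintype.card k : A) ^ Module.finrank k E) ^ 2 *
          (βA.map fun x => (x⁻¹) ^ Module.finrank k E).sum = s' := by
        apply Subtype.ext
        rw [hs1', ← t2, ← hβAK, Multiset.map_map]
        have hc : (((Fintype.card k : A) ^ Module.finrank k E) ^ 2 : K) =
          ((Fintype.card k : K) ^ Module.finrank k E) ^ 2 := by push_cast; rfl
        rw [Subfield.coe_mul, hsumA, Multiset.map_map]
        rfl
      constructor
      · rw [← hs2, ← e1, map_multiset_sum, Multiset.map_map, Multiset.map_map]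
        congr 1
        refine Multiset.map_congr rfl fun x _ => ?_
        simp only [Function.comp, map_pow]
      · rw [← htinv, ← hs2', ← e2, map_mul, map_pow, map_pow, map_natCast, map_multiset_sum,
          Multiset.map_map, Multiset.map_map]
        congr 2
        refine Multiset.map_congr rfl fun x _ => ?_
        simp only [Function.comp, map_pow, map_inv₀])
    (by rw [hβAdef, Multiset.map_add, hRA2])
  constructor
  · rw [← R1, Multiset.card_map, ← hβAK, Multiset.card_map]
  · rw [← hβA']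
    exact (Multiset.Nodup.of_map g R2).map Subtype.val_injective

theorem FINALP_thm (hCORE : StmtCOREP) (hK2C : StmtK2C.{u}) (hLINALG : StmtLINALG.{u, v})
    (hEXT : StmtEXT) : StmtFINALP.{u, v} := by
  intro p _ a b ha hb hD k _ _ _ f hf hS hdeg hsq F₁ F₂ hirr hprod hF₁ K _ _ _ ψ hψ V _ _ _ φ
    hT Q hQ
  obtain ⟨L0, L1, L2, L3, L4⟩ := hLINALG K V φ
  have hc0 : LinearMap.charpoly (φ : V →ₗ[K] V) ≠ 0 := (LinearMap.charpoly_monic _).ne_zero
  have hQ0 : Q ≠ 0 := by
    rintro rfl
    rw [zero_mul] at hQ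
    exact hc0 hQ
  have hroots : (LinearMap.charpoly (φ : V →ₗ[K] V)).roots = Q.roots + (F₂.map fun P =>
      (Polynomial.X ^ P.natDegree -
        Polynomial.C ((Fintype.card k : K) ^ P.natDegree)).roots).sum := by
    have h1 := hc0
    rw [hQ] at h1
    rw [hQ, Polynomial.roots_mul h1, Polynomial.roots_multiset_prod]
    · rw [Multiset.bind, Multiset.map_map]
      rfl
    · intro h0
      obtain ⟨P, hP, hP0⟩ := Multiset.mem_map.1 h0
      have hi := hirr P (Multiset.mem_add.2 (Or.inr hP))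
      exact (Polynomial.monic_X_pow_sub_C ((Fintype.card k : K) ^ P.natDegree)
        (Nat.pos_iff_ne_zero.1 hi.natDegree_pos)).ne_zero hP0
  obtain ⟨R1, R2⟩ := finalp_multiset hCORE hK2C hEXT p a b ha hb hD k f hf hS hdeg hsq F₁ F₂
    hirr hprod hF₁ K ψ hψ (LinearMap.charpoly (φ : V →ₗ[K] V)).roots Q.roots L0 (by
      intro E _ _ _ _
      obtain ⟨t1, t2⟩ := hT E
      rw [← L2, ← L3]
      refine ⟨t1, ?_⟩
      rw [← t2]
      congr 2
      have := Module.card_eq_pow_finrank (K := k) (V := E)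
      rw [this]
      push_cast
      rfl) hroots
  exact ⟨by rw [← L1, R1], (Polynomial.nodup_roots_iff_of_splits hQ0 (IsAlgClosed.splits Q)).1 R2⟩

end ASP
end
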