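import Pool.Agent.Lib.MP_b685ef_ag.ASP.Spec
import Pool.Agent.Lib.MP_b685ef_ag.AS.Main
import Pool.Agent.Lib.MP_b685ef_ag.AST.Main
import Pool.Agent.Lib.MP_b685ef_ag.ASP.FINALP

section
set_option linter.all false

namespace ASP

open Finset ASur

namespace HalfP

theorem card_succ (a b L m : ℕ) :
    Fintype.card {u : Fin 2 → Fin L // ew a b (pt u) < m + 1} =
      Fintype.card {u : Fin 2 → Fin L // ew a b (pt u) < m} + Fintype.card (Um a b L m) := by
  simp only [Fintype.card_subtype]
  rw [← Finset.card_union_of_disjoint]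
  · congr 1
    ext u
    simp only [Finset.mem_filter, Finset.mem_univ, true_and, Finset.mem_union]
    omega
  · rw [Finset.disjoint_filter]
    intro u _ h1 h2
    omega

theorem card_one {a b : ℕ} (ha : 2 ≤ a) (hb : 2 ≤ b) (D : ℕ) :
    Fintype.card {u : Fin 2 → Fin D // ew a b (pt u) < 1} = 0 := by
  rw [Fintype.card_eq_zero_iff]
  refine ⟨fun u => ?_⟩
  have := ew_pt_pos ha hb u.1
  have := u.2
  omega

theorem prim {p : ℕ} [Fact p.Prime] {K : Type*} [Field K] (ψ : AddChar (ZMod p) K)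
    (hψ : ψ ≠ 1) : IsPrimitiveRoot (ψ 1) p := by
  have h1 : (ψ 1) ^ p = 1 := by
    rw [← AddChar.map_nsmul_eq_pow]
    simp
  have h2 : ψ 1 ≠ 1 := by
    intro h
    apply hψ
    ext x
    have : x = x.val • (1 : ZMod p) := by simp
    rw [this, AddChar.map_nsmul_eq_pow, h]
    simp
  exact IsPrimitiveRoot.iff_orderOf.2 (orderOf_eq_prime h1 h2)

theorem det_Fprod {p : ℕ} [Fact p.Prime] {ι k : Type} [Fintype ι] [DecidableEq ι] [Field k]
    [CharP k p] (M : Matrix ι ι k) (hM : M.det ≠ 0) : ∀ n : ℕ, (Fprod p M n).det ≠ 0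
  | 0 => by
    rw [show Fprod p M 0 = 1 from rfl, Matrix.det_one]
    exact one_ne_zero
  | n + 1 => by
    rw [show Fprod p M (n + 1) = (M.map fun x => x ^ (p ^ n)) * Fprod p M n from rfl,
      Matrix.det_mul]
    refine mul_ne_zero ?_ (det_Fprod M hM n)
    haveI : ExpChar k p := ExpChar.prime (Fact.out : p.Prime)
    have e : (M.map fun x => x ^ (p ^ n)) = (iterateFrobenius k p n).mapMatrix M := by
      ext i j
      simp [iterateFrobenius_def]
    rw [e, ← RingHom.map_det, iterateFrobenius_def]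
    exact pow_ne_zero _ hM

theorem rev_lin {K : Type*} [Field K] (r : K) :
    (Polynomial.X - Polynomial.C r : Polynomial K).reverse =
      1 - Polynomial.C r * Polynomial.X := by
  ext n
  rw [Polynomial.coeff_reverse, Polynomial.natDegree_X_sub_C]
  rcases n with _ | _ | n
  · simp [Polynomial.revAt_le, Polynomial.coeff_X, Polynomial.coeff_C]
  · simp [Polynomial.revAt_le, Polynomial.coeff_X, Polynomial.coeff_C, Polynomial.coeff_one]
  · rw [Polynomial.revAt_eq_self_of_lt (by omega)]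
    simp [Polynomial.coeff_X, Polynomial.coeff_C, Polynomial.coeff_one]

theorem rev_prod {K : Type*} [Field K] (R : Multiset K) :
    ((R.map fun r => (Polynomial.X - Polynomial.C r : Polynomial K)).prod).reverse =
      (R.map fun r => (1 - Polynomial.C r * Polynomial.X : Polynomial K)).prod := by
  induction R using Multiset.induction with
  | empty =>
    simp only [Multiset.map_zero, Multiset.prod_zero]
    have := Polynomial.reverse_C (1 : K)
    simpa using this
  | cons a s ih =>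
    rw [Multiset.map_cons, Multiset.prod_cons, Multiset.map_cons, Multiset.prod_cons,
      Polynomial.reverse_mul_of_domain, ih, rev_lin]

theorem charpolyRev_roots {K : Type*} [Field K] [IsAlgClosed K] {ι : Type*} [Fintype ι]
    [DecidableEq ι] (N : Matrix ι ι K) :
    N.charpolyRev = (N.charpoly.roots.map fun r =>
      (1 - Polynomial.C r * Polynomial.X : Polynomial K)).prod := by
  rw [← Matrix.reverse_charpoly, ← rev_prod]
  congr 1
  exact (IsAlgClosed.splits N.charpoly).eq_prod_roots_of_monic N.charpoly_monic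

theorem roots_ne {K : Type*} [Field K] {ι : Type*} [Fintype ι]
    [DecidableEq ι] (N : Matrix ι ι K) (hN : N.det ≠ 0) : ∀ r ∈ N.charpoly.roots, r ≠ 0 := by
  rintro r hr rfl
  apply hN
  rw [Matrix.det_eq_sign_charpoly_coeff, Polynomial.coeff_zero_eq_eval_zero,
    (Polynomial.mem_roots'.1 hr).2.eq_zero, mul_zero]

end HalfP

theorem halfp_thm (hEDGP : StmtEDGP) (hROOTS : ASur.StmtROOTS) (hERES : AST.StmtERES)
    (hZETA : ASur.StmtZETA) (hKAC : ASur.StmtKAC) : StmtHALFP := by
  classical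
  intro p _ a b ha hb hD C _ _ _ _ hp j hj k _ _ _ f hf hS hdet ι ψ hψ β hT
  have hDpos : 0 < Nat.lcm a b := Nat.lcm_pos (by omega) (by omega)
  haveI : IsAlgClosed (KK C) := hKAC C
  haveI : CharP k p := charP_of_injective_algebraMap (algebraMap (ZMod p) k).injective p
  obtain ⟨ρ, hρ⟩ := IsAlgClosed.exists_pow_nat_eq (ψ 1 - 1) hDpos
  obtain ⟨hz0, hz1, hz2, -⟩ := hZETA p C hp (ψ 1) (HalfP.prim ψ hψ)
  have hρ0 : ρ ≠ 0 := by
    rintro rfl
    apply hz0
    rw [← hρ, zero_pow hDpos.ne']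
  have hρ1 : ‖ρ‖ < 1 := by
    by_contra h
    push Not at h
    have : 1 ≤ ‖ρ ^ Nat.lcm a b‖ := by
      rw [norm_pow]; exact one_le_pow₀ h
    rw [hρ] at this
    linarith
  have hρpos : 0 < ‖ρ‖ := norm_pos_iff.2 hρ0
  obtain ⟨E1, E2⟩ := hEDGP p a b ha hb hD C hp j hj k f hf hS hdet ι ψ hψ β hT
  set h := Module.finrank (ZMod p) k with hh
  have hcard : Fintype.card k = p ^ h := by
    have := Module.card_eq_pow_finrank (K := ZMod p) (V := k)
    rwa [ZMod.card] at this
  have hhpos : 1 ≤ h := Module.finrank_pos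
  have hp2 : 2 ≤ p := (Fact.out : p.Prime).two_le
  set D := Nat.lcm a b with hDdef
  have hq : ‖ρ ^ ((p - 1) * D * h)‖ = ‖(Fintype.card k : C)‖ := by
    rw [hcard]
    push_cast
    rw [norm_pow, norm_pow, show (p - 1) * D * h = D * ((p - 1) * h) by ring, pow_mul,
      ← norm_pow, hρ, pow_mul, hz2]
  have hw0 : (Fintype.card k : C) ≠ 0 := by
    rw [Nat.cast_ne_zero]; exact Fintype.card_ne_zero
  have hw1 : ‖(Fintype.card k : C)‖ ≤ 1 := by
    rw [← hq, norm_pow]; exact pow_le_one₀ hρpos.le hρ1.le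
  have hD2 : 2 ≤ D := le_trans ha (Nat.le_of_dvd hDpos (Nat.dvd_lcm_left a b))
  -- the level `D`
  set N : Matrix (Um a b D D) (Um a b D D) (KK C) := (Fprod p (Hmat p a b D D f) h).map ι
    with hN
  have hNdet : N.det ≠ 0 := by
    have e : N = ι.mapMatrix (Fprod p (Hmat p a b D D f) h) := rfl
    rw [e, ← RingHom.map_det]
    exact (map_ne_zero ι).2 (HalfP.det_Fprod _ hdet h)
  obtain ⟨K1, K2⟩ := hERES C β (Fintype.card k : C)
    (Fintype.card {u : Fin 2 → Fin D // ew a b (pt u) < D}) N.charpoly.roots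
    (max (Multiset.card β) (Fintype.card {u : Fin 2 → Fin D // ew a b (pt u) < D} +
      Multiset.card N.charpoly.roots)) hw0 hw1 (HalfP.roots_ne N hNdet) (le_max_left _ _)
    (le_max_right _ _) (by rw [← HalfP.charpolyRev_roots]; exact E2 _)
  -- edges
  have key : ∀ m, 1 ≤ m → m < D →
      Multiset.card (β.filter fun x => ‖ρ ^ ((p - 1) * m * h)‖ < ‖x‖) =
        Fintype.card {u : Fin 2 → Fin D // ew a b (pt u) < m} ∧
      Multiset.card (β.filter fun x => ‖x‖ = ‖ρ ^ ((p - 1) * m * h)‖) =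
        Fintype.card (Um a b D m) ∧
      (β.filter fun x => ‖x‖ = ‖ρ ^ ((p - 1) * m * h)‖).Nodup := by
    intro m hm hmD
    obtain ⟨χ, h1, h2, h3, h4⟩ := E1 ρ hρ m hm hmD
      (max (Multiset.card β) (Fintype.card {u : Fin 2 → Fin D // ew a b (pt u) < m} +
        Fintype.card (Um a b D m)))
    have := hROOTS C β (ρ ^ ((p - 1) * m * h))
      (Fintype.card {u : Fin 2 → Fin D // ew a b (pt u) < m}) χ _ (pow_ne_zero _ hρ0) h1 h2
      (le_max_left _ _) (by rw [h3]; exact le_max_right _ _) h4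
    rw [h3] at this
    exact this
  have key1 : ∀ m, 1 ≤ m → m ≤ D →
      Multiset.card (β.filter fun x => ‖ρ ^ ((p - 1) * m * h)‖ < ‖x‖) =
        Fintype.card {u : Fin 2 → Fin D // ew a b (pt u) < m} := by
    intro m hm hmD
    rcases hmD.lt_or_eq with hlt | rfl
    · exact (key m hm hlt).1
    · rw [hq]; exact K1
  have hanti : ∀ m, ‖ρ ^ ((p - 1) * (m + 1) * h)‖ < ‖ρ ^ ((p - 1) * m * h)‖ := by
    intro m
    rw [norm_pow, norm_pow]
    apply pow_lt_pow_right_of_lt_one₀ hρpos hρ1
    have h1 : 0 < (p - 1) * h := by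
      apply Nat.mul_pos <;> omega
    nlinarith
  have notmem : ∀ m, 1 ≤ m → m + 1 ≤ D → ∀ x, ‖ρ ^ ((p - 1) * (m + 1) * h)‖ < ‖x‖ →
      ‖x‖ < ‖ρ ^ ((p - 1) * m * h)‖ → x ∉ β := by
    intro m hm hmD x hx hx2 hxβ
    obtain ⟨g1, g2, g3⟩ := key m hm (by omega)
    have h1 := key1 (m + 1) (by omega) hmD
    have e1 : β.filter (fun x => ‖ρ ^ ((p - 1) * m * h)‖ < ‖x‖) +
        β.filter (fun x => ‖x‖ = ‖ρ ^ ((p - 1) * m * h)‖) ≤
        β.filter (fun x => ‖ρ ^ ((p - 1) * (m + 1) * h)‖ < ‖x‖) := by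
      rw [Multiset.le_iff_count]
      intro y
      rw [Multiset.count_add]
      simp only [Multiset.count_filter]
      have hlt := hanti m
      by_cases c1 : ‖ρ ^ ((p - 1) * m * h)‖ < ‖y‖
      · rw [if_pos c1, if_neg (by linarith), if_pos (by linarith)]
        omega
      · by_cases c2 : ‖y‖ = ‖ρ ^ ((p - 1) * m * h)‖
        · rw [if_neg c1, if_pos c2, if_pos (by linarith)]
          omega
        · rw [if_neg c1, if_neg c2]
          omega
    have e2 : β.filter (fun x => ‖ρ ^ ((p - 1) * m * h)‖ < ‖x‖) +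
        β.filter (fun x => ‖x‖ = ‖ρ ^ ((p - 1) * m * h)‖) =
        β.filter (fun x => ‖ρ ^ ((p - 1) * (m + 1) * h)‖ < ‖x‖) := by
      apply Multiset.eq_of_le_of_card_le e1
      rw [Multiset.card_add, h1, g1, g2, HalfP.card_succ]
    have e3 : x ∈ β.filter (fun x => ‖ρ ^ ((p - 1) * (m + 1) * h)‖ < ‖x‖) :=
      Multiset.mem_filter.2 ⟨hxβ, hx⟩
    rw [← e2, Multiset.mem_add, Multiset.mem_filter, Multiset.mem_filter] at e3
    rcases e3 with e3 | e3
    · linarith [e3.2]
    · linarith [e3.2]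
  have claim : ∀ m, 1 ≤ m → m < D → ∀ x, ‖ρ ^ ((p - 1) * m * h)‖ ≤ ‖x‖ → β.count x ≤ 1 := by
    intro m hm
    induction m, hm using Nat.le_induction with
    | base =>
      intro hmD x hx
      obtain ⟨h1, h2, h3⟩ := key 1 le_rfl hmD
      rcases lt_or_eq_of_le hx with hx | hx
      · rw [HalfP.card_one ha hb, Multiset.card_eq_zero] at h1
        have : x ∉ β := by
          intro hxβ
          have : x ∈ β.filter fun x => ‖ρ ^ ((p - 1) * 1 * h)‖ < ‖x‖ :=
            Multiset.mem_filter.2 ⟨hxβ, hx⟩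
          rw [h1] at this
          simp at this
        rw [Multiset.count_eq_zero_of_notMem this]
        omega
      · have := Multiset.nodup_iff_count_le_one.1 h3 x
        rwa [Multiset.count_filter, if_pos hx.symm] at this
    | succ m hm ih =>
      intro hmD x hx
      obtain ⟨h1, h2, h3⟩ := key (m + 1) (by omega) hmD
      rcases lt_or_eq_of_le hx with hx | hx
      · by_cases hx2 : ‖ρ ^ ((p - 1) * m * h)‖ ≤ ‖x‖
        · exact ih (by omega) x hx2
        · push Not at hx2
          rw [Multiset.count_eq_zero_of_notMem (notmem m hm hmD.le x hx hx2)]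
          omega
      · have := Multiset.nodup_iff_count_le_one.1 h3 x
        rwa [Multiset.count_filter, if_pos hx.symm] at this
  refine ⟨K1, ?_, K2⟩
  rw [Multiset.nodup_iff_count_le_one]
  intro x
  by_cases hx : ‖(Fintype.card k : C)‖ < ‖x‖
  · rw [Multiset.count_filter, if_pos hx]
    by_cases hx2 : ‖ρ ^ ((p - 1) * (D - 1) * h)‖ ≤ ‖x‖
    · exact claim (D - 1) (by omega) (by omega) x hx2
    · push Not at hx2
      have hDD : D - 1 + 1 = D := by omega
      rw [Multiset.count_eq_zero_of_notMem (notmem (D - 1) (by omega) (by omega) x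
        (by rw [hDD, hq]; exact hx) hx2)]
      omega
  · rw [Multiset.count_filter, if_neg hx]
    omega

end ASP
end

section
/-!
# MP_b685ef_ag, theorem AS+, module HGI: the index change at the level `D`
-/
set_option linter.all false

namespace ASP

open Finset ASur

namespace HGIaux

variable {k : Type} [Field k]

/-- The substitution `X ↦ x^{a'}`, `Y ↦ y^{b'}`. -/
noncomputable def sub2 (a' b' : ℕ) : MvPolynomial (Fin 2) k →ₐ[k] MvPolynomial (Fin 2) k :=
  MvPolynomial.aeval ![MvPolynomial.X 0 ^ a', MvPolynomial.X 1 ^ b']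

theorem vec2 (x y : ℕ) : (Finsupp.equivFunOnFinite.symm ![x, y] : Fin 2 →₀ ℕ) =
    Finsupp.single 0 x + Finsupp.single 1 y := by
  ext s
  fin_cases s <;> simp

theorem sub2_monomial (a' b' : ℕ) (m : Fin 2 →₀ ℕ) (c : k) :
    sub2 a' b' (MvPolynomial.monomial m c) =
      MvPolynomial.monomial (Finsupp.equivFunOnFinite.symm ![a' * m 0, b' * m 1]) c := by
  rw [sub2, MvPolynomial.aeval_monomial, Finsupp.prod_fintype _ _ (by intro i; simp),
    Fin.prod_univ_two]
  simp only [Matrix.cons_val_zero, Matrix.cons_val_one, MvPolynomial.algebraMap_eq]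
  rw [← pow_mul, ← pow_mul, vec2, MvPolynomial.monomial_eq, Finsupp.prod_fintype _ _ (by intro i; simp),
    Fin.prod_univ_two]
  simp

theorem coeff_sub2 (a' b' : ℕ) (ha : 0 < a') (hb : 0 < b') (F : MvPolynomial (Fin 2) k)
    (s t : ℕ) : cf (sub2 a' b' F) ![a' * s, b' * t] = cf F ![s, t] := by
  induction F using MvPolynomial.induction_on' with
  | monomial m c =>
    rw [sub2_monomial]
    simp only [cf, MvPolynomial.coeff_monomial]
    congr 1
    apply propext
    constructor
    · intro h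
      have h0 := DFunLike.congr_fun h 0
      have h1 := DFunLike.congr_fun h 1
      simp at h0 h1
      ext i
      fin_cases i
      · rcases h0 with h0 | h0
        · simpa using h0
        · omega
      · rcases h1 with h1 | h1
        · simpa using h1
        · omega
    · intro h
      have h0 := DFunLike.congr_fun h 0
      have h1 := DFunLike.congr_fun h 1
      simp at h0 h1
      rw [h0, h1]
  | add p q hp hq =>
    simp only [cf] at hp hq ⊢
    rw [map_add, MvPolynomial.coeff_add, MvPolynomial.coeff_add, hp, hq]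

theorem cf_homog (P : Polynomial k) (n s t : ℕ) (h : s + t = n) :
    cf (P.homogenize n) ![s, t] = P.coeff s := by
  rw [cf, Polynomial.coeff_homogenize]
  simp [h]

theorem homog_pow (P : Polynomial k) (g : ℕ) (hP : P.natDegree ≤ g) (n : ℕ) :
    (P.homogenize g) ^ n = (P ^ n).homogenize (n * g) := by
  induction n with
  | zero => simp [Polynomial.homogenize_one]
  | succ n ih =>
    rw [pow_succ, ih, pow_succ, add_mul, one_mul, Polynomial.homogenize_mul _ _ ?_ hP]
    exact Polynomial.natDegree_pow_le_of_le n hP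

/-- `Fprod` and reindexing. -/
theorem fprod_reindex (p : ℕ) {ι κ : Type} [Fintype ι] [DecidableEq ι] [Fintype κ]
    [DecidableEq κ] (e : ι ≃ κ) (M : Matrix ι ι k) (n : ℕ) :
    Fprod p (Matrix.reindex e e M) n = Matrix.reindex e e (Fprod p M n) := by
  induction n with
  | zero =>
    simp only [Fprod]
    simp
  | succ n ih =>
    simp only [Fprod]
    rw [ih]
    have h1 : ((Matrix.reindex e e M).map fun x => x ^ p ^ n) =
        Matrix.reindex e e (M.map fun x => x ^ p ^ n) := by
      ext i j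
      simp
    rw [h1, Matrix.reindex_apply, Matrix.reindex_apply, Matrix.reindex_apply,
      Matrix.submatrix_mul_equiv]

/-- Numbers. -/
theorem num (a b : ℕ) (ha : 2 ≤ a) (hb : 2 ≤ b) :
    ∃ a' b' : ℕ, 0 < a' ∧ 0 < b' ∧ Nat.Coprime a' b' ∧ a / Nat.gcd a b = a' ∧
      b / Nat.gcd a b = b' ∧ 0 < Nat.gcd a b ∧ Nat.lcm a b = a' * b' * Nat.gcd a b ∧
      Nat.lcm a b / a = b' ∧ Nat.lcm a b / b = a' := by
  have hgpos : 0 < Nat.gcd a b := Nat.gcd_pos_of_pos_left _ (by omega)
  have hag : a / Nat.gcd a b * Nat.gcd a b = a := Nat.div_mul_cancel (Nat.gcd_dvd_left a b)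
  have hbg : b / Nat.gcd a b * Nat.gcd a b = b := Nat.div_mul_cancel (Nat.gcd_dvd_right a b)
  have hcop : Nat.Coprime (a / Nat.gcd a b) (b / Nat.gcd a b) := Nat.coprime_div_gcd_div_gcd hgpos
  set a' := a / Nat.gcd a b with ha'
  set b' := b / Nat.gcd a b with hb'
  have h1 : Nat.gcd a b * Nat.lcm a b = a * b := Nat.gcd_mul_lcm a b
  have h2 : Nat.lcm a b = a' * b' * Nat.gcd a b := by
    apply Nat.eq_of_mul_eq_mul_left hgpos
    rw [h1]
    calc a * b = (a' * Nat.gcd a b) * (b' * Nat.gcd a b) := by rw [hag, hbg]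
      _ = _ := by ring
  refine ⟨a', b', ?_, ?_, hcop, rfl, rfl, hgpos, h2, ?_, ?_⟩
  · rcases Nat.eq_zero_or_pos a' with h0 | h0
    · rw [h0] at hag; omega
    · exact h0
  · rcases Nat.eq_zero_or_pos b' with h0 | h0
    · rw [h0] at hbg; omega
    · exact h0
  · have : Nat.lcm a b = b' * a := by
      rw [h2]
      calc a' * b' * Nat.gcd a b = b' * (a' * Nat.gcd a b) := by ring
        _ = _ := by rw [hag]
    rw [this]; exact Nat.mul_div_cancel _ (by omega)
  · have : Nat.lcm a b = a' * b := by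
      rw [h2]
      calc a' * b' * Nat.gcd a b = a' * (b' * Nat.gcd a b) := by ring
        _ = _ := by rw [hbg]
    rw [this]; exact Nat.mul_div_cancel _ (by omega)

theorem ew_pt (a b a' b' : ℕ) (h1 : Nat.lcm a b / a = b') (h2 : Nat.lcm a b / b = a')
    (w : Fin 2 → ℕ) : ew a b w = b' * w 0 + a' * w 1 := by
  rw [ew, h1, h2]

/-- The points of weight `a' b' g` are `(a' s, b' t)`, `s + t = g`. -/
theorem points (a' b' g : ℕ) (ha : 0 < a') (hb : 0 < b') (hc : Nat.Coprime a' b') (x y : ℕ)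
    (h : b' * x + a' * y = a' * b' * g) : ∃ s t, s + t = g ∧ x = a' * s ∧ y = b' * t := by
  have h1 : a' ∣ b' * x := by
    have h2 : a' ∣ b' * x + a' * y := by rw [h, mul_assoc]; exact Dvd.intro _ rfl
    exact (Nat.dvd_add_left (Dvd.intro _ rfl)).1 h2
  obtain ⟨s, hs⟩ := hc.dvd_of_dvd_mul_left h1
  have h3 : b' ∣ a' * y := by
    have h2 : b' ∣ b' * x + a' * y := by
      rw [h]; exact ⟨a' * g, by ring⟩
    exact (Nat.dvd_add_right (Dvd.intro _ rfl)).1 h2
  obtain ⟨t, ht⟩ := hc.symm.dvd_of_dvd_mul_left h3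
  refine ⟨s, t, ?_, hs, ht⟩
  subst hs ht
  have h4 : a' * b' * (s + t) = a' * b' * g := by
    rw [← h]; ring
  exact Nat.eq_of_mul_eq_mul_left (Nat.mul_pos ha hb) h4

/-- The leading part is the substitution in the homogenization of `G`. -/
theorem lead_eq (a b a' b' : ℕ) (ha : 0 < a') (hb : 0 < b') (hc : Nat.Coprime a' b')
    (e1 : a / Nat.gcd a b = a') (e2 : b / Nat.gcd a b = b')
    (hl : Nat.lcm a b = a' * b' * Nat.gcd a b)
    (h1 : Nat.lcm a b / a = b') (h2 : Nat.lcm a b / b = a') (f : MvPolynomial (Fin 2) k) :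
    lead a b f = sub2 a' b' ((GF a b f).homogenize (Nat.gcd a b)) := by
  have hGc : ∀ s, s ≤ Nat.gcd a b → (GF a b f).coeff s = cf f ![a' * s, b' * (Nat.gcd a b - s)] := by
    intro s hs
    rw [GF, Polynomial.finset_sum_coeff]
    rw [Finset.sum_eq_single s]
    · rw [Polynomial.coeff_monomial, if_pos rfl, e1, e2]
    · intro i _ hi
      rw [Polynomial.coeff_monomial, if_neg hi]
    · intro h
      exact absurd (Finset.mem_range.2 (by omega)) h
  ext m
  rw [lead, MvPolynomial.coeff_weightedHomogeneousComponent, Finsupp.weight_eq_sum,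
    Fin.sum_univ_two]
  simp only [Matrix.cons_val_zero, Matrix.cons_val_one, smul_eq_mul, h1, h2]
  have hm : (Finsupp.equivFunOnFinite.symm ![m 0, m 1] : Fin 2 →₀ ℕ) = m := by
    ext i
    fin_cases i <;> simp
  split_ifs with hw
  · obtain ⟨s, t, hst, hx, hy⟩ := points a' b' (Nat.gcd a b) ha hb hc (m 0) (m 1)
      (by rw [← hl, ← hw]; ring)
    have h3 := coeff_sub2 a' b' ha hb ((GF a b f).homogenize (Nat.gcd a b)) s t
    rw [cf_homog _ _ _ _ hst, hGc s (by omega)] at h3
    have ht : t = Nat.gcd a b - s := by omega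
    rw [← ht] at h3
    simp only [cf] at h3
    rw [← hx, ← hy, hm] at h3
    exact h3.symm
  · by_contra hne
    apply hw
    have h3 : m ∈ (sub2 a' b' ((GF a b f).homogenize (Nat.gcd a b))).support := by
      rw [MvPolynomial.mem_support_iff]
      exact fun h => hne h.symm
    -- the coefficients of a substitution
    have h4 : ∀ F : MvPolynomial (Fin 2) k, F.IsHomogeneous (Nat.gcd a b) →
        ∀ m : Fin 2 →₀ ℕ, (sub2 a' b' F).coeff m ≠ 0 → m 0 * b' + m 1 * a' = Nat.lcm a b := by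
      intro F hF m hm0
      rw [F.as_sum, map_sum, MvPolynomial.coeff_sum] at hm0
      obtain ⟨v, hv, hv0⟩ := Finset.exists_ne_zero_of_sum_ne_zero hm0
      rw [sub2_monomial, MvPolynomial.coeff_monomial] at hv0
      have hvm : Finsupp.equivFunOnFinite.symm ![a' * v 0, b' * v 1] = m := by
        by_contra hcon
        rw [if_neg hcon] at hv0
        exact hv0 rfl
      have hdeg := hF (MvPolynomial.mem_support_iff.1 hv)
      rw [Finsupp.weight_eq_sum, Fin.sum_univ_two] at hdeg
      simp at hdeg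
      rw [← hvm, hl, ← hdeg]
      simp
      ring
    exact h4 _ (Polynomial.isHomogeneous_homogenize _) m (MvPolynomial.mem_support_iff.1 h3)

/-- The coefficients of the powers of the leading part. -/
theorem lead_pow (a b a' b' : ℕ) (ha : 0 < a') (hb : 0 < b') (hc : Nat.Coprime a' b')
    (e1 : a / Nat.gcd a b = a') (e2 : b / Nat.gcd a b = b')
    (hl : Nat.lcm a b = a' * b' * Nat.gcd a b)
    (h1 : Nat.lcm a b / a = b') (h2 : Nat.lcm a b / b = a') (f : MvPolynomial (Fin 2) k)
    (n s t : ℕ) (hst : s + t = n * Nat.gcd a b) :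
    cf (lead a b f ^ n) ![a' * s, b' * t] = ((GF a b f) ^ n).coeff s := by
  have hdeg : (GF a b f).natDegree ≤ Nat.gcd a b := by
    rw [GF]
    apply Polynomial.natDegree_sum_le_of_forall_le
    intro i hi
    have := Finset.mem_range.1 hi
    exact (Polynomial.natDegree_monomial_le _).trans (by omega)
  rw [lead_eq a b a' b' ha hb hc e1 e2 hl h1 h2 f, ← map_pow, homog_pow _ _ hdeg,
    coeff_sub2 a' b' ha hb, cf_homog _ _ _ _ hst]

end HGIaux

open HGIaux in
theorem HGI_thm : StmtHGI := by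
  intro p a b hp ha hb hD k _ f h
  obtain ⟨a', b', ha', hb', hc, e1, e2, hg, hl, h1, h2⟩ := num a b ha hb
  set g := Nat.gcd a b with hgdef
  have hDpos : 0 < Nat.lcm a b := Nat.lcm_pos (by omega) (by omega)
  have hDp : Nat.lcm a b ≤ p - 1 := Nat.le_of_dvd (by omega) hD
  have hgD : g ≤ Nat.lcm a b := by
    rw [hl]; exact Nat.le_mul_of_pos_left _ (Nat.mul_pos ha' hb')
  have hgp : g < p := by omega
  -- the index map
  have hlt0 : ∀ i : Fin (g - 1), a' * ((i : ℕ) + 1) - 1 < Nat.lcm a b := by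
    intro i
    have hi := i.2
    have h3 : a' * ((i : ℕ) + 1) ≤ a' * g := Nat.mul_le_mul_left _ (by omega)
    have h4 : a' * g ≤ Nat.lcm a b := by
      rw [hl, mul_assoc]; exact Nat.mul_le_mul_left _ (Nat.le_mul_of_pos_left _ hb')
    omega
  have hlt1 : ∀ i : Fin (g - 1), b' * (g - 1 - (i : ℕ)) - 1 < Nat.lcm a b := by
    intro i
    have hi := i.2
    have h3 : b' * (g - 1 - (i : ℕ)) ≤ b' * g := Nat.mul_le_mul_left _ (by omega)
    have h4 : b' * g ≤ Nat.lcm a b := by
      rw [hl, mul_comm a' b', mul_assoc]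
      exact Nat.mul_le_mul_left _ (Nat.le_mul_of_pos_left _ ha')
    omega
  let fn : Fin (g - 1) → (Fin 2 → Fin (Nat.lcm a b)) := fun i =>
    ![⟨a' * ((i : ℕ) + 1) - 1, hlt0 i⟩, ⟨b' * (g - 1 - (i : ℕ)) - 1, hlt1 i⟩]
  have hfn0 : ∀ i, pt (fn i) 0 = a' * ((i : ℕ) + 1) := by
    intro i
    have h3 : 1 ≤ a' * ((i : ℕ) + 1) := Nat.mul_pos ha' (by omega)
    show a' * ((i : ℕ) + 1) - 1 + 1 = _
    omega
  have hfn1 : ∀ i, pt (fn i) 1 = b' * (g - 1 - (i : ℕ)) := by
    intro i
    have hi := i.2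
    have h3 : 1 ≤ b' * (g - 1 - (i : ℕ)) := Nat.mul_pos hb' (by omega)
    show b' * (g - 1 - (i : ℕ)) - 1 + 1 = _
    omega
  have hfw : ∀ i, ew a b (pt (fn i)) = Nat.lcm a b := by
    intro i
    have hi := i.2
    rw [ew_pt a b a' b' h1 h2, hfn0, hfn1, hl]
    have h3 : (i : ℕ) + 1 + (g - 1 - (i : ℕ)) = g := by omega
    calc b' * (a' * ((i : ℕ) + 1)) + a' * (b' * (g - 1 - (i : ℕ))) =
        a' * b' * ((i : ℕ) + 1 + (g - 1 - (i : ℕ))) := by ring
      _ = _ := by rw [h3]
  let F : Fin (g - 1) → Um a b (Nat.lcm a b) (Nat.lcm a b) := fun i => ⟨fn i, hfw i⟩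
  have hF : Function.Bijective F := by
    constructor
    · intro i j hij
      have h3 : pt (fn i) 0 = pt (fn j) 0 := by
        have : fn i = fn j := congrArg Subtype.val hij
        rw [this]
      rw [hfn0, hfn0] at h3
      have h4 := Nat.eq_of_mul_eq_mul_left ha' h3
      apply Fin.ext
      omega
    · intro u
      have hu0 := u.2
      rw [ew_pt a b a' b' h1 h2] at hu0
      have hu := hu0.trans hl
      obtain ⟨s, t, hst, hx, hy⟩ := points a' b' g ha' hb' hc _ _ hu
      have hs : 1 ≤ s := by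
        rcases Nat.eq_zero_or_pos s with h0 | h0
        · rw [h0] at hx; simp [pt] at hx
        · exact h0
      have ht : 1 ≤ t := by
        rcases Nat.eq_zero_or_pos t with h0 | h0
        · rw [h0] at hy; simp [pt] at hy
        · exact h0
      refine ⟨⟨s - 1, by omega⟩, ?_⟩
      apply Subtype.ext
      funext i
      apply Fin.ext
      have e : ∀ w : Fin 2 → Fin (Nat.lcm a b), ∀ i, ((w i : ℕ)) = pt w i - 1 := by
        intro w i; simp [pt]
      rw [e, e]
      fin_cases i
      · show pt (fn ⟨s - 1, _⟩) 0 - 1 = pt u.1 0 - 1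
        rw [hfn0, hx]
        simp only
        have : s - 1 + 1 = s := by omega
        rw [this]
      · show pt (fn ⟨s - 1, _⟩) 1 - 1 = pt u.1 1 - 1
        rw [hfn1, hy]
        simp only
        have : g - 1 - (s - 1) = t := by omega
        rw [this]
  let e : Fin (g - 1) ≃ Um a b (Nat.lcm a b) (Nat.lcm a b) := Equiv.ofBijective F hF
  have hM : Hmat p a b (Nat.lcm a b) (Nat.lcm a b) f =
      Matrix.reindex e e (HN p g (GF a b f)) := by
    ext u v
    obtain ⟨i, rfl⟩ := e.surjective u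
    obtain ⟨j, rfl⟩ := e.surjective v
    rw [Matrix.reindex_apply, Matrix.submatrix_apply, Equiv.symm_apply_apply,
      Equiv.symm_apply_apply, HN, Matrix.of_apply]
    have hi := i.2
    have hj := j.2
    have hpi : p ≤ p * ((i : ℕ) + 1) := Nat.le_mul_of_pos_right _ (by omega)
    have hpi2 : p ≤ p * (g - 1 - (i : ℕ)) := Nat.le_mul_of_pos_right _ (by omega)
    have hpsum : p * ((i : ℕ) + 1) + p * (g - 1 - (i : ℕ)) = p * g := by
      rw [← mul_add]
      congr 1
      omega
    rw [if_pos (by omega)]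
    rw [Hmat, Matrix.of_apply, Nat.div_mul_cancel hD]
    have hvec : (fun s => p * pt (e i).1 s - pt (e j).1 s) =
        ![a' * (p * ((i : ℕ) + 1) - ((j : ℕ) + 1)),
          b' * (p * (g - 1 - (i : ℕ)) - (g - 1 - (j : ℕ)))] := by
      funext s
      fin_cases s
      · show p * pt (fn i) 0 - pt (fn j) 0 = a' * (p * ((i : ℕ) + 1) - ((j : ℕ) + 1))
        rw [hfn0, hfn0, Nat.mul_sub a' (p * ((i : ℕ) + 1)) ((j : ℕ) + 1), Nat.mul_left_comm]
      · show p * pt (fn i) 1 - pt (fn j) 1 = b' * (p * (g - 1 - (i : ℕ)) - (g - 1 - (j : ℕ)))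
        rw [hfn1, hfn1, Nat.mul_sub b' (p * (g - 1 - (i : ℕ))) (g - 1 - (j : ℕ)),
          Nat.mul_left_comm]
    rw [hvec]
    apply lead_pow a b a' b' ha' hb' hc e1 e2 hl h1 h2 f
    have hpg : (p - 1) * g = p * g - g := by
      rw [Nat.sub_mul, one_mul]
    rw [hpg]
    omega
  rw [hM, fprod_reindex, Matrix.charpoly_reindex]

end ASP
end

section
/-!
# MP_b685ef_ag, theorem AS+, module PATHG
-/
set_option linter.all false

namespace ASP

open Finset ASur

namespace PATHGaux

open Polynomial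

theorem coeff_pow_char (p : ℕ) [Fact p.Prime] {k : Type} [Field k] [CharP k p]
    (A : Polynomial k) (n v : ℕ) :
    (A ^ (p ^ n)).coeff v = if p ^ n ∣ v then (A.coeff (v / p ^ n)) ^ (p ^ n) else 0 := by
  have hp : 0 < p ^ n := pow_pos (Fact.out : p.Prime).pos n
  have h : Polynomial.map (iterateFrobenius k p n) (expand k (p ^ n) A) = A ^ p ^ n := by
    rw [← Polynomial.map_iterateFrobenius_expand p A n]
  rw [← h, Polynomial.coeff_map, Polynomial.coeff_expand hp]
  split_ifs with hd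
  · rw [iterateFrobenius_def]
  · rw [map_zero]

theorem HN_one (g : ℕ) {k : Type} [Field k] (G : Polynomial k) : HN 1 g G = 1 := by
  ext i j
  rw [HN, Matrix.of_apply, Matrix.one_apply]
  simp only [one_mul, Nat.sub_self, pow_zero]
  by_cases hij : i = j
  · subst hij
    simp
  · rw [if_neg hij]
    split_ifs with h
    · rw [Polynomial.coeff_one, if_neg]
      intro h0
      apply hij
      apply Fin.ext
      omega
    · rfl

theorem step (p : ℕ) [Fact p.Prime] {k : Type} [Field k] [CharP k p] (g : ℕ)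
    (G : Polynomial k) (hg1 : 1 ≤ g) (hgp : g ≤ p) (hG : G.natDegree ≤ g) (n : ℕ) :
    ((HN p g G).map fun x => x ^ (p ^ n)) * HN (p ^ n) g G = HN (p ^ (n + 1)) g G := by
  have hp : 0 < p := (Fact.out : p.Prime).pos
  ext i j
  rw [Matrix.mul_apply]
  have hQ : 0 < p ^ n := pow_pos hp n
  set Q := p ^ n with hQdef
  have hi := i.2
  have hj := j.2
  have hpi : p ≤ p * ((i : ℕ) + 1) := Nat.le_mul_of_pos_right p (Nat.succ_pos _)
  have hQpi : p * ((i : ℕ) + 1) ≤ Q * (p * ((i : ℕ) + 1)) := Nat.le_mul_of_pos_left _ hQ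
  have hpow : p ^ (n + 1) * ((i : ℕ) + 1) = Q * (p * ((i : ℕ) + 1)) := by
    rw [hQdef, pow_succ, mul_assoc]
  have hexp : p ^ (n + 1) - 1 = (Q - 1) + (p - 1) * Q := by
    have h1 : p ^ (n + 1) = p * Q := by rw [hQdef, pow_succ, mul_comm]
    have h2 : p * Q = (p - 1) * Q + Q := by
      conv_lhs => rw [show p = (p - 1) + 1 by omega]
      rw [add_mul, one_mul]
    omega
  have hGp : G ^ (p ^ (n + 1) - 1) = G ^ (Q - 1) * (G ^ (p - 1)) ^ Q := by
    rw [hexp, pow_add, pow_mul]
  have hR : HN (p ^ (n + 1)) g G i j =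
      (G ^ (Q - 1) * (G ^ (p - 1)) ^ Q).coeff (Q * (p * ((i : ℕ) + 1)) - ((j : ℕ) + 1)) := by
    rw [HN, Matrix.of_apply, hpow, hGp, if_pos (by omega)]
  rw [hR, Polynomial.coeff_mul]
  have hL : ∀ l : Fin (g - 1), (((HN p g G).map fun x => x ^ Q) i l) * HN Q g G l j =
      ((G ^ (p - 1)).coeff (p * ((i : ℕ) + 1) - ((l : ℕ) + 1))) ^ Q *
        (if (j : ℕ) + 1 ≤ Q * ((l : ℕ) + 1) then
          (G ^ (Q - 1)).coeff (Q * ((l : ℕ) + 1) - ((j : ℕ) + 1)) else 0) := by
    intro l
    have hl := l.2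
    rw [Matrix.map_apply, HN, HN, Matrix.of_apply, Matrix.of_apply, if_pos (by omega)]
  simp only [hL]
  have hdegB : (G ^ (Q - 1)).natDegree ≤ (Q - 1) * g :=
    le_trans (Polynomial.natDegree_pow_le) (Nat.mul_le_mul_left _ hG)
  refine Finset.sum_bij_ne_zero
    (fun l _ _ => (Q * ((l : ℕ) + 1) - ((j : ℕ) + 1),
      Q * (p * ((i : ℕ) + 1) - ((l : ℕ) + 1)))) ?_ ?_ ?_ ?_
  · intro l _ hne
    have hl := l.2
    rw [Finset.HasAntidiagonal.mem_antidiagonal]
    have hle : (j : ℕ) + 1 ≤ Q * ((l : ℕ) + 1) := by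
      by_contra h
      rw [if_neg h, mul_zero] at hne
      exact hne rfl
    have h1 : Q * (p * ((i : ℕ) + 1)) =
        Q * (p * ((i : ℕ) + 1) - ((l : ℕ) + 1)) + Q * ((l : ℕ) + 1) := by
      rw [← mul_add]
      congr 1
      omega
    dsimp only
    omega
  · intro l _ _ l' _ _ h
    have hl := l.2
    have hl' := l'.2
    have h2 := (Prod.mk.inj h).2
    have h3 := Nat.eq_of_mul_eq_mul_left hQ h2
    apply Fin.ext
    omega
  · rintro ⟨u, v⟩ hmem hne
    rw [Finset.HasAntidiagonal.mem_antidiagonal] at hmem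
    dsimp only at hmem hne
    have hB : (G ^ (Q - 1)).coeff u ≠ 0 := left_ne_zero_of_mul hne
    have hA : ((G ^ (p - 1)) ^ Q).coeff v ≠ 0 := right_ne_zero_of_mul hne
    rw [hQdef, coeff_pow_char, ← hQdef] at hA
    have hdvd : Q ∣ v := by
      by_contra h
      rw [if_neg h] at hA
      exact hA rfl
    obtain ⟨m, rfl⟩ := hdvd
    have hu : u ≤ (Q - 1) * g := le_trans (Polynomial.le_natDegree_of_ne_zero hB) hdegB
    have hQg : (Q - 1) * g + g = Q * g := by
      conv_rhs => rw [show Q = (Q - 1) + 1 by omega]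
      rw [add_mul, one_mul]
    have hm : m < p * ((i : ℕ) + 1) := by
      by_contra h
      have h1 : Q * (p * ((i : ℕ) + 1)) ≤ Q * m := Nat.mul_le_mul_left Q (not_lt.mp h)
      omega
    obtain ⟨l', hl'⟩ : ∃ l', p * ((i : ℕ) + 1) = m + l' := ⟨p * ((i : ℕ) + 1) - m, by omega⟩
    have hQl : Q * (p * ((i : ℕ) + 1)) = Q * m + Q * l' := by rw [hl', mul_add]
    have hl'g : l' < g := by
      by_contra h
      have h1 : Q * g ≤ Q * l' := Nat.mul_le_mul_left Q (not_lt.mp h)
      omega
    have hl'1 : 1 ≤ l' := by omega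
    have e1 : l' - 1 + 1 = l' := by omega
    have e2 : p * ((i : ℕ) + 1) - l' = m := by omega
    refine ⟨⟨l' - 1, by omega⟩, Finset.mem_univ _, ?_, ?_⟩
    · dsimp only
      rw [e1, e2, if_pos (by omega)]
      have e3 : Q * l' - ((j : ℕ) + 1) = u := by omega
      rw [e3]
      rw [if_pos (Dvd.intro m rfl), Nat.mul_div_cancel_left m hQ] at hA
      exact mul_ne_zero hA hB
    · dsimp only
      rw [e1, e2]
      have e3 : Q * l' - ((j : ℕ) + 1) = u := by omega
      rw [e3]
  · intro l _ hne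
    have hle : (j : ℕ) + 1 ≤ Q * ((l : ℕ) + 1) := by
      by_contra h
      rw [if_neg h, mul_zero] at hne
      exact hne rfl
    dsimp only
    rw [if_pos hle, mul_comm, hQdef, coeff_pow_char, ← hQdef, if_pos (Dvd.intro _ rfl),
      Nat.mul_div_cancel_left _ hQ]

end PATHGaux

theorem PATHG_thm : StmtPATHG := by
  intro p _ k _ _ g G hg1 hgp hG n
  induction n with
  | zero =>
    rw [pow_zero, PATHGaux.HN_one]
    rfl
  | succ n ih =>
    rw [← PATHGaux.step p g G hg1 hgp hG n, ← ih]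
    rfl

end ASP
end

section
/-!
# MP_b685ef_ag, theorem AS+: module `PERMA`

The characteristic polynomial of the `q`-Frobenius on `k[X]/(G)`, `G` squarefree.
-/
set_option autoImplicit false

namespace ASP

open Polynomial

namespace PERMAAux

/-- Irreducible case. -/
theorem charpoly_irr {k : Type} [Field k] [Fintype k] (P : k[X]) (hP : Irreducible P)
    [Module.Finite k (AdjoinRoot P)] :
    (FiniteField.frobeniusAlgHom k (AdjoinRoot P)).toLinearMap.charpoly = X ^ P.natDegree - 1 := by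
  have : Fact (Irreducible P) := ⟨hP⟩
  have : Finite (AdjoinRoot P) := Module.finite_of_finite k
  have hfr : Module.finrank k (AdjoinRoot P) = P.natDegree :=
    finrank_quotient_span_eq_natDegree
  have h1 := FiniteField.minpoly_frobeniusAlgHom k (AdjoinRoot P)
  have h2 := LinearMap.minpoly_dvd_charpoly (FiniteField.frobeniusAlgHom k (AdjoinRoot P)).toLinearMap
  have hd : 0 < P.natDegree := hP.natDegree_pos
  rw [hfr] at h1
  rw [← h1]
  refine eq_of_monic_of_dvd_of_natDegree_le ?_ (LinearMap.charpoly_monic _) h2 ?_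
  · rw [h1]
    exact leadingCoeff_X_pow_sub_one hd
  · rw [LinearMap.charpoly_natDegree, h1, hfr]
    exact (natDegree_X_pow_sub_C (n := P.natDegree) (r := (1 : k))).ge

theorem algHomOfDvd_mk {k : Type} [Field k] (f g : k[X]) (h : g ∣ f) (a : k[X]) :
    AdjoinRoot.algHomOfDvd k f g h (AdjoinRoot.mk f a) = AdjoinRoot.mk g a := by
  rw [AdjoinRoot.coe_algHomOfDvd, AdjoinRoot.liftAlgHom_mk]
  exact AdjoinRoot.aeval_eq a

/-- Chinese remainder theorem. -/
theorem crt {k : Type} [Field k] (P Q : k[X]) (h : IsCoprime P Q) :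
    Function.Bijective ((AdjoinRoot.algHomOfDvd k (P * Q) P (dvd_mul_right P Q)).prod
      (AdjoinRoot.algHomOfDvd k (P * Q) Q (dvd_mul_left Q P))) := by
  constructor
  · rw [injective_iff_map_eq_zero]
    intro x
    induction x using AdjoinRoot.induction_on with
    | ih a =>
      intro ha
      rw [AlgHom.prod_apply, algHomOfDvd_mk, algHomOfDvd_mk, Prod.mk_eq_zero,
        AdjoinRoot.mk_eq_zero, AdjoinRoot.mk_eq_zero] at ha
      rw [AdjoinRoot.mk_eq_zero]
      exact h.mul_dvd ha.1 ha.2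
  · rintro ⟨x, y⟩
    induction x using AdjoinRoot.induction_on with
    | ih a =>
      induction y using AdjoinRoot.induction_on with
      | ih b =>
        obtain ⟨u, v, huv⟩ := h
        refine ⟨AdjoinRoot.mk (P * Q) (a * (v * Q) + b * (u * P)), ?_⟩
        rw [AlgHom.prod_apply, algHomOfDvd_mk, algHomOfDvd_mk, Prod.mk.injEq,
          AdjoinRoot.mk_eq_mk, AdjoinRoot.mk_eq_mk]
        constructor
        · refine ⟨(b - a) * u, ?_⟩
          linear_combination a * huv
        · refine ⟨(a - b) * v, ?_⟩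
          linear_combination b * huv

theorem main {k : Type} [Field k] [Fintype k] (F : Multiset k[X]) :
    ∀ G : k[X], F.prod = G → (∀ P ∈ F, Irreducible P) → Squarefree G →
    ∀ [Module.Finite k (AdjoinRoot G)] (φ : AdjoinRoot G →ₗ[k] AdjoinRoot G),
    (∀ x, φ x = x ^ Fintype.card k) →
    φ.charpoly = (F.map fun P => (X ^ P.natDegree - 1 : k[X])).prod := by
  induction F using Multiset.induction_on with
  | empty =>
    intro G hG _ _ _ φ _
    rw [Multiset.prod_zero] at hG
    subst hG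
    rw [Multiset.map_zero, Multiset.prod_zero]
    apply eq_one_of_monic_natDegree_zero (LinearMap.charpoly_monic φ)
    rw [LinearMap.charpoly_natDegree]
    exact (finrank_quotient_span_eq_natDegree (f := (1 : k[X]))).trans natDegree_one
  | cons P F ih =>
    intro G hG hirr hsq _ φ hφ
    rw [Multiset.prod_cons] at hG
    subst hG
    rw [Multiset.map_cons, Multiset.prod_cons]
    have hP : Irreducible P := hirr P (Multiset.mem_cons_self P F)
    obtain ⟨hrel, -, hQ⟩ := squarefree_mul_iff.1 hsq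
    have hcop : IsCoprime P F.prod := hrel.isCoprime
    have : Module.Finite k (AdjoinRoot P) := (AdjoinRoot.powerBasis hP.ne_zero).finite
    have : Module.Finite k (AdjoinRoot F.prod) := (AdjoinRoot.powerBasis hQ.ne_zero).finite
    have h1 := ih F.prod rfl (fun R hR => hirr R (Multiset.mem_cons_of_mem hR)) hQ
      (FiniteField.frobeniusAlgHom k (AdjoinRoot F.prod)).toLinearMap (fun x => rfl)
    have h2 := charpoly_irr P hP
    let e : AdjoinRoot (P * F.prod) ≃ₐ[k] AdjoinRoot P × AdjoinRoot F.prod :=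
      AlgEquiv.ofBijective _ (crt P F.prod hcop)
    have h3 : e.toLinearEquiv.conj φ =
        ((FiniteField.frobeniusAlgHom k (AdjoinRoot P)).toLinearMap).prodMap
          ((FiniteField.frobeniusAlgHom k (AdjoinRoot F.prod)).toLinearMap) := by
      apply LinearMap.ext
      rintro x
      rw [LinearEquiv.conj_apply_apply, hφ]
      change e ((e.symm x) ^ Fintype.card k) = _
      rw [map_pow, AlgEquiv.apply_symm_apply]
      rfl
    rw [← h1, ← h2, ← LinearMap.charpoly_prodMap, ← h3, LinearEquiv.charpoly_conj]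

end PERMAAux

theorem perma_thm : StmtPERMA := by
  intro k _ _ F hF hsq _ φ hφ
  exact PERMAAux.main F F.prod rfl hF hsq φ hφ

end ASP
end

section
/-!
# MP_b685ef_ag, ASP: module PERMC

`(X - 1) charpoly(HN q g G) = ∏ (X^{deg P} - 1)` over the irreducible factors `P` of `G`.

The map `T` of PERMT induces a surjection `T' : k[X]/(G) → k^{g-1}` with kernel `k · 1`, and
`T' (x^q) = (HN q g G)ᵀ (T' x)`.  In a basis `1, b_1, ..., b_{g-1}` with `T' b_j = e_j` the matrix of
the Frobenius is `(1 *; 0 (HN q g G)ᵀ)`.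
-/
set_option linter.all false

namespace ASP

open Finset ASur

/-- Linear algebra: `φ` on `A`, `T : A → k^n` surjective with kernel `k · w`, `w ≠ 0`, `φ w = w`,
`T ∘ φ = N ∘ T`; then `charpoly φ = (X - 1) charpoly N`. -/
theorem permc_linalg {k : Type} [Field k] {A : Type} [AddCommGroup A] [Module k A]
    [Module.Finite k A] {n : ℕ} (N : Matrix (Fin n) (Fin n) k) (φ : A →ₗ[k] A)
    (T : A →ₗ[k] (Fin n → k)) (w : A) (hw : w ≠ 0) (hφw : φ w = w) (hTw : T w = 0)
    (hsurj : Function.Surjective T) (hker : ∀ x, T x = 0 → ∃ c : k, x = c • w)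
    (hTφ : ∀ x, T (φ x) = N.mulVec (T x)) :
    φ.charpoly = (Polynomial.X - 1) * N.charpoly := by
  classical
  obtain ⟨σ, hσ⟩ := T.exists_rightInverse_of_surjective (LinearMap.range_eq_top.mpr hsurj)
  have hσ' : ∀ v, T (σ v) = v := fun v => by
    have := congrArg (fun f => f v) hσ
    simpa using this
  let Ψ0 : (k × (Fin n → k)) →ₗ[k] A :=
    ((LinearMap.toSpanSingleton k A w).comp (LinearMap.fst k k (Fin n → k))) +
      σ.comp (LinearMap.snd k k (Fin n → k))
  have hΨ0 : ∀ z : k × (Fin n → k), Ψ0 z = z.1 • w + σ z.2 := fun z => by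
    simp [Ψ0, LinearMap.toSpanSingleton_apply]
  have hTΨ0 : ∀ z, T (Ψ0 z) = z.2 := fun z => by
    rw [hΨ0, map_add, map_smul, hTw, smul_zero, zero_add, hσ']
  have hinj : Function.Injective Ψ0 := by
    rw [← LinearMap.ker_eq_bot, LinearMap.ker_eq_bot']
    rintro ⟨c, v⟩ h
    have h2 : v = 0 := by
      have := hTΨ0 (c, v)
      rw [h, map_zero] at this
      exact this.symm
    have h1 := hΨ0 (c, v)
    rw [h] at h1
    simp only [h2, map_zero, add_zero] at h1
    have hc : c = 0 := by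
      rcases smul_eq_zero.mp h1.symm with h | h
      · exact h
      · exact absurd h hw
    rw [h2, hc]
    rfl
  have hsur : Function.Surjective Ψ0 := by
    intro x
    obtain ⟨c, hc⟩ := hker (x - σ (T x)) (by rw [map_sub, hσ', sub_self])
    refine ⟨(c, T x), ?_⟩
    rw [hΨ0]
    simp only
    rw [← hc]
    abel
  let Ψ : (k × (Fin n → k)) ≃ₗ[k] A := LinearEquiv.ofBijective Ψ0 ⟨hinj, hsur⟩
  have hΨ : ∀ z, Ψ z = Ψ0 z := fun z => rfl
  have hTsymm : ∀ x, (Ψ.symm x).2 = T x := fun x => by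
    have := hTΨ0 (Ψ.symm x)
    rw [← hΨ, LinearEquiv.apply_symm_apply] at this
    exact this.symm
  let b0 : Module.Basis (Unit ⊕ Fin n) k (k × (Fin n → k)) :=
    (Module.Basis.singleton Unit k).prod (Pi.basisFun k (Fin n))
  let B : Module.Basis (Unit ⊕ Fin n) k A := b0.map Ψ
  have hBl : B (Sum.inl ()) = w := by
    have h : b0 (Sum.inl ()) = (1, 0) := by
      ext <;> simp [b0]
    have : B (Sum.inl ()) = Ψ (b0 (Sum.inl ())) := rfl
    rw [this, h, hΨ, hΨ0]
    simp
  have hBr : ∀ j, T (B (Sum.inr j)) = Pi.single j 1 := fun j => by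
    have h : b0 (Sum.inr j) = (0, Pi.single j 1) := by
      refine Prod.ext ?_ ?_
      · simp [b0]
      · simp only [b0, Module.Basis.prod_apply_inr_snd, Pi.basisFun_apply]
    have : B (Sum.inr j) = Ψ (b0 (Sum.inr j)) := rfl
    rw [this, h, hΨ, hTΨ0]
  have hrepr : ∀ x i, B.repr x (Sum.inr i) = T x i := fun x i => by
    have h : B.repr x = b0.repr (Ψ.symm x) := by
      simp [B, Module.Basis.map_repr]
    rw [h, ← hTsymm]
    simp [b0, Module.Basis.prod_repr_inr]
  have hM : LinearMap.toMatrix B B φ = Matrix.fromBlocks 1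
      (Matrix.of fun _ j => B.repr (φ (B (Sum.inr j))) (Sum.inl ())) 0 N := by
    ext i j
    rw [LinearMap.toMatrix_apply]
    rcases i with i | i <;> rcases j with j | j
    · rw [Matrix.fromBlocks_apply₁₁]
      have hj : j = () := rfl
      have hi : i = () := rfl
      subst hj
      subst hi
      rw [hBl, hφw, ← hBl, Module.Basis.repr_self]
      simp
    · rw [Matrix.fromBlocks_apply₁₂]
      rfl
    · rw [Matrix.fromBlocks_apply₂₁]
      have hj : j = () := rfl
      subst hj
      rw [hBl, hφw, hrepr, hTw]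
      rfl
    · rw [Matrix.fromBlocks_apply₂₂, hrepr, hTφ, hBr]
      simp [Matrix.mulVec_single]
  rw [← LinearMap.charpoly_toMatrix φ B, hM, Matrix.charpoly_fromBlocks_zero₂₁]
  congr 1
  rw [Matrix.charpoly_one]
  simp

theorem permc_thm (hT : StmtPERMT) (hA : StmtPERMA) : StmtPERMC := by
  classical
  intro k _ _ g G hg hgq hdeg hsq F hirr hprod
  subst hprod
  obtain ⟨T, hT1, hT2, hT3, hT4, hT5⟩ := hT k g F.prod hg hgq hdeg
  set q := Fintype.card k with hq
  have hG0 : F.prod ≠ 0 := by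
    intro h
    rw [h, Polynomial.natDegree_zero] at hdeg
    omega
  haveI : Module.Finite k (AdjoinRoot F.prod) := (AdjoinRoot.powerBasis hG0).finite
  let mk : Polynomial k →ₗ[k] AdjoinRoot F.prod := (AdjoinRoot.mkₐ F.prod).toLinearMap
  have hmk : ∀ P, mk P = AdjoinRoot.mk F.prod P := fun P => rfl
  have hmks : Function.Surjective mk := AdjoinRoot.mk_surjective
  have hmk0 : ∀ P, mk P = 0 ↔ F.prod ∣ P := fun P => by
    rw [hmk, AdjoinRoot.mk_eq_zero]
  -- the induced map
  have hker : LinearMap.ker mk ≤ LinearMap.ker T := by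
    intro P hP
    rw [LinearMap.mem_ker, hmk0] at hP
    obtain ⟨Q, rfl⟩ := hP
    rw [LinearMap.mem_ker]
    exact hT1 Q
  obtain ⟨s, hs⟩ := mk.exists_rightInverse_of_surjective (LinearMap.range_eq_top.mpr hmks)
  have hs' : ∀ x, mk (s x) = x := fun x => by
    have := congrArg (fun f => f x) hs
    simpa using this
  let T' : AdjoinRoot F.prod →ₗ[k] (Fin (g - 1) → k) := T.comp s
  have hT' : ∀ P, T' (mk P) = T P := fun P => by
    have h : s (mk P) - P ∈ LinearMap.ker mk := by
      rw [LinearMap.mem_ker, map_sub, hs', sub_self]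
    have h2 := hker h
    rw [LinearMap.mem_ker, map_sub, sub_eq_zero] at h2
    exact h2
  let φ : AdjoinRoot F.prod →ₗ[k] AdjoinRoot F.prod :=
    (FiniteField.frobeniusAlgHom k (AdjoinRoot F.prod)).toLinearMap
  have hφ : ∀ x, φ x = x ^ Fintype.card k := fun x => rfl
  have hmkpow : ∀ P n, mk (P ^ n) = (mk P) ^ n := fun P n => by
    rw [hmk, hmk, map_pow]
  have h10 : (1 : AdjoinRoot F.prod) ≠ 0 := by
    intro h
    have h1 : mk 1 = 0 := by
      rw [hmk, map_one]
      exact h
    rw [hmk0] at h1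
    have h2 := Polynomial.natDegree_le_of_dvd h1 one_ne_zero
    rw [hdeg, Polynomial.natDegree_one] at h2
    omega
  have hmkC : ∀ c : k, mk (Polynomial.C c) = c • (1 : AdjoinRoot F.prod) := fun c => by
    rw [hmk, Algebra.smul_def, mul_one]
    rfl
  have key := permc_linalg (HN q g F.prod).transpose φ T' 1 h10 (by rw [hφ, one_pow])
    (by
      have h : (1 : AdjoinRoot F.prod) = mk 1 := by rw [hmk, map_one]
      rw [h, hT', ← Polynomial.C_1]
      exact hT5 1)
    (by
      intro v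
      obtain ⟨P, hP⟩ := hT3 v
      exact ⟨mk P, by rw [hT', hP]⟩)
    (by
      intro x hx
      obtain ⟨P, rfl⟩ := hmks x
      rw [hT'] at hx
      obtain ⟨c, Q, hP⟩ := hT4 P hx
      refine ⟨c, ?_⟩
      rw [hP, map_add, hmkC]
      have : mk (F.prod * Q) = 0 := (hmk0 _).mpr (Dvd.intro _ rfl)
      rw [this, add_zero])
    (by
      intro x
      obtain ⟨P, rfl⟩ := hmks x
      rw [hφ, ← hmkpow, hT', hT', hT2])
  rw [Matrix.charpoly_transpose] at key
  rw [← key]
  exact hA k F hirr hsq φ hφ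

end ASP
end

section
/-!
# MP_b685ef_ag, theorem AS+: module PERMT

`T(P)_j = coeff_{g-2-j} (X^{g-1} P / G)`, the coefficient of `X^{-(j+1)}` in `P / G`.
-/
set_option linter.all false

namespace ASP

open Finset ASur

namespace PERMTaux

open Polynomial

variable {k : Type} [Field k]

theorem uniq {G1 P A B : k[X]} (h : G1.Monic) (hAB : P = G1 * A + B)
    (hB : B.degree < G1.degree) : P /ₘ G1 = A ∧ P %ₘ G1 = B :=
  div_modByMonic_unique A B h ⟨by rw [hAB]; ring, hB⟩

/-- division by a monic polynomial as a linear map -/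
noncomputable def dv (G1 : k[X]) (h : G1.Monic) : k[X] →ₗ[k] k[X] where
  toFun P := P /ₘ G1
  map_add' P Q := by
    refine (uniq h (B := P %ₘ G1 + Q %ₘ G1) ?_ ?_).1
    · conv_lhs => rw [← modByMonic_add_div P G1, ← modByMonic_add_div Q G1]
      ring
    · exact lt_of_le_of_lt (degree_add_le _ _)
        (max_lt (degree_modByMonic_lt _ h) (degree_modByMonic_lt _ h))
  map_smul' c P := by
    refine (uniq h (B := c • (P %ₘ G1)) ?_ ?_).1
    · conv_lhs => rw [← modByMonic_add_div P G1]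
      rw [smul_add, mul_smul_comm, RingHom.id_apply, add_comm]
    · exact lt_of_le_of_lt (degree_smul_le _ _) (degree_modByMonic_lt _ h)

/-- the map `T` -/
noncomputable def TT (g : ℕ) (c : k) (G1 : k[X]) (h : G1.Monic) :
    k[X] →ₗ[k] (Fin (g - 1) → k) :=
  LinearMap.pi fun j => c⁻¹ • (lcoeff k (g - 2 - (j : ℕ)) ∘ₗ dv G1 h ∘ₗ
    LinearMap.mulLeft k (X ^ (g - 1)))

theorem TT_apply (g : ℕ) (c : k) (G1 : k[X]) (h : G1.Monic) (P : k[X]) (j : Fin (g - 1)) :
    TT g c G1 h P j = c⁻¹ * ((X ^ (g - 1) * P) /ₘ G1).coeff (g - 2 - (j : ℕ)) := rfl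

theorem TT_mul (g : ℕ) (c : k) (G G1 : k[X]) (h : G1.Monic) (hG : G = C c * G1) (Q : k[X]) :
    TT g c G1 h (G * Q) = 0 := by
  funext j
  rw [TT_apply, Pi.zero_apply]
  have h1 : (X ^ (g - 1) * (G * Q)) /ₘ G1 = X ^ (g - 1) * (C c * Q) := by
    refine (uniq h (B := 0) ?_ ?_).1
    · rw [hG]
      ring
    · rw [degree_zero, bot_lt_iff_ne_bot, Ne, degree_eq_bot]
      exact h.ne_zero
  have hj := j.2
  rw [h1, coeff_X_pow_mul', if_neg (by omega), mul_zero]

theorem TT_C (g : ℕ) (c : k) (G1 : k[X]) (h : G1.Monic) (hd : G1.natDegree = g) (hg : 1 ≤ g)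
    (e : k) : TT g c G1 h (C e) = 0 := by
  funext j
  rw [TT_apply, Pi.zero_apply]
  have h1 : (X ^ (g - 1) * C e) /ₘ G1 = 0 := by
    rw [divByMonic_eq_zero_iff h, degree_eq_natDegree h.ne_zero, hd]
    refine lt_of_le_of_lt degree_le_natDegree ?_
    have h2 : (X ^ (g - 1) * C e : k[X]).natDegree ≤ g - 1 := by
      refine natDegree_mul_le.trans ?_
      rw [natDegree_X_pow, natDegree_C, add_zero]
    exact_mod_cast (by omega : (X ^ (g - 1) * C e : k[X]).natDegree < g)
  rw [h1, coeff_zero, mul_zero]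

theorem TT_ker (g : ℕ) (c : k) (hc : c ≠ 0) (G G1 : k[X]) (h : G1.Monic) (hG : G = C c * G1)
    (hd : G1.natDegree = g) (hg : 1 ≤ g) (P : k[X]) (hP : TT g c G1 h P = 0) :
    ∃ (e : k) (Q : k[X]), P = C e + G * Q := by
  have hdeg : G1.degree = (g : WithBot ℕ) := by rw [degree_eq_natDegree h.ne_zero, hd]
  have hPR : P = P %ₘ G1 + G * (C c⁻¹ * (P /ₘ G1)) := by
    have h1 : G * (C c⁻¹ * (P /ₘ G1)) = G1 * (P /ₘ G1) := by
      rw [hG]
      have h2 : C c * C c⁻¹ = (1 : k[X]) := by
        rw [← C_mul, mul_inv_cancel₀ hc, C_1]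
      calc C c * G1 * (C c⁻¹ * (P /ₘ G1)) = (C c * C c⁻¹) * (G1 * (P /ₘ G1)) := by ring
        _ = _ := by rw [h2, one_mul]
    rw [h1, modByMonic_add_div]
  have hRd : (P %ₘ G1).degree < (g : WithBot ℕ) := by
    rw [← hdeg]
    exact degree_modByMonic_lt _ h
  generalize hR : P %ₘ G1 = R at hPR hRd
  have hTR : TT g c G1 h R = 0 := by
    have h1 : TT g c G1 h P = TT g c G1 h R := by
      conv_lhs => rw [hPR]
      rw [map_add, TT_mul g c G G1 h hG, add_zero]
    rw [← h1, hP]
  have hRn : R.natDegree ≤ g - 1 := by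
    by_cases h0 : R = 0
    · rw [h0, natDegree_zero]
      exact Nat.zero_le _
    · rw [degree_eq_natDegree h0] at hRd
      have : R.natDegree < g := by exact_mod_cast hRd
      omega
  have hA : (X ^ (g - 1) * R) /ₘ G1 = 0 := by
    by_contra hA
    generalize hA1 : (X ^ (g - 1) * R) /ₘ G1 = A at hA
    have h1 := modByMonic_add_div (X ^ (g - 1) * R) G1
    rw [hA1] at h1
    have h2 : (G1 * A).natDegree = g + A.natDegree := by
      rw [natDegree_mul h.ne_zero hA, hd]
    have h3 : (G1 * A).natDegree ≤ max (2 * g - 2) (g - 1) := by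
      have h4 : G1 * A = X ^ (g - 1) * R - (X ^ (g - 1) * R) %ₘ G1 := by
        linear_combination h1
      rw [h4]
      refine (natDegree_sub_le _ _).trans (max_le_max ?_ ?_)
      · refine natDegree_mul_le.trans ?_
        rw [natDegree_X_pow]
        omega
      · have h5 : ((X ^ (g - 1) * R) %ₘ G1).degree < (g : WithBot ℕ) := by
          rw [← hdeg]
          exact degree_modByMonic_lt _ h
        by_cases h0 : (X ^ (g - 1) * R) %ₘ G1 = 0
        · rw [h0, natDegree_zero]
          exact Nat.zero_le _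
        · rw [degree_eq_natDegree h0] at h5
          have : ((X ^ (g - 1) * R) %ₘ G1).natDegree < g := by exact_mod_cast h5
          omega
    rw [h2] at h3
    have h6 : g + A.natDegree ≤ 2 * g - 2 := by
      rcases le_max_iff.1 h3 with h | h
      · exact h
      · omega
    have h7 := congrFun hTR ⟨g - 2 - A.natDegree, by omega⟩
    rw [TT_apply, Pi.zero_apply, hA1] at h7
    have h8 : g - 2 - (g - 2 - A.natDegree) = A.natDegree := by omega
    simp only [h8] at h7
    rcases mul_eq_zero.1 h7 with h | h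
    · exact inv_ne_zero hc h
    · exact hA (leadingCoeff_eq_zero.1 h)
  rw [divByMonic_eq_zero_iff h, hdeg] at hA
  have hR0 : R.natDegree = 0 := by
    by_cases h0 : R = 0
    · rw [h0, natDegree_zero]
    · rw [degree_mul, degree_X_pow, degree_eq_natDegree h0] at hA
      have : (g - 1) + R.natDegree < g := by exact_mod_cast hA
      omega
  exact ⟨R.coeff 0, C c⁻¹ * (P /ₘ G1), by rw [← eq_C_of_natDegree_eq_zero hR0]; exact hPR⟩

/-- a section -/
noncomputable def SS (g : ℕ) : (Fin (g - 1) → k) →ₗ[k] k[X] :=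
  ∑ i : Fin (g - 1), (monomial ((i : ℕ) + 1) : k →ₗ[k] k[X]) ∘ₗ LinearMap.proj i

theorem SS_coeff (g : ℕ) (v : Fin (g - 1) → k) (i : Fin (g - 1)) :
    (SS g v : k[X]).coeff ((i : ℕ) + 1) = v i := by
  classical
  unfold SS
  rw [LinearMap.sum_apply, finset_sum_coeff, Finset.sum_eq_single i]
  · rw [LinearMap.comp_apply, LinearMap.proj_apply, coeff_monomial, if_pos rfl]
  · intro j _ hj
    rw [LinearMap.comp_apply, LinearMap.proj_apply, coeff_monomial, if_neg]
    intro h
    exact hj (Fin.ext (by omega))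
  · intro h
    exact absurd (Finset.mem_univ i) h

theorem SS_natDegree (g : ℕ) (v : Fin (g - 1) → k) : (SS g v : k[X]).natDegree ≤ g - 1 := by
  unfold SS
  rw [LinearMap.sum_apply]
  refine natDegree_sum_le_of_forall_le _ _ fun i _ => ?_
  rw [LinearMap.comp_apply]
  refine (natDegree_monomial_le _).trans ?_
  have := i.2
  omega

theorem TT_surj (g : ℕ) (c : k) (hc : c ≠ 0) (G G1 : k[X]) (h : G1.Monic) (hG : G = C c * G1)
    (hd : G1.natDegree = g) (hg : 1 ≤ g) : Function.Surjective (TT g c G1 h) := by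
  have hG0 : G ≠ 0 := by
    rw [hG]
    exact mul_ne_zero (C_ne_zero.2 hc) h.ne_zero
  have hGd : G.natDegree = g := by
    rw [hG, natDegree_C_mul hc, hd]
  have hinj : Function.Injective (TT g c G1 h ∘ₗ SS g) := by
    rw [← LinearMap.ker_eq_bot, LinearMap.ker_eq_bot']
    intro v hv
    obtain ⟨e, Q, hQ⟩ := TT_ker g c hc G G1 h hG hd hg (SS g v) hv
    have hQ0 : Q = 0 := by
      by_contra hQ0
      have h1 : G * Q = SS g v - C e := by
        rw [hQ]
        ring
      have h2 : (G * Q).natDegree = g + Q.natDegree := by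
        rw [natDegree_mul hG0 hQ0, hGd]
      have h3 : (SS g v - C e : k[X]).natDegree ≤ g - 1 := by
        refine (natDegree_sub_le _ _).trans (max_le (SS_natDegree g v) ?_)
        rw [natDegree_C]
        exact Nat.zero_le _
      rw [h1] at h2
      omega
    funext i
    rw [← SS_coeff g v i, hQ, hQ0, mul_zero, add_zero, coeff_C, if_neg (by omega)]
    rfl
  have hsurj := LinearMap.injective_iff_surjective.1 hinj
  intro w
  obtain ⟨v, hv⟩ := hsurj w
  exact ⟨SS g v, hv⟩

theorem frob [Fintype k] (g : ℕ) (G1 : k[X]) (h : G1.Monic) (hd : G1.natDegree = g)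
    (hg : g ≤ Fintype.card k) (P : k[X]) (j : Fin (g - 1)) :
    ((X ^ (g - 1) * P ^ Fintype.card k) /ₘ G1).coeff (g - 2 - (j : ℕ)) =
      ∑ i : Fin (g - 1), (G1 ^ (Fintype.card k - 1)).coeff
        (Fintype.card k * ((i : ℕ) + 1) - ((j : ℕ) + 1)) *
          ((X ^ (g - 1) * P) /ₘ G1).coeff (g - 2 - (i : ℕ)) := by
  classical
  have hq : 1 < Fintype.card k := Fintype.one_lt_card
  have hj := j.2
  have hdeg : G1.degree = (g : WithBot ℕ) := by rw [degree_eq_natDegree h.ne_zero, hd]
  have hrem : ∀ Z : k[X], (Z %ₘ G1).natDegree ≤ g - 1 := by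
    intro Z
    have h5 : (Z %ₘ G1).degree < (g : WithBot ℕ) := by
      rw [← hdeg]
      exact degree_modByMonic_lt _ h
    by_cases h0 : Z %ₘ G1 = 0
    · rw [h0, natDegree_zero]
      exact Nat.zero_le _
    · rw [degree_eq_natDegree h0] at h5
      have : (Z %ₘ G1).natDegree < g := by exact_mod_cast h5
      omega
  have hE := modByMonic_add_div (X ^ (g - 1) * P) G1
  have hE' := modByMonic_add_div (X ^ (g - 1) * P ^ Fintype.card k) G1
  have hB := hrem (X ^ (g - 1) * P)
  have hB' := hrem (X ^ (g - 1) * P ^ Fintype.card k)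
  generalize (X ^ (g - 1) * P) /ₘ G1 = A at hE ⊢
  generalize (X ^ (g - 1) * P ^ Fintype.card k) /ₘ G1 = A' at hE' ⊢
  generalize (X ^ (g - 1) * P) %ₘ G1 = B at hE hB
  generalize (X ^ (g - 1) * P ^ Fintype.card k) %ₘ G1 = B' at hE' hB'
  generalize hqq : Fintype.card k = q at *
  have hadd : ∀ U W : k[X], (U + W) ^ q = U ^ q + W ^ q := by
    intro U W
    rw [← hqq, ← FiniteField.expand_card, ← FiniteField.expand_card, ← FiniteField.expand_card,
      map_add]
  have hexp : (Polynomial.expand k q) A = A ^ q := by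
    rw [← hqq]
    exact FiniteField.expand_card A
  obtain ⟨r, hr⟩ : ∃ r, q = r + 1 := ⟨q - 1, by omega⟩
  obtain ⟨t, ht⟩ : ∃ t, g - 1 = t := ⟨_, rfl⟩
  rw [ht] at hE hE' hB hB'
  -- the key identity
  have hkey : G1 * (X ^ (r * t) * A' - G1 ^ r * A ^ q) = B ^ q - X ^ (r * t) * B' := by
    have h1 : (X ^ t * P) ^ q = B ^ q + (G1 * A) ^ q := by rw [← hE, hadd]
    have h2 : (X ^ t * P) ^ q = X ^ (r * t) * (X ^ t * P ^ q) := by
      rw [mul_pow, ← pow_mul, ← mul_assoc, ← pow_add]
      congr 2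
      rw [hr]
      ring
    rw [h2, ← hE'] at h1
    have h3 : (G1 * A) ^ q = G1 * (G1 ^ r * A ^ q) := by
      rw [mul_pow, hr, pow_succ G1 r]
      ring
    rw [h3] at h1
    linear_combination h1
  have hcoef : ∀ m, q * t < m + g → (X ^ (r * t) * A' - G1 ^ r * A ^ q).coeff m = 0 := by
    intro m hm
    by_cases h0 : X ^ (r * t) * A' - G1 ^ r * A ^ q = 0
    · rw [h0, coeff_zero]
    · refine coeff_eq_zero_of_natDegree_lt ?_
      have h1 : (G1 * (X ^ (r * t) * A' - G1 ^ r * A ^ q)).natDegree =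
          g + (X ^ (r * t) * A' - G1 ^ r * A ^ q).natDegree := by
        rw [natDegree_mul h.ne_zero h0, hd]
      have h2 : (B ^ q - X ^ (r * t) * B').natDegree ≤ q * t := by
        refine (natDegree_sub_le _ _).trans (max_le ?_ ?_)
        · exact natDegree_pow_le.trans (Nat.mul_le_mul_left q hB)
        · refine natDegree_mul_le.trans ?_
          rw [natDegree_X_pow, hr]
          calc r * t + B'.natDegree ≤ r * t + t := Nat.add_le_add_left hB' _
            _ = (r + 1) * t := by ring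
      rw [hkey] at h1
      omega
  have hm : q * t < (r * t + (g - 2 - (j : ℕ))) + g := by
    rw [hr]
    have : (r + 1) * t = r * t + t := by ring
    omega
  have h1 := hcoef _ hm
  rw [coeff_sub, sub_eq_zero, add_comm (r * t), coeff_X_pow_mul] at h1
  rw [h1, ← hexp, coeff_mul, show q - 1 = r by omega]
  symm
  have hq0 : 0 < q := by omega
  refine Finset.sum_of_injOn
    (fun i : Fin (g - 1) => (q * ((i : ℕ) + 1) - ((j : ℕ) + 1), q * (g - 2 - (i : ℕ)))) ?_ ?_ ?_ ?_
  · intro i _ i' _ hii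
    have h2 : q * (g - 2 - (i : ℕ)) = q * (g - 2 - (i' : ℕ)) := (Prod.ext_iff.1 hii).2
    have h3 := Nat.eq_of_mul_eq_mul_left hq0 h2
    have h4 := i.2
    have h5 := i'.2
    exact Fin.ext (by omega)
  · intro i _
    have h4 := i.2
    have h5 : q ≤ q * ((i : ℕ) + 1) := Nat.le_mul_of_pos_right q (by omega)
    obtain ⟨s, hs⟩ : ∃ s, g - 2 - (i : ℕ) = s := ⟨_, rfl⟩
    have h6 : t = s + (i : ℕ) + 1 := by omega
    have h7 : q * ((i : ℕ) + 1) + q * s = r * t + t := by
      calc q * ((i : ℕ) + 1) + q * s = q * (s + (i : ℕ) + 1) := by ring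
        _ = (r + 1) * t := by rw [← h6, hr]
        _ = r * t + t := by ring
    show (_, _) ∈ _
    rw [Finset.mem_coe, Finset.HasAntidiagonal.mem_antidiagonal, hs]
    show q * ((i : ℕ) + 1) - ((j : ℕ) + 1) + q * s = g - 2 - (j : ℕ) + r * t
    omega
  · rintro ⟨a, b⟩ hab hne
    rw [Finset.HasAntidiagonal.mem_antidiagonal] at hab
    have hab' : a + b = g - 2 - (j : ℕ) + r * t := hab
    show (G1 ^ r).coeff a * ((Polynomial.expand k q) A).coeff b = 0
    rw [coeff_expand hq0]
    by_cases hb : q ∣ b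
    · exfalso
      obtain ⟨l, rfl⟩ := hb
      have h2 : l < t := by
        by_contra h3
        rw [not_lt] at h3
        have h4 : q * t ≤ q * l := Nat.mul_le_mul_left q h3
        have h5 : q * t = r * t + t := by rw [hr]; ring
        omega
      apply hne
      refine ⟨⟨g - 2 - l, by omega⟩, Finset.mem_coe.2 (Finset.mem_univ _), ?_⟩
      have h6 : g - 2 - (g - 2 - l) = l := by omega
      have h7 : q * (g - 2 - l + 1) + q * l = r * t + t := by
        calc q * (g - 2 - l + 1) + q * l = q * (g - 2 - l + 1 + l) := by ring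
          _ = (r + 1) * t := by rw [show g - 2 - l + 1 + l = t by omega, hr]
          _ = r * t + t := by ring
      show (q * (g - 2 - l + 1) - ((j : ℕ) + 1), q * (g - 2 - (g - 2 - l))) = (a, q * l)
      rw [h6]
      refine Prod.ext ?_ rfl
      show q * (g - 2 - l + 1) - ((j : ℕ) + 1) = a
      omega
    · rw [if_neg hb, mul_zero]
  · intro i _
    show _ = (G1 ^ r).coeff (q * ((i : ℕ) + 1) - ((j : ℕ) + 1)) *
      ((Polynomial.expand k q) A).coeff (q * (g - 2 - (i : ℕ)))
    rw [coeff_expand_mul' hq0]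

end PERMTaux

/-- **PERMT.** -/
theorem permt_thm : StmtPERMT := by
  intro k _ _ g G hg1 hgq hGd
  have hG0 : G ≠ 0 := by
    intro h
    rw [h, Polynomial.natDegree_zero] at hGd
    omega
  have hc : G.leadingCoeff ≠ 0 := Polynomial.leadingCoeff_ne_zero.2 hG0
  obtain ⟨c, hcc⟩ : ∃ c, G.leadingCoeff = c := ⟨_, rfl⟩
  rw [hcc] at hc
  have hmon : (Polynomial.C c⁻¹ * G).Monic :=
    Polynomial.monic_C_mul_of_mul_leadingCoeff_eq_one (by rw [hcc, inv_mul_cancel₀ hc])
  have hGG : G = Polynomial.C c * (Polynomial.C c⁻¹ * G) := by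
    rw [← mul_assoc, ← Polynomial.C_mul, mul_inv_cancel₀ hc, Polynomial.C_1, one_mul]
  have hd : (Polynomial.C c⁻¹ * G).natDegree = g := by
    rw [Polynomial.natDegree_C_mul (inv_ne_zero hc), hGd]
  generalize Polynomial.C c⁻¹ * G = G1 at hmon hGG hd
  refine ⟨PERMTaux.TT g c G1 hmon, PERMTaux.TT_mul g c G G1 hmon hGG, fun P => ?_,
    PERMTaux.TT_surj g c hc G G1 hmon hGG hd hg1,
    PERMTaux.TT_ker g c hc G G1 hmon hGG hd hg1, PERMTaux.TT_C g c G1 hmon hd hg1⟩
  funext j
  have hj := j.2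
  rw [PERMTaux.TT_apply, PERMTaux.frob g G1 hmon hd hgq, Matrix.mulVec, dotProduct,
    Finset.mul_sum]
  refine Finset.sum_congr rfl fun i _ => ?_
  rw [Matrix.transpose_apply, HN, Matrix.of_apply, PERMTaux.TT_apply]
  have h1 : Fintype.card k ≤ Fintype.card k * ((i : ℕ) + 1) :=
    Nat.le_mul_of_pos_right _ (by omega)
  rw [if_pos (by omega)]
  have h2 : G ^ (Fintype.card k - 1) = G1 ^ (Fintype.card k - 1) := by
    rw [hGG, mul_pow, ← Polynomial.C_pow, FiniteField.pow_card_sub_one_eq_one c hc,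
      Polynomial.C_1, one_mul]
  rw [h2]
  ring

end ASP
end

section
/-!
# MP_b685ef_ag, theorem AS+: assembly of the modules
-/
set_option linter.all false

namespace ASP

open ASur

universe u v

theorem main_PERMC : StmtPERMC := permc_thm permt_thm perma_thm

theorem main_CUBH : StmtCUBH := cubh_thm CUBA_thm

theorem main_CHIP : StmtCHIP := CHIP_thm main_LEAD reidx_thm

theorem main_EDGP : StmtEDGP :=
  EDGP_thm main_THETA main_TRF deg_thm (FIVE_thm nrm_thm nrb_thm ncl_thm) WGT_thm
    main_CHIP main_LEAD reidx_thm (EDGEM_thm CYC1_thm CYC3_thm BLD_thm)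
    SMALL_thm AFAC_thm ediv_thm ECL_thm (TEX_thm TUN_thm) zeta_thm ext_thm
    AST.plam_thm AST.escal_thm

theorem main_HALFP : StmtHALFP :=
  halfp_thm main_EDGP roots_thm (AST.eres_thm AST.emult_thm AST.eprod_thm) zeta_thm KAC_thm

theorem main_COREP : StmtCOREP :=
  COREP_thm main_HALFP COUNT_thm PATHG_thm main_PERMC HGI_thm

theorem main_FINALP : StmtFINALP.{u, v} :=
  FINALP_thm main_COREP K2C_thm linalg_thm ext_thm

/-- (L) for cubics. -/
theorem cubic_thm (p : ℕ) [hpF : Fact p.Prime] (hD : Nat.lcm 3 3 ∣ p - 1)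
    (k : Type) [Field k] [Fintype k] [Algebra (ZMod p) k] (f : MvPolynomial (Fin 2) k)
    (hG : (GF 3 3 f).natDegree = Nat.gcd 3 3) (hGs : Squarefree (GF 3 3 f))
    (m : ℕ) (hm : 1 ≤ m) (hmD : m < Nat.lcm 3 3) :
    (Polynomial.X *
      (Fprod p (Hmat p 3 3 (Nat.lcm 3 3) m f) (Module.finrank (ZMod p) k)).charpoly).Separable :=
  cubic_aux main_CUBH p hD k f hG hGs m hm hmD

end ASP
end
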