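import Pool.Agent.Lib.MP_b685ef_ag.AST.Main

/-!
# MP_b685ef_ag, theorem AS+: statements of all modules

Paper: /team-store/b685_ASP_paper.txt .  `n = 2`, weights `D/a`, `D/b`, `D = lcm a b ∣ p - 1`, as in
the folder `AS` (namespace `ASur`).  `g = gcd a b`, `a = a' g`, `b = b' g`; the leading part of `f` is
`∑_{i ≤ g} c_i x^{a'i} y^{b'(g-i)}`, `G = ∑ c_i X^i`.  Module NAME proves `StmtNAME` in
`Pool/Agent/Lib/MP_b685ef_ag/ASP/NAME.lean` (import `...ASP.Spec`, `namespace ASP`), as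
`theorem name_thm (dependencies as hypotheses) : StmtNAME`.
-/

set_option linter.all false

namespace ASP

open Finset ASur

universe u v

/-! ## Part P: the matrix of the level `D` -/

/-- `G = ∑_{i ≤ g} c_i X^i`, `c_i` the coefficient of `x^{a'i} y^{b'(g-i)}` in `f`. -/
noncomputable def GF (a b : ℕ) {k : Type} [Field k] (f : MvPolynomial (Fin 2) k) :
    Polynomial k :=
  ∑ i ∈ range (Nat.gcd a b + 1), Polynomial.monomial i
    (cf f ![a / Nat.gcd a b * i, b / Nat.gcd a b * (Nat.gcd a b - i)])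

/-- The matrix `(coeff_{m(i+1) - (j+1)} G^{m-1})`, `0 ≤ i, j < g - 1`. -/
noncomputable def HN (m g : ℕ) {k : Type} [Field k] (G : Polynomial k) :
    Matrix (Fin (g - 1)) (Fin (g - 1)) k :=
  Matrix.of fun i j => if (j : ℕ) + 1 ≤ m * ((i : ℕ) + 1) then
    (G ^ (m - 1)).coeff (m * ((i : ℕ) + 1) - ((j : ℕ) + 1)) else 0

/-- **PATHG.** `G^{p^{n+1}-1} = G^{p^n-1} (G^{p-1})^{p^n}` and `(∑ c_m X^m)^{p^n} = ∑ c_m^{p^n} X^{mp^n}`:
the coefficient at `p^{n+1}(i+1) - (j+1)` is `∑_l (coeff_{p(i+1)-l} G^{p-1})^{p^n}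
coeff_{p^n l - (j+1)} G^{p^n-1}`, a nonzero term has `1 ≤ l` and `p^n l ≤ (p^n-1)g + g - 1 < p^n g`.
(`l ≤ g - 1 < p ≤ p(i+1)` by `g ≤ p`; `n = 0`: both sides are the identity.) -/
def StmtPATHG : Prop := ∀ (p : ℕ) [Fact p.Prime] (k : Type) [Field k] [CharP k p] (g : ℕ)
  (G : Polynomial k), 1 ≤ g → g ≤ p → G.natDegree ≤ g →
  ∀ n : ℕ, Fprod p (HN p g G) n = HN (p ^ n) g G

/-- **PERMT.** `T(P)_j` = the coefficient of `X^{-(j+1)}` in `P/G`, `0 ≤ j < g-1`. With `Y = 1/X`,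
`Ĝ = G.reverse` (constant coefficient `≠ 0`), for `deg P ≤ M`, `M ≥ g - 1`: it is the coefficient of
`Y^{M-g+1+j}` in `reflect_M(P) Ĝ⁻¹`. (b) `P^q/G = (P/G)^q G^{q-1}` and `(∑ s_i Y^i)^q = ∑ s_i Y^{qi}`
over `k`: the coefficient of `X^{-(j+1)}` is `∑_i s_i coeff_{q(i+1)-(j+1)} G^{q-1}` where `s_i` is
that of `X^{-(i+1)}` in `P/G` (reduce first to `deg P < g` by (a), so that `P/G` starts at `X^{-1}`);
a nonzero term has `i ≤ g - 2`. (c), (d): for `deg P < g` the first `g - 1` coefficients of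
`reflect_{g-1}(P) Ĝ⁻¹` vanish iff those of `reflect_{g-1}(P)` do; division with remainder by `G`. -/
def StmtPERMT : Prop := ∀ (k : Type) [Field k] [Fintype k] (g : ℕ) (G : Polynomial k),
  1 ≤ g → g ≤ Fintype.card k → G.natDegree = g →
  ∃ T : Polynomial k →ₗ[k] (Fin (g - 1) → k),
    (∀ Q, T (G * Q) = 0) ∧
    (∀ P, T (P ^ Fintype.card k) = (HN (Fintype.card k) g G).transpose.mulVec (T P)) ∧
    Function.Surjective T ∧
    (∀ P, T P = 0 → ∃ (c : k) (Q : Polynomial k), P = Polynomial.C c + G * Q) ∧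
    (∀ c : k, T (Polynomial.C c) = 0)

/-- **PERMA.** The charpoly of the `q`-Frobenius on `k[X]/(G)`: induction over the irreducible
factors (`AdjoinRoot (G₁ G') ≃ AdjoinRoot G₁ × AdjoinRoot G'` for coprime factors, compatible with
`x ↦ x^q`; `LinearMap.charpoly_prodMap`, `LinearEquiv.charpoly_conj`); for `G` irreducible
`AdjoinRoot G` is a field of degree `d = natDegree G`, the minimal polynomial of the Frobenius is
`X^d - 1` (`FiniteField.minpoly_frobeniusAlgHom`) and divides the charpoly, of degree `d`. -/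
def StmtPERMA : Prop := ∀ (k : Type) [Field k] [Fintype k] (F : Multiset (Polynomial k)),
  (∀ P ∈ F, Irreducible P) → Squarefree F.prod →
  ∀ [Module.Finite k (AdjoinRoot F.prod)] (φ : AdjoinRoot F.prod →ₗ[k] AdjoinRoot F.prod),
  (∀ x, φ x = x ^ Fintype.card k) →
  φ.charpoly = (F.map fun P => (Polynomial.X ^ P.natDegree - 1 : Polynomial k)).prod

/-- **PERMC** (from PERMT, PERMA). `T` induces a surjection `AdjoinRoot G → k^{g-1}` with kernel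
`k·1`, intertwining the Frobenius and `(HN q g G)ᵀ`. In a basis `1, b_1, ..., b_{g-1}` of
`AdjoinRoot G` with `T b_i = e_i` the matrix of the Frobenius is `(1 *; 0 (HN q g G)ᵀ)`. -/
def StmtPERMC : Prop := ∀ (k : Type) [Field k] [Fintype k] (g : ℕ) (G : Polynomial k),
  1 ≤ g → g ≤ Fintype.card k → G.natDegree = g → Squarefree G →
  ∀ F : Multiset (Polynomial k), (∀ P ∈ F, Irreducible P) → F.prod = G →
  (Polynomial.X - 1) * (HN (Fintype.card k) g G).charpoly =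
    (F.map fun P => (Polynomial.X ^ P.natDegree - 1 : Polynomial k)).prod

/-- **HGI.** `U_D = {(a'(i+1), b'(g-1-i)) : i < g - 1}` (`b'u₁ + a'u₂ = a'b'g` and `gcd(a',b') = 1`
give `a' ∣ u₁`), `lead a b f = ∑ c_i x^{a'i} y^{b'(g-i)}`, and the coefficient of
`lead^{p-1}` at `pu - v` is that of `G^{p-1}` at `p(i+1) - (j+1)` (`(p-1)/D * D = p-1`). -/
def StmtHGI : Prop := ∀ (p a b : ℕ), 2 ≤ p → 2 ≤ a → 2 ≤ b → Nat.lcm a b ∣ p - 1 →
  ∀ (k : Type) [Field k] (f : MvPolynomial (Fin 2) k) (h : ℕ),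
  (Fprod p (Hmat p a b (Nat.lcm a b) (Nat.lcm a b) f) h).charpoly =
    (Fprod p (HN p (Nat.gcd a b) (GF a b f)) h).charpoly

/-- **CUBA.** The coefficient `c(F)` of `(xy)^{p-1}` in a form `F` of degree `2(p-1)` in
characteristic `p`: `c(F∘A) = det(A)^{p-1} c(F)`. By linearity `F = x^i y^{2p-2-i}`. For `i = p-1`:
the coefficient in `(ax+by)^{p-1}(cx+dy)^{p-1}` is
`∑_j binom(p-1,j) binom(p-1,p-1-j) (ad)^j (bc)^{p-1-j} = ∑_j (ad)^j (bc)^{p-1-j} = (ad-bc)^{p-1}`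
(`binom(p-1,j) = (-1)^j`; multiply by `ad - bc`, or `Commute.geom_sum₂_mul`, if `ad ≠ bc`; if
`ad = bc` the sum is `p (ad)^{p-1} = 0`). For `i = p-1+t`, `t ≥ 1`: `(ax+by)^i =
(a^p x^p + b^p y^p)(ax+by)^{t-1}` and every monomial of the product is divisible by `x^p` or `y^p`:
coefficient `0`; the same for `i < p-1`. -/
def StmtCUBA : Prop := ∀ (p : ℕ) [Fact p.Prime] (K : Type) [Field K] [CharP K p]
  (F : MvPolynomial (Fin 2) K), F.IsHomogeneous (2 * (p - 1)) → ∀ a b c d : K,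
  cf (MvPolynomial.aeval ![MvPolynomial.C a * MvPolynomial.X 0 + MvPolynomial.C b *
      MvPolynomial.X 1, MvPolynomial.C c * MvPolynomial.X 0 + MvPolynomial.C d *
      MvPolynomial.X 1] F : MvPolynomial (Fin 2) K) ![p - 1, p - 1] =
    (a * d - b * c) ^ (p - 1) * cf F ![p - 1, p - 1]

/-- **CUBH** (from CUBA). `a = b = 3`: `U_1` is empty and `U_2 = {(1,1)}`, the entry of `H_2` is
`c(f₁^m)`, `m = 2(p-1)/3`. Over the algebraic closure `f₁ = c₃ ∏ (x - τ_i y)` with different `τ_i`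
(`lead 3 3 f` is the homogenization of `GF 3 3 f`); `l₃ = α l₁ + β l₂` with `α, β ≠ 0`, so
`f₁ = c' (xy(x+y))∘A`, `A = (α l₁, β l₂)`, `det A ≠ 0`, and
`c(f₁^m) = c'^m det(A)^{p-1} c((xy(x+y))^m)`; the last factor is the coefficient of `(xy)^{m/2}` in
`(x+y)^m` (`p - 1 - m = m/2`), `binom(m, m/2) ≠ 0` as `m < p`. -/
def StmtCUBH : Prop := ∀ (p : ℕ) [Fact p.Prime], 3 ∣ p - 1 →
  ∀ (k : Type) [Field k] [Algebra (ZMod p) k] (f : MvPolynomial (Fin 2) k),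
  (GF 3 3 f).natDegree = 3 → Squarefree (GF 3 3 f) → ∀ m, 1 ≤ m → m < 3 →
  (Hmat p 3 3 3 m f).det ≠ 0

/-! ## Part E: edges -/

/-- **CHIP** (from LEAD, REIDX): adapt `AS/CHI.lean`. Hypotheses: `N_m` invertible with distinct
eigenvalues for `m < D`, `H_D` invertible. For `m = D` the product of the reduced blocks is
`((p-1)!)^{-h} ι(N_D) = (-1)^h ι(N_D)`. -/
def StmtCHIP : Prop := ∀ (p : ℕ) [Fact p.Prime] (a b : ℕ), 2 ≤ a → 2 ≤ b →
  Nat.lcm a b ∣ p - 1 →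
  ∀ (C : Type) [NormedField C] [IsUltrametricDist C] [IsAlgClosed C], ‖(p : C)‖ < 1 →
  ∀ (ζ ρ : C) (ε : ℝ) (Θ : Polynomial C),
  IsSplit p ζ ε Θ → ρ ^ Nat.lcm a b = ζ - 1 → ρ ≠ 0 → ‖ρ‖ < 1 →
  ∀ (k : Type) [Field k] (ι : k →+* KK C) (τ : k →*₀ C), IsTeich ι τ →
  ∀ f : MvPolynomial (Fin 2) k, (∀ m ∈ f.support, ew a b m ≤ Nat.lcm a b) →
  ∀ h : ℕ, 1 ≤ h → (∀ m, 1 ≤ m → m < Nat.lcm a b → (Polynomial.X *
    (Fprod p (Hmat p a b (Nat.lcm a b) m f) h).charpoly).Separable) →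
  (Hmat p a b (Nat.lcm a b) (Nat.lcm a b) f).det ≠ 0 →
  ∀ L : ℕ, Nat.lcm a b ≤ L →
  (∀ m, 1 ≤ m → m < Nat.lcm a b →
    (Pmat (fun i => blk (fun u : Fin 2 → Fin L => ew a b (pt u)) m
      (Cmat p a b L ρ (Fpol p τ Θ f i))) h).charpolyRev.Separable ∧
    (Pmat (fun i => blk (fun u : Fin 2 → Fin L => ew a b (pt u)) m
      (Cmat p a b L ρ (Fpol p τ Θ f i))) h).charpolyRev.natDegree =
        Fintype.card (Um a b (Nat.lcm a b) m)) ∧
  (∀ m, 1 ≤ m → m ≤ Nat.lcm a b →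
    (Pmat (fun i => blk (fun u : Fin 2 → Fin L => ew a b (pt u)) m
      (Cmat p a b L ρ (Fpol p τ Θ f i))) h).charpolyRev.coeff 0 = 1 ∧
    ∀ i, i < h → (blk (fun u : Fin 2 → Fin L => ew a b (pt u)) m
      (Cmat p a b L ρ (Fpol p τ Θ f i))).det ≠ 0) ∧
  (Pmat (fun i => blk (fun u : Fin 2 → Fin L => ew a b (pt u)) (Nat.lcm a b)
    (Cmat p a b L ρ (Fpol p τ Θ f i))) h).charpolyRev =
    ((((Fprod p (Hmat p a b (Nat.lcm a b) (Nat.lcm a b) f) h).map ι).charpolyRev).comp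
      (Polynomial.C ((-1) ^ h) * Polynomial.X))

/-- **EDGP** (from CHIP and the dependencies of `AS/EDGES.lean`, `AST.StmtPLAM`,
`AST.StmtESCAL`): adapt `AS/EDGES.lean`. For `m = D` change `ϖ = λ^{(p-1)h}` to `q`:
`q/ϖ` is a unit with reduction `(-1)^h` (PLAM), and use ESCAL with `t = 1`. -/
def StmtEDGP : Prop := ∀ (p : ℕ) [Fact p.Prime] (a b : ℕ), 2 ≤ a → 2 ≤ b →
  Nat.lcm a b ∣ p - 1 →
  ∀ (C : Type) [NormedField C] [IsUltrametricDist C] [CharZero C] [IsAlgClosed C],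
  ‖(p : C)‖ < 1 → ∀ j : ℤ_[p] →+* C, (∀ x, ‖j x‖ ≤ 1) →
  ∀ (k : Type) [Field k] [Fintype k] [Algebra (ZMod p) k] (f : MvPolynomial (Fin 2) k),
  (∀ m ∈ f.support, ew a b m ≤ Nat.lcm a b) →
  (∀ m, 1 ≤ m → m < Nat.lcm a b → (Polynomial.X *
    (Fprod p (Hmat p a b (Nat.lcm a b) m f) (Module.finrank (ZMod p) k)).charpoly).Separable) →
  (Hmat p a b (Nat.lcm a b) (Nat.lcm a b) f).det ≠ 0 →
  ∀ (ι : k →+* KK C) (ψ : AddChar (ZMod p) C), ψ ≠ 1 → ∀ β : Multiset C,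
  (∀ (E : Type) [Field E] [Fintype E] [Algebra (ZMod p) E] [Algebra k E],
    (β.map fun x => x ^ Module.finrank k E).sum = Sf ψ f E) →
  (∀ ρ : C, ρ ^ Nat.lcm a b = ψ 1 - 1 → ∀ m, 1 ≤ m → m < Nat.lcm a b → ∀ m0 : ℕ,
    ∃ χ : Polynomial (KK C), χ.Separable ∧ χ.coeff 0 = 1 ∧
      χ.natDegree = Fintype.card (Um a b (Nat.lcm a b) m) ∧
      Edge (revP β : PowerSeries C) (ρ ^ ((p - 1) * m * Module.finrank (ZMod p) k))
        (Fintype.card {u : Fin 2 → Fin (Nat.lcm a b) // ew a b (pt u) < m}) χ m0) ∧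
  ∀ m0 : ℕ, Edge (revP β : PowerSeries C) (Fintype.card k : C)
    (Fintype.card {u : Fin 2 → Fin (Nat.lcm a b) // ew a b (pt u) < Nat.lcm a b})
    (((Fprod p (Hmat p a b (Nat.lcm a b) (Nat.lcm a b) f)
      (Module.finrank (ZMod p) k)).map ι).charpolyRev) m0

/-- **HALFP** (from EDGP, `ASur.StmtROOTS`, `AST.StmtERES`, `ASur.StmtZETA`): adapt
`AS/HALF.lean`. For `m = D` use ERES (`KK C` is algebraically closed, `ASur.StmtKAC`, so
`charpolyRev = ∏ (1 - r X)` over the roots `r` of the charpoly, all `≠ 0`). -/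
def StmtHALFP : Prop := ∀ (p : ℕ) [Fact p.Prime] (a b : ℕ), 2 ≤ a → 2 ≤ b →
  Nat.lcm a b ∣ p - 1 →
  ∀ (C : Type) [NormedField C] [IsUltrametricDist C] [CharZero C] [IsAlgClosed C],
  ‖(p : C)‖ < 1 → ∀ j : ℤ_[p] →+* C, (∀ x, ‖j x‖ ≤ 1) →
  ∀ (k : Type) [Field k] [Fintype k] [Algebra (ZMod p) k] (f : MvPolynomial (Fin 2) k),
  (∀ m ∈ f.support, ew a b m ≤ Nat.lcm a b) →
  (∀ m, 1 ≤ m → m < Nat.lcm a b → (Polynomial.X *
    (Fprod p (Hmat p a b (Nat.lcm a b) m f) (Module.finrank (ZMod p) k)).charpoly).Separable) →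
  (Hmat p a b (Nat.lcm a b) (Nat.lcm a b) f).det ≠ 0 →
  ∀ (ι : k →+* KK C) (ψ : AddChar (ZMod p) C), ψ ≠ 1 → ∀ β : Multiset C,
  (∀ (E : Type) [Field E] [Fintype E] [Algebra (ZMod p) E] [Algebra k E],
    (β.map fun x => x ^ Module.finrank k E).sum = Sf ψ f E) →
  Multiset.card (β.filter fun x => ‖(Fintype.card k : C)‖ < ‖x‖) =
    Fintype.card {u : Fin 2 → Fin (Nat.lcm a b) // ew a b (pt u) < Nat.lcm a b} ∧
  (β.filter fun x => ‖(Fintype.card k : C)‖ < ‖x‖).Nodup ∧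
  (β.filter fun x => ‖x‖ = ‖(Fintype.card k : C)‖).map
      (fun x => rd (x / (Fintype.card k : C))) =
    (((Fprod p (Hmat p a b (Nat.lcm a b) (Nat.lcm a b) f)
      (Module.finrank (ZMod p) k)).map ι).charpoly).roots

/-- **COREP** (from HALFP, `ASur.StmtCOUNT`, PATHG, PERMC, HGI): the theorem over `C`, with duality
(as in `AS/CORE.lean`: HALFP for `ψ⁻¹` and `q²/β`). Let `β = β' + β''`, `β''` the roots `q ζ`,
`ζ^d = 1`, of `∏_{P ∈ F₂} (X^d - q^d)` (`d = deg P`): all of norm `‖q‖`, with residues (of `x/q`) the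
roots of `∏_{F₂} (X^d - 1)` over `κ`. By PERMC (and PATHG, HGI) `(X - 1) charpoly(N_D)` is
`∏_{F₁ + F₂} (X^d - 1)`, so the residues of the part of norm `‖q‖` of `β'` are the roots of
`∏_{F₁} (X^d - 1)/(X - 1)`, distinct in both cases (`p ∤ d`, since `d ≤ g ≤ D < p`; for two coprime
degrees the only common root is `1`). `H_D` is invertible because `charpoly(N_D)(0) ≠ 0`. -/
def StmtCOREP : Prop := ∀ (p : ℕ) [Fact p.Prime] (a b : ℕ), 2 ≤ a → 2 ≤ b →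
  Nat.lcm a b ∣ p - 1 →
  ∀ (C : Type) [NormedField C] [IsUltrametricDist C] [CharZero C] [IsAlgClosed C],
  ‖(p : C)‖ < 1 → ∀ j : ℤ_[p] →+* C, (∀ x, ‖j x‖ ≤ 1) →
  ∀ (k : Type) [Field k] [Fintype k] [Algebra (ZMod p) k] (f : MvPolynomial (Fin 2) k),
  (∀ m ∈ f.support, ew a b m ≤ Nat.lcm a b) →
  (∀ m, 1 ≤ m → m < Nat.lcm a b → (Polynomial.X *
    (Fprod p (Hmat p a b (Nat.lcm a b) m f) (Module.finrank (ZMod p) k)).charpoly).Separable) →
  (GF a b f).natDegree = Nat.gcd a b → Squarefree (GF a b f) →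
  ∀ F₁ F₂ : Multiset (Polynomial k), (∀ P ∈ F₁ + F₂, Irreducible P) →
  (F₁ + F₂).prod = GF a b f →
  (Multiset.card F₁ = 1 ∨
    ∃ P₁ P₂ : Polynomial k, F₁ = {P₁, P₂} ∧ Nat.Coprime P₁.natDegree P₂.natDegree) →
  ∀ (ψ : AddChar (ZMod p) C), ψ ≠ 1 → ∀ β β' : Multiset C, (∀ x ∈ β, x ≠ 0) →
  (∀ (E : Type) [Field E] [Fintype E] [Algebra (ZMod p) E] [Algebra k E],
    (β.map fun x => x ^ Module.finrank k E).sum = Sf ψ f E ∧
    ((Fintype.card k : C) ^ Module.finrank k E) ^ 2 *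
      (β.map fun x => (x⁻¹) ^ Module.finrank k E).sum = Sf ψ⁻¹ f E) →
  β = β' + (F₂.map fun P =>
    (Polynomial.X ^ P.natDegree - Polynomial.C ((Fintype.card k : C) ^ P.natDegree)).roots).sum →
  Multiset.card β = (a - 1) * (b - 1) ∧ β'.Nodup

/-- **FINALP** (from COREP, `ASur.StmtK2C`, `ASur.StmtLINALG`, `ASur.StmtEXT`): adapt
`AS/FINAL.lean`. -/
def StmtFINALP : Prop := ∀ (p : ℕ) [Fact p.Prime] (a b : ℕ), 2 ≤ a → 2 ≤ b →
  Nat.lcm a b ∣ p - 1 →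
  ∀ (k : Type) [Field k] [Fintype k] [Algebra (ZMod p) k] (f : MvPolynomial (Fin 2) k),
  (∀ m ∈ f.support, ew a b m ≤ Nat.lcm a b) →
  (∀ m, 1 ≤ m → m < Nat.lcm a b → (Polynomial.X *
    (Fprod p (Hmat p a b (Nat.lcm a b) m f) (Module.finrank (ZMod p) k)).charpoly).Separable) →
  (GF a b f).natDegree = Nat.gcd a b → Squarefree (GF a b f) →
  ∀ F₁ F₂ : Multiset (Polynomial k), (∀ P ∈ F₁ + F₂, Irreducible P) →
  (F₁ + F₂).prod = GF a b f →
  (Multiset.card F₁ = 1 ∨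
    ∃ P₁ P₂ : Polynomial k, F₁ = {P₁, P₂} ∧ Nat.Coprime P₁.natDegree P₂.natDegree) →
  ∀ (K : Type u) [Field K] [IsAlgClosed K] [CharZero K] (ψ : AddChar (ZMod p) K), ψ ≠ 1 →
  ∀ (V : Type v) [AddCommGroup V] [Module K V] [FiniteDimensional K V] (φ : V ≃ₗ[K] V),
  (∀ (E : Type) [Field E] [Fintype E] [Algebra (ZMod p) E] [Algebra k E],
    LinearMap.trace K V ((φ : V →ₗ[K] V) ^ Module.finrank k E) = Sf ψ f E ∧
    (Fintype.card E : K) ^ 2 *
      LinearMap.trace K V ((φ.symm : V →ₗ[K] V) ^ Module.finrank k E) = Sf ψ⁻¹ f E) →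
  ∀ Q : Polynomial K, LinearMap.charpoly (φ : V →ₗ[K] V) =
    Q * (F₂.map fun P =>
      Polynomial.X ^ P.natDegree - Polynomial.C ((Fintype.card k : K) ^ P.natDegree)).prod →
  Module.finrank K V = (a - 1) * (b - 1) ∧ Q.Separable

end ASP
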